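import Mathlib

set_option autoImplicit false

/-! # Alon's theorem: graphs of large minimum degree are not `s`-choosable -/

namespace Pool.Agent.H52.CU

open Finset Classical

/-- `G` is `k`-choosable. -/
def Choosable {V : Type} (G : SimpleGraph V) (k : ℕ) : Prop :=
  ∀ L : V → Finset ℕ, (∀ v, k ≤ (L v).card) →
    ∃ f : V → ℕ, (∀ v, f v ∈ L v) ∧ ∀ u v, G.Adj u v → f u ≠ f v

/-- size of a product of finsets, some of them a fixed fraction of the whole -/
theorem card_pi_le {V : Type} [Fintype V] {α : Type} (t : V → Finset α) (P : ℝ) (X : Finset V)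
    (c : ℝ) (h1 : ∀ v ∈ X, ((t v).card : ℝ) ≤ P * c)
    (h2 : ∀ v, v ∉ X → ((t v).card : ℝ) ≤ P) :
    ((Fintype.piFinset t).card : ℝ) ≤ P ^ Fintype.card V * c ^ X.card := by
  rw [Fintype.card_piFinset]
  push_cast
  calc ∏ v, ((t v).card : ℝ) ≤ ∏ v, (P * if v ∈ X then c else 1) := by
        apply Finset.prod_le_prod
        · intro v _; positivity
        · intro v _
          split_ifs with h
          · exact h1 v h
          · rw [mul_one]; exact h2 v h
    _ = P ^ Fintype.card V * c ^ X.card := by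
        rw [Finset.prod_mul_distrib, Finset.prod_const, Finset.card_univ, Finset.prod_ite_mem,
          Finset.univ_inter, Finset.prod_const]

/-- The number of `s`-subsets contained in a set. -/
theorem card_sub {M : ℕ} (s : ℕ) (C : Finset (Fin M)) :
    (((univ : Finset (Fin M)).powersetCard s).filter (fun T => T ⊆ C)).card = C.card.choose s := by
  rw [← Finset.card_powersetCard]
  congr 1
  ext T
  simp only [mem_filter, mem_powersetCard, subset_univ, true_and]
  tauto

theorem swap {V α : Type} [Fintype V] (Ω : Finset α) (p : α → V → Prop)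
    [∀ ω, DecidablePred (p ω)] [∀ v, DecidablePred (fun ω => p ω v)] :
    ∑ ω ∈ Ω, ((univ.filter (fun v => p ω v)).card : ℝ) =
      ∑ v, ((Ω.filter (fun ω => p ω v)).card : ℝ) := by
  simp only [Finset.card_filter, Nat.cast_sum]
  rw [Finset.sum_comm]

/-- First stage: a sparse set `B` with lists such that many vertices are good. -/
theorem stage1 {V : Type} [Fintype V] (G : SimpleGraph V) (s h q d M : ℕ) (hs : s ≤ h)
    (hhM : h ≤ M) (hq : 8 ≤ q)
    (hdeg : ∀ v, d ≤ (univ.filter (fun u => G.Adj v u)).card)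
    (ρ : ℝ) (hρ : ρ = (h.choose s : ℝ) / (M.choose s : ℝ))
    (h2 : (M.choose h : ℝ) * Real.exp (-(d * ρ / q)) ≤ 1 / 4) :
    ∃ (B Good : Finset V) (β : V → Finset (Fin M)), (∀ v, (β v).card = s) ∧
      ((B.card : ℝ) ≤ 5 / 2 * Fintype.card V / q) ∧
      ((3 / 8 : ℝ) * Fintype.card V ≤ Good.card) ∧ (∀ v ∈ Good, v ∉ B ∧
        ∀ C : Finset (Fin M), C.card = h → ∃ u ∈ B, G.Adj v u ∧ β u ⊆ C) := by
  set S : Finset (Finset (Fin M)) := (univ : Finset (Fin M)).powersetCard s with hS
  have hN : S.card = M.choose s := by rw [hS, Finset.card_powersetCard]; simp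
  have hNpos : 0 < M.choose s := Nat.choose_pos (hs.trans hhM)
  have hNR : (0 : ℝ) < M.choose s := by exact_mod_cast hNpos
  have hqR : (8 : ℝ) ≤ q := by exact_mod_cast hq
  have hq0 : (0 : ℝ) < q := by linarith
  set z : Fin q := ⟨0, by omega⟩ with hz
  set P : Finset (Fin q × Finset (Fin M)) := (univ : Finset (Fin q)) ×ˢ S with hP
  have hPc : (P.card : ℝ) = q * M.choose s := by
    rw [hP, Finset.card_product, hN]; simp
  set Ω : Finset (V → Fin q × Finset (Fin M)) := Fintype.piFinset (fun _ : V => P) with hΩ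
  set n := Fintype.card V with hn
  have hΩc : (Ω.card : ℝ) = (q * M.choose s : ℝ) ^ n := by
    rw [hΩ, Fintype.card_piFinset, Finset.prod_const, Finset.card_univ, Nat.cast_pow, hPc]
  have hΩpos : (0 : ℝ) < Ω.card := by rw [hΩc]; positivity
  have hρ0 : 0 ≤ ρ := by rw [hρ]; positivity
  -- the vertices in `B`
  have hB : ∀ v : V, ((Ω.filter (fun ω => (ω v).1 = z)).card : ℝ) ≤ Ω.card * (1 / q) := by
    intro v
    have hsub : Ω.filter (fun ω => (ω v).1 = z) ⊆
        Fintype.piFinset (fun u => if u = v then P.filter (fun x => x.1 = z) else P) := by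
      intro ω hω
      rw [Finset.mem_filter, hΩ, Fintype.mem_piFinset] at hω
      rw [Fintype.mem_piFinset]
      intro u
      by_cases huv : u = v
      · subst huv
        rw [if_pos rfl, Finset.mem_filter]
        exact ⟨hω.1 u, hω.2⟩
      · rw [if_neg huv]; exact hω.1 u
    have h3 : ((P.filter (fun x => x.1 = z)).card : ℝ) ≤ (q * M.choose s : ℝ) * (1 / q) := by
      have h4 : P.filter (fun x => x.1 = z) ⊆ ({z} : Finset (Fin q)) ×ˢ S := by
        intro x hx
        rw [Finset.mem_filter, hP, Finset.mem_product] at hx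
        rw [Finset.mem_product, Finset.mem_singleton]
        exact ⟨hx.2, hx.1.2⟩
      have h5 := Finset.card_le_card h4
      rw [Finset.card_product, Finset.card_singleton, one_mul, hN] at h5
      have h6 : (q * M.choose s : ℝ) * (1 / q) = M.choose s := by field_simp
      rw [h6]
      exact_mod_cast h5
    calc ((Ω.filter (fun ω => (ω v).1 = z)).card : ℝ)
        ≤ ((Fintype.piFinset (fun u => if u = v then P.filter (fun x => x.1 = z) else P)).card : ℝ) := by
          exact_mod_cast Finset.card_le_card hsub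
      _ ≤ (q * M.choose s : ℝ) ^ n * (1 / q) ^ ({v} : Finset V).card := by
          apply card_pi_le
          · intro u hu
            rw [Finset.mem_singleton] at hu
            rw [if_pos hu]; exact h3
          · intro u hu
            rw [Finset.mem_singleton] at hu
            rw [if_neg hu, hPc]
      _ = Ω.card * (1 / q) := by rw [hΩc, Finset.card_singleton, pow_one]
  -- the vertices with a bad set
  have hE : ∀ (v : V) (C : Finset (Fin M)), C.card = h →
      ((Ω.filter (fun ω => ∀ u, G.Adj v u → ¬ ((ω u).1 = z ∧ (ω u).2 ⊆ C))).card : ℝ)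
        ≤ Ω.card * Real.exp (-(d * ρ / q)) := by
    intro v C hC
    set Q := P.filter (fun x => ¬ (x.1 = z ∧ x.2 ⊆ C)) with hQ
    have hsub : Ω.filter (fun ω => ∀ u, G.Adj v u → ¬ ((ω u).1 = z ∧ (ω u).2 ⊆ C)) ⊆
        Fintype.piFinset (fun u => if G.Adj v u then Q else P) := by
      intro ω hω
      rw [Finset.mem_filter, hΩ, Fintype.mem_piFinset] at hω
      rw [Fintype.mem_piFinset]
      intro u
      by_cases huv : G.Adj v u
      · rw [if_pos huv, hQ, Finset.mem_filter]
        exact ⟨hω.1 u, hω.2 u huv⟩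
      · rw [if_neg huv]; exact hω.1 u
    have h3 : (Q.card : ℝ) ≤ (q * M.choose s : ℝ) * (1 - ρ / q) := by
      have h4 : (P.filter (fun x => x.1 = z ∧ x.2 ⊆ C)).card = h.choose s := by
        have h5 : P.filter (fun x => x.1 = z ∧ x.2 ⊆ C) =
            ({z} : Finset (Fin q)) ×ˢ (S.filter (fun T => T ⊆ C)) := by
          ext x
          rw [Finset.mem_filter, hP, Finset.mem_product, Finset.mem_product, Finset.mem_singleton,
            Finset.mem_filter]
          constructor
          · rintro ⟨⟨_, h1⟩, h2, h3⟩; exact ⟨h2, h1, h3⟩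
          · rintro ⟨h1, h2, h3⟩; exact ⟨⟨Finset.mem_univ _, h2⟩, h1, h3⟩
        rw [h5, Finset.card_product, Finset.card_singleton, one_mul, hS, card_sub, hC]
      have h6 := Finset.card_filter_add_card_filter_not (s := P) (fun x => x.1 = z ∧ x.2 ⊆ C)
      rw [h4] at h6
      have h7 : (Q.card : ℝ) = P.card - h.choose s := by
        rw [← h6]; push_cast; ring
      rw [h7, hPc, hρ]
      have : (q * M.choose s : ℝ) * (1 - h.choose s / M.choose s / q) = q * M.choose s - h.choose s := by
        field_simp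
      rw [this]
    have h1q : 0 ≤ 1 - ρ / q := by
      have h8 : ρ ≤ 1 := by
        rw [hρ, div_le_one hNR]
        exact_mod_cast Nat.choose_le_choose s hhM
      have : ρ / q ≤ 1 := by
        rw [div_le_one hq0]; linarith
      linarith
    calc ((Ω.filter (fun ω => ∀ u, G.Adj v u → ¬ ((ω u).1 = z ∧ (ω u).2 ⊆ C))).card : ℝ)
        ≤ ((Fintype.piFinset (fun u => if G.Adj v u then Q else P)).card : ℝ) := by
          exact_mod_cast Finset.card_le_card hsub
      _ ≤ (q * M.choose s : ℝ) ^ n * (1 - ρ / q) ^ (univ.filter (fun u => G.Adj v u)).card := by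
          apply card_pi_le
          · intro u hu
            rw [Finset.mem_filter] at hu
            rw [if_pos hu.2]; exact h3
          · intro u hu
            have hu' : ¬ G.Adj v u := fun h => hu (Finset.mem_filter.2 ⟨Finset.mem_univ _, h⟩)
            rw [if_neg hu', hPc]
      _ ≤ Ω.card * Real.exp (-(d * ρ / q)) := by
          rw [hΩc]
          apply mul_le_mul_of_nonneg_left _ (by positivity)
          calc (1 - ρ / q) ^ (univ.filter (fun u => G.Adj v u)).card ≤ (1 - ρ / q) ^ d := by
                apply pow_le_pow_of_le_one h1q _ (hdeg v)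
                have : 0 ≤ ρ / q := by positivity
                linarith
            _ ≤ (Real.exp (-(ρ / q))) ^ d := by
                apply pow_le_pow_left₀ h1q
                have := Real.add_one_le_exp (-(ρ / q))
                linarith
            _ = Real.exp (-(d * ρ / q)) := by
                rw [← Real.exp_nat_mul]; congr 1; ring
  -- all bad vertices
  set bad : (V → Fin q × Finset (Fin M)) → V → Prop := fun ω v => (ω v).1 = z ∨
    ∃ C : Finset (Fin M), C.card = h ∧ ∀ u, G.Adj v u → ¬ ((ω u).1 = z ∧ (ω u).2 ⊆ C) with hbad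
  have hbadv : ∀ v : V, ((Ω.filter (fun ω => bad ω v)).card : ℝ) ≤ Ω.card * (1 / q + 1 / 4) := by
    intro v
    have hsub : Ω.filter (fun ω => bad ω v) ⊆ (Ω.filter (fun ω => (ω v).1 = z)) ∪
        ((univ : Finset (Fin M)).powersetCard h).biUnion (fun C =>
          Ω.filter (fun ω => ∀ u, G.Adj v u → ¬ ((ω u).1 = z ∧ (ω u).2 ⊆ C))) := by
      intro ω hω
      rw [Finset.mem_filter] at hω
      rw [Finset.mem_union, Finset.mem_biUnion]
      rcases hω.2 with h3 | ⟨C, hC, h3⟩
      · left; exact Finset.mem_filter.2 ⟨hω.1, h3⟩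
      · right
        exact ⟨C, Finset.mem_powersetCard.2 ⟨Finset.subset_univ _, hC⟩,
          Finset.mem_filter.2 ⟨hω.1, h3⟩⟩
    calc ((Ω.filter (fun ω => bad ω v)).card : ℝ)
        ≤ (((Ω.filter (fun ω => (ω v).1 = z)) ∪
        ((univ : Finset (Fin M)).powersetCard h).biUnion (fun C =>
          Ω.filter (fun ω => ∀ u, G.Adj v u → ¬ ((ω u).1 = z ∧ (ω u).2 ⊆ C)))).card : ℝ) := by
          exact_mod_cast Finset.card_le_card hsub
      _ ≤ ((Ω.filter (fun ω => (ω v).1 = z)).card : ℝ) +
          ∑ C ∈ (univ : Finset (Fin M)).powersetCard h, ((Ω.filter (fun ω => ∀ u, G.Adj v u →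
            ¬ ((ω u).1 = z ∧ (ω u).2 ⊆ C))).card : ℝ) := by
          have h3 := Finset.card_union_le (Ω.filter (fun ω => (ω v).1 = z))
            (((univ : Finset (Fin M)).powersetCard h).biUnion (fun C =>
              Ω.filter (fun ω => ∀ u, G.Adj v u → ¬ ((ω u).1 = z ∧ (ω u).2 ⊆ C))))
          have h4 := Finset.card_biUnion_le (s := (univ : Finset (Fin M)).powersetCard h)
            (t := fun C => Ω.filter (fun ω => ∀ u, G.Adj v u → ¬ ((ω u).1 = z ∧ (ω u).2 ⊆ C)))
          have h5 := h3.trans (Nat.add_le_add_left h4 _)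
          exact_mod_cast h5
      _ ≤ Ω.card * (1 / q) + ∑ C ∈ (univ : Finset (Fin M)).powersetCard h,
            Ω.card * Real.exp (-(d * ρ / q)) := by
          apply add_le_add (hB v)
          apply Finset.sum_le_sum
          intro C hC
          exact hE v C (Finset.mem_powersetCard.1 hC).2
      _ = Ω.card * (1 / q) + Ω.card * ((M.choose h : ℝ) * Real.exp (-(d * ρ / q))) := by
          rw [Finset.sum_const, Finset.card_powersetCard]
          simp only [Finset.card_univ, Fintype.card_fin, nsmul_eq_mul]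
          ring
      _ ≤ Ω.card * (1 / q) + Ω.card * (1 / 4) := by
          have := mul_le_mul_of_nonneg_left h2 hΩpos.le
          linarith
      _ = Ω.card * (1 / q + 1 / 4) := by ring
  -- averaging
  have hsum : ∑ ω ∈ Ω, (((univ.filter (bad ω)).card : ℝ) +
      q / 4 * (univ.filter (fun v => (ω v).1 = z)).card) ≤ ∑ ω ∈ Ω, (5 / 8 * n : ℝ) := by
    rw [Finset.sum_add_distrib, ← Finset.mul_sum, swap Ω bad,
      swap Ω (fun ω v => (ω v).1 = z), Finset.sum_const, nsmul_eq_mul]
    have h3 : ∑ v : V, ((Ω.filter (fun ω => bad ω v)).card : ℝ) ≤ n * (Ω.card * (1 / q + 1 / 4)) := by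
      calc _ ≤ ∑ v : V, (Ω.card * (1 / q + 1 / 4) : ℝ) := Finset.sum_le_sum (fun v _ => hbadv v)
        _ = _ := by rw [Finset.sum_const, Finset.card_univ, nsmul_eq_mul]
    have h4 : ∑ v : V, ((Ω.filter (fun ω => (ω v).1 = z)).card : ℝ) ≤ n * (Ω.card * (1 / q)) := by
      calc _ ≤ ∑ v : V, (Ω.card * (1 / q) : ℝ) := Finset.sum_le_sum (fun v _ => hB v)
        _ = _ := by rw [Finset.sum_const, Finset.card_univ, nsmul_eq_mul]
    have h5 : (q / 4 : ℝ) * (n * (Ω.card * (1 / q))) = n * Ω.card / 4 := by field_simp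
    have h6 : (q / 4 : ℝ) * ∑ v : V, ((Ω.filter (fun ω => (ω v).1 = z)).card : ℝ) ≤
        n * Ω.card / 4 := by
      rw [← h5]; exact mul_le_mul_of_nonneg_left h4 (by positivity)
    have h7 : (1 / q : ℝ) ≤ 1 / 8 := by
      apply one_div_le_one_div_of_le (by norm_num) hqR
    have h8 : (n : ℝ) * (Ω.card * (1 / q + 1 / 4)) ≤ n * (Ω.card * (1 / 8 + 1 / 4)) := by
      gcongr
    nlinarith
  obtain ⟨ω, hωΩ, hω⟩ := Finset.exists_le_of_sum_le
    (Finset.card_pos.1 (by exact_mod_cast hΩpos)) hsum
  have hωmem : ∀ v, (ω v).2 ∈ S := by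
    intro v
    have := (Fintype.mem_piFinset.1 hωΩ) v
    exact (Finset.mem_product.1 this).2
  have hcard : ((univ.filter (bad ω)).card : ℝ) +
      (univ.filter (fun v => ¬ bad ω v)).card = n := by
    have := Finset.card_filter_add_card_filter_not (s := (univ : Finset V)) (bad ω)
    rw [Finset.card_univ] at this
    exact_mod_cast this
  have hBn : (0 : ℝ) ≤ ((univ.filter (fun v => (ω v).1 = z)).card : ℝ) := by positivity
  have hbn : (0 : ℝ) ≤ ((univ.filter (bad ω)).card : ℝ) := by positivity
  refine ⟨univ.filter (fun v => (ω v).1 = z), univ.filter (fun v => ¬ bad ω v),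
    fun v => (ω v).2, ?_, ?_, ?_, ?_⟩
  · intro v
    exact (Finset.mem_powersetCard.1 (hωmem v)).2
  · rw [le_div_iff₀ hq0]
    nlinarith
  · have : (0:ℝ) ≤ q / 4 * (univ.filter (fun v => (ω v).1 = z)).card := by positivity
    linarith
  · intro v hv
    have hv2 := (Finset.mem_filter.1 hv).2
    refine ⟨?_, ?_⟩
    · intro hm
      exact hv2 (Or.inl (Finset.mem_filter.1 hm).2)
    · intro C hC
      by_contra hcon
      apply hv2
      right
      refine ⟨C, hC, fun u hu hh => hcon ⟨u, ?_, hu, hh.2⟩⟩
      exact Finset.mem_filter.2 ⟨Finset.mem_univ _, hh.1⟩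

end Pool.Agent.H52.CU
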