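import Pool.Agent.H52.CUA

set_option autoImplicit false

/-! # Alon's theorem: graphs of large minimum degree are not `s`-choosable, second stage -/

namespace Pool.Agent.H52.CU

open Finset Classical

/-- Second stage: lists for the good vertices which no colouring of `B` can be extended to. -/
theorem stage2 {V : Type} [Fintype V] (G : SimpleGraph V) (s h M : ℕ) (hs1 : 1 ≤ s) (hs : s ≤ h)
    (hM : M + 1 = 2 * h) (B Good : Finset V) (β : V → Finset (Fin M)) (hβ : ∀ v, (β v).card = s)
    (hGood : ∀ v ∈ Good, v ∉ B ∧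
      ∀ C : Finset (Fin M), C.card = h → ∃ u ∈ B, G.Adj v u ∧ β u ⊆ C)
    (ρ : ℝ) (hρ : ρ = (h.choose s : ℝ) / (M.choose s : ℝ))
    (hlt : (s : ℝ) ^ B.card * (1 - ρ) ^ Good.card < 1) : ¬ Choosable G s := by
  intro hch
  have hhM : h ≤ M := by omega
  set S : Finset (Finset (Fin M)) := (univ : Finset (Fin M)).powersetCard s with hS
  have hN : S.card = M.choose s := by rw [hS, Finset.card_powersetCard]; simp
  have hNpos : 0 < M.choose s := Nat.choose_pos (hs.trans hhM)
  have hNR : (0 : ℝ) < M.choose s := by exact_mod_cast hNpos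
  have hρ1 : ρ ≤ 1 := by
    rw [hρ, div_le_one hNR]
    exact_mod_cast Nat.choose_le_choose s hhM
  set n := Fintype.card V with hn
  set c0 : Fin M := ⟨0, by omega⟩ with hc0
  set F : Finset (V → Fin M) := Fintype.piFinset (fun v => if v ∈ B then β v else {c0}) with hF
  have hFc : (F.card : ℝ) ≤ (s : ℝ) ^ B.card := by
    have h1 := card_pi_le (fun v => if v ∈ B then β v else {c0}) 1 B (s : ℝ) (by
        intro v hv
        simp only [hv, if_true, one_mul, hβ]
        exact le_refl _) (by
        intro v hv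
        simp only [hv, if_false, Finset.card_singleton, Nat.cast_one]
        exact le_refl _)
    rwa [one_pow, one_mul] at h1
  set A : Finset (V → Finset (Fin M)) := Fintype.piFinset (fun _ : V => S) with hA
  have hAc : (A.card : ℝ) = (M.choose s : ℝ) ^ n := by
    rw [hA, Fintype.card_piFinset, Finset.prod_const, Finset.card_univ, Nat.cast_pow, hN]
  set U : (V → Fin M) → V → Finset (Fin M) := fun f v =>
    (univ.filter (fun u => G.Adj v u ∧ u ∈ B)).image f with hU
  have hUc : ∀ f ∈ F, ∀ v ∈ Good, h ≤ (U f v).card := by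
    intro f hf v hv
    by_contra hlt'
    push Not at hlt'
    have h1 : h ≤ ((U f v)ᶜ).card := by
      rw [Finset.card_compl, Fintype.card_fin]; omega
    obtain ⟨C, hC1, hC2⟩ := Finset.exists_subset_card_eq h1
    obtain ⟨u, hu1, hu2, hu3⟩ := (hGood v hv).2 C hC2
    have h2 : f u ∈ β u := by
      have := (Fintype.mem_piFinset.1 hf) u
      rwa [if_pos hu1] at this
    have h3 : f u ∈ U f v := by
      rw [hU]
      exact Finset.mem_image.2 ⟨u, Finset.mem_filter.2 ⟨Finset.mem_univ _, hu2, hu1⟩, rfl⟩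
    exact (Finset.mem_compl.1 (hC1 (hu3 h2))) h3
  have hf : ∀ f ∈ F, ((A.filter (fun α => ∀ v ∈ Good, ¬ α v ⊆ U f v)).card : ℝ) ≤
      (M.choose s : ℝ) ^ n * (1 - ρ) ^ Good.card := by
    intro f hf
    have hsub : A.filter (fun α => ∀ v ∈ Good, ¬ α v ⊆ U f v) ⊆
        Fintype.piFinset (fun v => if v ∈ Good then S.filter (fun T => ¬ T ⊆ U f v) else S) := by
      intro α hα
      rw [Finset.mem_filter, hA, Fintype.mem_piFinset] at hα
      rw [Fintype.mem_piFinset]
      intro u
      by_cases hu : u ∈ Good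
      · rw [if_pos hu, Finset.mem_filter]
        exact ⟨hα.1 u, hα.2 u hu⟩
      · rw [if_neg hu]; exact hα.1 u
    refine (Nat.cast_le.2 (Finset.card_le_card hsub)).trans ?_
    apply card_pi_le
    · intro v hv
      rw [if_pos hv]
      have h6 := Finset.card_filter_add_card_filter_not (s := S) (fun T => T ⊆ U f v)
      rw [hS, card_sub, ← hS, hN] at h6
      have h7 : h.choose s ≤ (U f v).card.choose s := Nat.choose_le_choose s (hUc f hf v hv)
      have h8 : ((S.filter (fun T => ¬ T ⊆ U f v)).card : ℝ) ≤ M.choose s - h.choose s := by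
        have h9 : (S.filter (fun T => ¬ T ⊆ U f v)).card + h.choose s ≤ M.choose s := by omega
        have : (((S.filter (fun T => ¬ T ⊆ U f v)).card + h.choose s : ℕ) : ℝ) ≤ M.choose s := by
          exact_mod_cast h9
        push_cast at this
        linarith
      rw [hρ]
      have h10 : (M.choose s : ℝ) * (1 - h.choose s / M.choose s) = M.choose s - h.choose s := by
        field_simp
      rw [h10]; exact h8
    · intro v hv
      rw [if_neg hv, hN]
  -- total count
  have hex : ∃ α ∈ A, ∀ f ∈ F, ∃ v ∈ Good, α v ⊆ U f v := by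
    by_contra hcon
    push Not at hcon
    have hsub : A ⊆ F.biUnion (fun f => A.filter (fun α => ∀ v ∈ Good, ¬ α v ⊆ U f v)) := by
      intro α hα
      obtain ⟨f, hf1, hf2⟩ := hcon α hα
      exact Finset.mem_biUnion.2 ⟨f, hf1, Finset.mem_filter.2 ⟨hα, hf2⟩⟩
    have h1 := (Finset.card_le_card hsub).trans Finset.card_biUnion_le
    have h2 : (A.card : ℝ) ≤ ∑ f ∈ F, ((A.filter (fun α => ∀ v ∈ Good, ¬ α v ⊆ U f v)).card : ℝ) := by
      exact_mod_cast h1
    have h3 : ∑ f ∈ F, ((A.filter (fun α => ∀ v ∈ Good, ¬ α v ⊆ U f v)).card : ℝ) ≤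
        F.card * ((M.choose s : ℝ) ^ n * (1 - ρ) ^ Good.card) := by
      calc _ ≤ ∑ f ∈ F, ((M.choose s : ℝ) ^ n * (1 - ρ) ^ Good.card) := Finset.sum_le_sum hf
        _ = _ := by rw [Finset.sum_const, nsmul_eq_mul]
    have h4 : (F.card : ℝ) * ((M.choose s : ℝ) ^ n * (1 - ρ) ^ Good.card) ≤
        (s : ℝ) ^ B.card * ((M.choose s : ℝ) ^ n * (1 - ρ) ^ Good.card) := by
      apply mul_le_mul_of_nonneg_right hFc
      have : 0 ≤ 1 - ρ := by linarith
      positivity
    have h5 : (s : ℝ) ^ B.card * ((M.choose s : ℝ) ^ n * (1 - ρ) ^ Good.card) <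
        (M.choose s : ℝ) ^ n := by
      have h6 : (0 : ℝ) < (M.choose s : ℝ) ^ n := by positivity
      calc (s : ℝ) ^ B.card * ((M.choose s : ℝ) ^ n * (1 - ρ) ^ Good.card)
          = (M.choose s : ℝ) ^ n * ((s : ℝ) ^ B.card * (1 - ρ) ^ Good.card) := by ring
        _ < (M.choose s : ℝ) ^ n * 1 := mul_lt_mul_of_pos_left hlt h6
        _ = _ := mul_one _
    rw [hAc] at h2
    linarith
  obtain ⟨α, hα, hαf⟩ := hex
  have hαc : ∀ v, (α v).card = s := fun v =>
    (Finset.mem_powersetCard.1 ((Fintype.mem_piFinset.1 hα) v)).2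
  obtain ⟨f0, hf1, hf2⟩ := hch (fun v => (if v ∈ B then β v else α v).map Fin.valEmbedding) (by
    intro v
    rw [Finset.card_map]
    split_ifs
    · rw [hβ]
    · rw [hαc])
  have hc : ∀ v, ∃ c : Fin M, c ∈ (if v ∈ B then β v else α v) ∧ (c : ℕ) = f0 v := by
    intro v
    have := hf1 v
    rw [Finset.mem_map] at this
    obtain ⟨c, hc1, hc2⟩ := this
    exact ⟨c, hc1, hc2⟩
  choose c hc1 hc2 using hc
  have hfF : (fun v => if v ∈ B then c v else c0) ∈ F := by
    rw [hF, Fintype.mem_piFinset]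
    intro v
    by_cases hv : v ∈ B
    · have := hc1 v
      simp only [hv, if_true] at this ⊢
      exact this
    · simp only [hv, if_false, Finset.mem_singleton]
  obtain ⟨v, hv, hvU⟩ := hαf _ hfF
  have hvB := (hGood v hv).1
  have h1 : c v ∈ α v := by
    have := hc1 v
    rwa [if_neg hvB] at this
  have h2 := hvU h1
  rw [hU, Finset.mem_image] at h2
  obtain ⟨u, hu, huc⟩ := h2
  rw [Finset.mem_filter] at hu
  have huc' : c u = c v := by
    have := huc
    simp only [hu.2.2, if_true] at this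
    exact this
  apply hf2 v u hu.2.1
  rw [← hc2, ← hc2, huc']

end Pool.Agent.H52.CU
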