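import Pool.Agent.H52.CUB

set_option autoImplicit false

/-! # Minimum degree of `s`-choosable graphs, explicit bound -/

namespace Pool.Agent.H52.CU

open Finset Classical

theorem exp_half_le : Real.exp (1 / 2) ≤ 2 := by
  have h1 : Real.exp (1 / 2) * Real.exp (1 / 2) = Real.exp 1 := by
    rw [← Real.exp_add]; norm_num
  have h2 := Real.exp_one_lt_d9
  have h3 := Real.exp_pos (1 / 2)
  nlinarith

/-- The probability that a random `s`-set of a palette lies in a half of it. -/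
theorem choose_ratio (s : ℕ) (hs : 1 ≤ s) :
    ((2 * s ^ 2 - 1).choose s : ℝ) ≤ 2 ^ (s + 1) * ((s ^ 2).choose s : ℝ) := by
  have hsR : (1 : ℝ) ≤ s := by exact_mod_cast hs
  have hss : s ≤ s ^ 2 := by nlinarith
  have key : ((2 * s ^ 2 - 1).descFactorial s : ℝ) ≤
      2 ^ (s + 1) * ((s ^ 2).descFactorial s : ℝ) := by
    rw [Nat.descFactorial_eq_prod_range, Nat.descFactorial_eq_prod_range]
    push_cast
    have h1 : ∏ i ∈ range s, ((2 * s ^ 2 - 1 - i : ℕ) : ℝ) ≤
        ∏ i ∈ range s, ((2 * (1 + 1 / (2 * s)) : ℝ) * ((s ^ 2 - i : ℕ) : ℝ)) := by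
      apply Finset.prod_le_prod
      · intro i _; positivity
      · intro i hi
        rw [Finset.mem_range] at hi
        have e1 : ((2 * s ^ 2 - 1 - i : ℕ) : ℝ) = 2 * s ^ 2 - 1 - i := by
          rw [Nat.cast_sub (by omega), Nat.cast_sub (by omega)]
          push_cast; ring
        have e2 : ((s ^ 2 - i : ℕ) : ℝ) = s ^ 2 - i := by
          rw [Nat.cast_sub (by omega)]
          push_cast; ring
        rw [e1, e2]
        have hi' : (i : ℝ) + 1 ≤ s := by exact_mod_cast hi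
        have e3 : (2 * (1 + 1 / (2 * s)) : ℝ) * (s ^ 2 - i) = 2 * s ^ 2 - 2 * i + s - i / s := by
          field_simp
          ring
        rw [e3]
        have e4 : (i : ℝ) / s ≤ 1 := by
          rw [div_le_one (by linarith)]; linarith
        linarith
    have h2 : ∏ i ∈ range s, ((2 * (1 + 1 / (2 * s)) : ℝ) * ((s ^ 2 - i : ℕ) : ℝ)) =
        (2 ^ s * (1 + 1 / (2 * s)) ^ s) * ∏ i ∈ range s, ((s ^ 2 - i : ℕ) : ℝ) := by
      rw [Finset.prod_mul_distrib, Finset.prod_const, Finset.card_range, mul_pow]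
    have h3 : ((1 + 1 / (2 * s)) : ℝ) ^ s ≤ 2 := by
      calc ((1 + 1 / (2 * s)) : ℝ) ^ s ≤ (Real.exp (1 / (2 * s))) ^ s := by
            apply pow_le_pow_left₀ (by positivity)
            have := Real.add_one_le_exp (1 / (2 * s : ℝ))
            linarith
        _ = Real.exp (1 / 2) := by
            rw [← Real.exp_nat_mul]
            congr 1
            field_simp
        _ ≤ 2 := exp_half_le
    rw [h2] at h1
    have h4 : (0 : ℝ) ≤ ∏ i ∈ range s, ((s ^ 2 - i : ℕ) : ℝ) :=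
      Finset.prod_nonneg (fun i _ => by positivity)
    calc ∏ i ∈ range s, ((2 * s ^ 2 - 1 - i : ℕ) : ℝ)
        ≤ (2 ^ s * (1 + 1 / (2 * s)) ^ s) * ∏ i ∈ range s, ((s ^ 2 - i : ℕ) : ℝ) := h1
      _ ≤ (2 ^ s * 2) * ∏ i ∈ range s, ((s ^ 2 - i : ℕ) : ℝ) := by gcongr
      _ = 2 ^ (s + 1) * ∏ i ∈ range s, ((s ^ 2 - i : ℕ) : ℝ) := by rw [pow_succ (2 : ℝ) s]
  rw [Nat.descFactorial_eq_factorial_mul_choose, Nat.descFactorial_eq_factorial_mul_choose] at key
  push_cast at key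
  have hf : (0 : ℝ) < (s.factorial : ℝ) := by exact_mod_cast Nat.factorial_pos s
  have : (s.factorial : ℝ) * ((2 * s ^ 2 - 1).choose s : ℝ) ≤
      s.factorial * (2 ^ (s + 1) * ((s ^ 2).choose s : ℝ)) := by linarith
  exact le_of_mul_le_mul_left this hf

/-- A nonempty graph with all degrees at least `84 s³ 4^s` is not `s`-choosable. -/
theorem not_choosable {V : Type} [Fintype V] [Nonempty V] (G : SimpleGraph V) (s : ℕ) (hs : 1 ≤ s)
    (hdeg : ∀ v, 84 * s ^ 3 * 4 ^ s ≤ (univ.filter (fun u => G.Adj v u)).card) :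
    ¬ Choosable G s := by
  have hsR : (1 : ℝ) ≤ s := by exact_mod_cast hs
  set h := s ^ 2 with hh
  set M := 2 * s ^ 2 - 1 with hMdef
  have hss : s ≤ s ^ 2 := by nlinarith
  have hM : M + 1 = 2 * h := by omega
  have hhM : h ≤ M := by omega
  set q := 14 * s * 2 ^ s with hq
  set d := 28 * s * (2 * s ^ 2 + 1) * 4 ^ s with hd
  set ρ : ℝ := (h.choose s : ℝ) / (M.choose s : ℝ) with hρ
  have hNpos : 0 < M.choose s := Nat.choose_pos (hss.trans hhM)
  have hNR : (0 : ℝ) < M.choose s := by exact_mod_cast hNpos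
  have h2s : (0 : ℝ) < 2 ^ s := by positivity
  have hρl : 1 ≤ 2 ^ (s + 1) * ρ := by
    rw [hρ, ← mul_div_assoc, le_div_iff₀ hNR, one_mul]
    exact choose_ratio s hs
  have hρ0 : 0 < ρ := by
    by_contra hcon
    push Not at hcon
    have : 2 ^ (s + 1) * ρ ≤ 0 := mul_nonpos_of_nonneg_of_nonpos (by positivity) hcon
    linarith
  have hqR : (q : ℝ) = 14 * s * 2 ^ s := by rw [hq]; push_cast; ring
  have hdR : (d : ℝ) = 28 * s * (2 * s ^ 2 + 1) * 4 ^ s := by rw [hd]; push_cast; ring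
  have h4 : (4 : ℝ) ^ s = 2 ^ s * 2 ^ s := by rw [← mul_pow]; norm_num
  have hq0 : (0 : ℝ) < q := by rw [hqR]; positivity
  have hqρ : 7 * (s : ℝ) ≤ q * ρ := by
    have : (q : ℝ) * ρ = 7 * s * (2 ^ (s + 1) * ρ) := by rw [hqR, pow_succ]; ring
    rw [this]
    nlinarith
  have hq8 : 8 ≤ q := by
    have : 1 ≤ 2 ^ s := Nat.one_le_two_pow
    nlinarith
  have hdq : 2 * (s : ℝ) ^ 2 + 1 ≤ d * ρ / q := by
    rw [le_div_iff₀ hq0, hdR, hqR, h4]
    have : 28 * (s : ℝ) * (2 * s ^ 2 + 1) * (2 ^ s * 2 ^ s) * ρ =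
        (2 * s ^ 2 + 1) * (14 * s * 2 ^ s) * (2 ^ (s + 1) * ρ) := by rw [pow_succ]; ring
    rw [this]
    have h5 : 0 ≤ (2 * (s : ℝ) ^ 2 + 1) * (14 * s * 2 ^ s) := by positivity
    nlinarith
  have hexp : (M.choose h : ℝ) * Real.exp (-(d * ρ / q)) ≤ 1 / 4 := by
    have e1 : (M.choose h : ℝ) ≤ 2 ^ M := by exact_mod_cast Nat.choose_le_two_pow M h
    have e2 : Real.exp (-(d * ρ / q)) ≤ Real.exp (-((M + 2 : ℕ) : ℝ)) := by
      apply Real.exp_le_exp.2
      have : ((M + 2 : ℕ) : ℝ) = 2 * (s : ℝ) ^ 2 + 1 := by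
        have : M + 2 = 2 * s ^ 2 + 1 := by omega
        rw [this]; push_cast; ring
      rw [this]; linarith
    have e3 : Real.exp (-((M + 2 : ℕ) : ℝ)) ≤ ((2 : ℝ) ^ (M + 2))⁻¹ := by
      rw [Real.exp_neg]
      apply inv_anti₀ (by positivity)
      have : Real.exp ((M + 2 : ℕ) : ℝ) = (Real.exp 1) ^ (M + 2) := by
        rw [← Real.exp_nat_mul]; ring_nf
      rw [this]
      apply pow_le_pow_left₀ (by norm_num)
      have := Real.exp_one_gt_d9
      linarith
    calc (M.choose h : ℝ) * Real.exp (-(d * ρ / q)) ≤ 2 ^ M * ((2 : ℝ) ^ (M + 2))⁻¹ := by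
          apply mul_le_mul e1 (e2.trans e3) (Real.exp_pos _).le (by positivity)
      _ = 1 / 4 := by rw [pow_add]; field_simp; norm_num
  obtain ⟨B, Good, β, hβ, hB, hG, hGood⟩ := stage1 G s h q d M hss hhM hq8 (by
    intro v
    refine le_trans ?_ (hdeg v)
    rw [hd]
    have e1 : 2 * s ^ 2 + 1 ≤ 3 * s ^ 2 := by nlinarith
    calc 28 * s * (2 * s ^ 2 + 1) * 4 ^ s ≤ 28 * s * (3 * s ^ 2) * 4 ^ s := by gcongr
      _ = 84 * s ^ 3 * 4 ^ s := by ring) ρ hρ hexp
  refine stage2 G s h M hs hss hM B Good β hβ hGood ρ hρ ?_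
  have hρ1 : ρ ≤ 1 := by
    rw [hρ, div_le_one hNR]
    exact_mod_cast Nat.choose_le_choose s hhM
  have hn : (1 : ℝ) ≤ Fintype.card V := by exact_mod_cast Fintype.card_pos
  have hlog : Real.log s ≤ s - 1 := Real.log_le_sub_one_of_pos (by linarith)
  have hlog0 : 0 ≤ Real.log s := Real.log_nonneg hsR
  have e1 : (s : ℝ) ^ B.card = Real.exp (B.card * Real.log s) := by
    rw [Real.exp_nat_mul, Real.exp_log (by linarith)]
  have e2 : (1 - ρ) ^ Good.card ≤ Real.exp (-(Good.card * ρ)) := by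
    calc (1 - ρ) ^ Good.card ≤ (Real.exp (-ρ)) ^ Good.card := by
          apply pow_le_pow_left₀ (by linarith)
          have := Real.add_one_le_exp (-ρ)
          linarith
      _ = _ := by rw [← Real.exp_nat_mul]; congr 1; ring
  calc (s : ℝ) ^ B.card * (1 - ρ) ^ Good.card
      ≤ Real.exp (B.card * Real.log s) * Real.exp (-(Good.card * ρ)) := by
        rw [e1]; exact mul_le_mul_of_nonneg_left e2 (Real.exp_pos _).le
    _ = Real.exp (B.card * Real.log s - Good.card * ρ) := by rw [← Real.exp_add]; ring_nf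
    _ < 1 := by
        rw [Real.exp_lt_one_iff]
        have e3 : (B.card : ℝ) * Real.log s ≤ 5 / 2 * Fintype.card V / q * (s - 1) :=
          mul_le_mul hB hlog hlog0 (by positivity)
        have e4 : 3 / 8 * (Fintype.card V : ℝ) * ρ ≤ Good.card * ρ :=
          mul_le_mul_of_nonneg_right hG hρ0.le
        have e5 : 5 / 2 * (Fintype.card V : ℝ) / q * (s - 1) < 3 / 8 * (Fintype.card V : ℝ) * ρ := by
          rw [div_mul_eq_mul_div, div_lt_iff₀ hq0]
          have e6 : 3 / 8 * (Fintype.card V : ℝ) * ρ * q = 3 / 8 * (Fintype.card V : ℝ) * (q * ρ) := by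
            ring
          rw [e6]
          have e7 : 3 / 8 * (Fintype.card V : ℝ) * (7 * s) ≤ 3 / 8 * (Fintype.card V : ℝ) * (q * ρ) := by
            gcongr
          nlinarith
        linarith

end Pool.Agent.H52.CU
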