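import Pool.Agent.H52.PQD

set_option autoImplicit false

/-! # Graphs whose neighbourhoods are disjoint unions of cliques: shortest thin cycles -/

namespace Pool.Agent.H52.DE

open Finset Classical Pool.Agent.H52.PQ

variable {V : Type} {G : SimpleGraph V}

/-- Local conditions. -/
structure LD (G : SimpleGraph V) : Prop where
  nbr : ∀ v, ∃ c, G.Adj v c
  deg : ∀ v a, G.Adj v a → ∃ c, G.Adj v c ∧ c ≠ a ∧ ¬ G.Adj c a
  tr : ∀ v a b c, G.Adj v a → G.Adj v b → G.Adj v c → a ≠ c → G.Adj a b → G.Adj b c → G.Adj a c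

/-- There is a maximal thin path. -/
theorem exists_max [Fintype V] [Nonempty V] (hl : LD G) :
    ∃ (N : ℕ) (P : ℕ → V), TP G N P ∧ 2 ≤ N ∧ ∀ P', ¬ TP G (N + 1) P' := by
  by_contra hcon
  push Not at hcon
  have hall : ∀ k, ∃ P, TP G (2 + k) P := by
    intro k
    induction k with
    | zero =>
      obtain ⟨v⟩ := ‹Nonempty V›
      obtain ⟨c, hc⟩ := hl.nbr v
      refine ⟨fun i => if i = 0 then v else c, ?_, ?_, ?_⟩
      · intro i j hij hj
        have hi : i = 0 := by omega
        have hj' : j = 1 := by omega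
        subst hi; subst hj'
        simpa using hc.ne
      · intro i hi
        have hi : i = 0 := by omega
        subst hi
        simpa using hc
      · intro i hi; omega
    | succ k ih =>
      obtain ⟨P, hP⟩ := ih
      obtain ⟨P', hP'⟩ := hcon (2 + k) P hP (by omega)
      exact ⟨P', hP'⟩
  obtain ⟨P, hP⟩ := hall (Fintype.card V)
  have hinj : Function.Injective (fun i : Fin (2 + Fintype.card V) => P i) := by
    intro i j hij
    by_contra hne
    have hne' : (i : ℕ) ≠ j := fun h => hne (Fin.ext h)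
    rcases lt_or_gt_of_ne hne' with h1 | h1
    · exact hP.inj i j h1 j.2 hij
    · exact hP.inj j i h1 i.2 hij.symm
  have := Fintype.card_le_of_injective _ hinj
  rw [Fintype.card_fin] at this
  omega

/-- There is a thin cycle. -/
theorem first_tc (hl : LD G) {N : ℕ} {P : ℕ → V} (h : TP G N P) (hN : 2 ≤ N)
    (hmax : ∀ P', ¬ TP G (N + 1) P') : ∃ (n : ℕ) (f : ℤ → V), TC G n f := by
  have h01 : G.Adj (P 0) (P 1) := h.adj 0 (by omega)
  obtain ⟨w, hw, hw1, hw2⟩ := hl.deg (P 0) (P 1) h01
  have hwP : ∃ i < N, w = P i := by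
    by_contra hcon
    push Not at hcon
    exact hmax _ (h.cons (by omega) hcon hw.symm (fun _ => hw2))
  obtain ⟨i, hi, rfl⟩ := hwP
  have hi0 : i ≠ 0 := by rintro rfl; exact hw.ne rfl
  have hi1 : i ≠ 1 := by rintro rfl; exact hw1 rfl
  have hi2 : i ≠ 2 := by rintro rfl; exact h.thin 0 (by omega) hw
  obtain ⟨r, hr3, hrN, hr0, hr1, hr2⟩ : ∃ r, 3 ≤ r ∧ r < N ∧ G.Adj (P r) (P 0) ∧
      ¬ G.Adj (P (r - 1)) (P 0) ∧ ¬ G.Adj (P r) (P 1) := by
    by_cases hc : G.Adj (P (i - 1)) (P 0)
    · have hi3 : i ≠ 3 := by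
        rintro rfl
        exact h.thin 0 (by omega) hc.symm
      have hii : G.Adj (P (i - 1)) (P i) := by
        have := h.adj (i - 1) (by omega)
        have e : i - 1 + 1 = i := by omega
        rwa [e] at this
      have hii2 : G.Adj (P (i - 1)) (P (i - 1 - 1)) := by
        have := h.adj (i - 1 - 1) (by omega)
        have e : i - 1 - 1 + 1 = i - 1 := by omega
        rw [e] at this
        exact this.symm
      refine ⟨i - 1, by omega, by omega, hc, ?_, ?_⟩
      · intro hc2
        have h3 := hl.tr (P (i - 1)) (P i) (P 0) (P (i - 1 - 1)) hii hc hii2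
          (h.inj (i - 1 - 1) i (by omega) hi).symm hw.symm hc2.symm
        have h4 := h.thin (i - 1 - 1) (by omega)
        have e : i - 1 - 1 + 2 = i := by omega
        rw [e] at h4
        exact h4 h3.symm
      · intro hc2
        exact hw2 (hl.tr (P 0) (P i) (P (i - 1)) (P 1) hw hc.symm h01
          (h.inj 1 i (by omega) hi).symm hii.symm hc2)
    · exact ⟨i, by omega, hi, hw.symm, hc, hw2⟩
  obtain ⟨f, hf, -⟩ := mkTC (G := G) P (r + 1) (by omega)
    (fun a b hab hb => h.inj a b hab (by omega)) (fun a ha => h.adj a (by omega))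
    (by rw [Nat.add_sub_cancel]; exact hr0) (fun a ha => h.thin a (by omega))
    (by
      have : r + 1 - 2 = r - 1 := by omega
      rw [this]; exact hr1)
    (by rw [Nat.add_sub_cancel]; exact hr2)
  exact ⟨r + 1, f, hf⟩

theorem four {n : ℕ} {f : ℤ → V} (h : TC G n f) : 4 ≤ n := by
  have h3 := h.three
  by_contra hcon
  have h34 : n = 3 := by omega
  subst h34
  have h1 := h.adj 2
  have h2 := h.per 0
  norm_num at h1 h2
  rw [h2] at h1
  exact h.thin 0 (by simpa using h1.symm)

/-- A shortest thin cycle has no chords. -/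
theorem chordless {n : ℕ} {f : ℤ → V} (h : TC G n f)
    (hmin : ∀ (m : ℕ) (g : ℤ → V), TC G m g → n ≤ m) :
    ∀ d : ℕ, 2 ≤ d → d + 2 ≤ n → ∀ i : ℤ, ¬ G.Adj (f i) (f (i + d)) := by
  intro d
  induction d using Nat.strong_induction_on with
  | _ d ih =>
    intro hd2 hdn i hadj
    by_cases hd : d = 2
    · subst hd
      exact h.thin i (by exact_mod_cast hadj)
    · obtain ⟨g, hg, -⟩ := h.sub i d (by omega) (by omega) hadj.symm
        (by
          intro h5
          apply ih (d - 1) (by omega) (by omega) (by omega) i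
          have e : i + ((d - 1 : ℕ) : ℤ) = i + d - 1 := by omega
          rw [e]; exact h5.symm)
        (by
          intro h5
          apply ih (d - 1) (by omega) (by omega) (by omega) (i + 1)
          have e : i + 1 + ((d - 1 : ℕ) : ℤ) = i + d := by omega
          rw [e]; exact h5.symm)
      have := hmin _ g hg
      omega

/-- Apices are outside a shortest thin cycle. -/
theorem out {n : ℕ} {f : ℤ → V} (h : TC G n f)
    (hmin : ∀ (m : ℕ) (g : ℤ → V), TC G m g → n ≤ m) (z : V) (i : ℤ) (h1 : G.Adj z (f i))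
    (h2 : G.Adj z (f (i + 1))) (k0 : ℤ) : z ≠ f k0 := by
  intro hk0
  have hn4 := four h
  obtain ⟨k, hk1, hk2, hk3⟩ := h.rep i k0
  rw [← hk3] at hk0
  subst hk0
  have e0 : k ≠ i := by rintro rfl; exact h1.ne rfl
  have e1 : k ≠ i + 1 := by rintro rfl; exact h2.ne rfl
  have e4 : k ≠ i + n - 1 := by
    rintro rfl
    have e : f (i + n - 1) = f (i - 1) := by rw [← h.per (i - 1)]; congr 1; ring
    rw [e] at h2
    exact h.thin' (i := i - 1) (j := i + 1) (by ring) h2
  obtain ⟨d, hd⟩ : ∃ d : ℕ, k = i + d := ⟨(k - i).toNat, by omega⟩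
  subst hd
  exact chordless h hmin d (by omega) (by omega) i h1.symm

/-- No vertex is an apex of two edges of a shortest thin cycle. -/
theorem nd (hl : LD G) {n : ℕ} {f : ℤ → V} (h : TC G n f)
    (hmin : ∀ (m : ℕ) (g : ℤ → V), TC G m g → n ≤ m) (z : V) (i j : ℤ)
    (h1 : G.Adj z (f i)) (h2 : G.Adj z (f (i + 1))) (h3 : G.Adj z (f j))
    (h4 : G.Adj z (f (j + 1))) (hij : i < j) (hji : j < i + n) : False := by
  have hn4 := four h
  have hz := out h hmin z i h1 h2
  have c1 : j ≠ i + 1 := by
    rintro rfl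
    have := hl.tr (f (i + 1)) (f i) z (f (i + 1 + 1)) (h.adj i).symm h2.symm (h.adj _)
      (h.inj _ _ (by omega) (by omega)) h1.symm h4
    exact h.thin' (i := i) (j := i + 1 + 1) (by ring) this
  have c2 : j ≠ i + 2 := by
    rintro rfl
    exact h.thin i (hl.tr z (f i) (f (i + 1)) (f (i + 2)) h1 h2 h3
      (h.inj _ _ (by omega) (by omega)) (h.adj i) (h.adj' (by ring)))
  have c3 : j ≠ i + n - 1 := by
    rintro rfl
    have e1 : f (i + n - 1) = f (i - 1) := by rw [← h.per (i - 1)]; congr 1; ring
    rw [e1] at h3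
    exact h.thin' (i := i - 1) (j := i + 1) (by ring) (hl.tr (f i) (f (i - 1)) z (f (i + 1))
      (h.adj' (by ring)).symm h1.symm (h.adj i) (h.inj _ _ (by omega) (by omega)) h3.symm h2)
  obtain ⟨d, hd⟩ : ∃ d : ℕ, j = i + d := ⟨(j - i).toNat, by omega⟩
  subst hd
  have hd3 : 3 ≤ d := by omega
  set s : ℕ → V := fun k => if k < d then f (i + 1 + k) else z with hs
  have s1 : ∀ k, k < d → s k = f (i + 1 + k) := fun k hk => by simp only [hs, hk, if_true]
  have s2 : s d = z := by simp only [hs, lt_irrefl, if_false]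
  obtain ⟨g, hg, -⟩ := mkTC (G := G) s (d + 1) (by omega)
    (by
      intro a b hab hb
      by_cases hbd : b < d
      · rw [s1 a (by omega), s1 b hbd]
        exact h.inj _ _ (by omega) (by omega)
      · have : b = d := by omega
        subst this
        rw [s1 a (by omega), s2]
        exact (hz _).symm)
    (by
      intro a ha
      by_cases had : a + 1 < d
      · rw [s1 a (by omega), s1 (a + 1) had]
        exact h.adj' (by push_cast; ring)
      · have : a + 1 = d := by omega
        rw [s1 a (by omega), this, s2]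
        have e : i + 1 + (a : ℤ) = i + d := by omega
        rw [e]; exact h3.symm)
    (by
      rw [Nat.add_sub_cancel, s2, s1 0 (by omega)]
      simpa using h2)
    (by
      intro a ha
      by_cases had : a + 2 < d
      · rw [s1 a (by omega), s1 (a + 2) had]
        exact h.thin' (by push_cast; ring)
      · have : a + 2 = d := by omega
        rw [s1 a (by omega), this, s2]
        intro hadj
        have e : i + 1 + (a : ℤ) = i + d - 1 := by omega
        rw [e] at hadj
        have h5 := hl.tr (f (i + d)) (f (i + d + 1)) z (f (i + d - 1))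
          (h.adj _) h3.symm (h.adj' (by ring)).symm
          (h.inj (i + d - 1) (i + d + 1) (by omega) (by omega)).symm h4.symm hadj.symm
        exact h.thin' (i := i + d - 1) (j := i + d + 1) (by ring) h5.symm)
    (by
      have : d + 1 - 2 = d - 1 := by omega
      rw [this, s1 (d - 1) (by omega), s1 0 (by omega)]
      intro hadj
      apply chordless h hmin (d - 1) (by omega) (by omega) (i + 1)
      simpa using hadj.symm)
    (by
      rw [Nat.add_sub_cancel, s2, s1 1 (by omega)]
      intro hadj
      have e : i + 1 + ((1 : ℕ) : ℤ) = i + 2 := by push_cast; ring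
      rw [e] at hadj
      exact h.thin i (hl.tr (f (i + 1)) (f i) z (f (i + 2)) (h.adj i).symm h2.symm
        (h.adj' (by ring)) (h.inj _ _ (by omega) (by omega)) h1.symm hadj))
  have := hmin _ g hg
  omega

/-- There is a shortest thin cycle. -/
theorem shortest [Fintype V] [Nonempty V] (hl : LD G) :
    ∃ (n : ℕ) (f : ℤ → V), TC G n f ∧ ∀ (m : ℕ) (g : ℤ → V), TC G m g → n ≤ m := by
  obtain ⟨N, P, h, hN2, hmax⟩ := exists_max hl
  have hex := first_tc hl h hN2 hmax
  obtain ⟨f, hf⟩ := Nat.find_spec hex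
  exact ⟨_, f, hf, fun m g hg => Nat.find_min' hex ⟨g, hg⟩⟩

end Pool.Agent.H52.DE
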