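import Pool.Agent.H52.DEA

set_option autoImplicit false

/-! # Inflating paths by cliques -/

namespace Pool.Agent.H52.DE

open Finset Classical Pool.Agent.H52.PQ

variable {V : Type} {G : SimpleGraph V}

/-- Inflating a path by cliques. -/
theorem inflate2 (f : ℕ → V) (A : ℕ → Finset V) (m : ℕ)
    (hadj : ∀ i < m, G.Adj (f i) (f (i + 1))) (hf : ∀ i j, i < j → j ≤ m → f i ≠ f j)
    (hA1 : ∀ i < m, ∀ a ∈ A i, G.Adj a (f i) ∧ G.Adj a (f (i + 1)))
    (hA2 : ∀ i < m, ∀ a ∈ A i, ∀ b ∈ A i, a ≠ b → G.Adj a b)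
    (hAf : ∀ i < m, ∀ a ∈ A i, ∀ j ≤ m, a ≠ f j)
    (hAA : ∀ i j, i < j → j < m → ∀ a ∈ A i, a ∉ A j) :
    ∀ k ≤ m, ∀ t ≤ ∑ i ∈ range k, (A i).card, ∃ p : G.Walk (f k) (f 0), p.IsPath ∧
      p.length = k + t ∧ ∀ v ∈ p.support, (∃ j ≤ k, v = f j) ∨ (∃ j < k, v ∈ A j) := by
  intro k
  induction k with
  | zero =>
    intro _ t ht
    simp only [range_zero, sum_empty, nonpos_iff_eq_zero] at ht
    subst ht
    refine ⟨SimpleGraph.Walk.nil, SimpleGraph.Walk.IsPath.nil, rfl, ?_⟩
    intro v hv
    simp only [SimpleGraph.Walk.support_nil, List.mem_singleton] at hv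
    exact Or.inl ⟨0, le_refl _, hv⟩
  | succ k ih =>
    intro hk t ht
    have hkm : k < m := by omega
    rw [Finset.sum_range_succ] at ht
    obtain ⟨t', s, htt, ht', hs⟩ : ∃ t' s, t = t' + s ∧ t' ≤ ∑ i ∈ range k, (A i).card ∧
        s ≤ (A k).card := by
      by_cases h : t ≤ ∑ i ∈ range k, (A i).card
      · exact ⟨t, 0, by omega, h, by omega⟩
      · exact ⟨∑ i ∈ range k, (A i).card, t - ∑ i ∈ range k, (A i).card, by omega, le_refl _,
          by omega⟩
    obtain ⟨p, hp1, hp2, hp3⟩ := ih (by omega) t' ht'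
    have hAp : ∀ a ∈ A k, a ∉ p.support := by
      intro a ha hmem
      rcases hp3 _ hmem with ⟨j, hj, he⟩ | ⟨j, hj, he⟩
      · exact hAf k hkm a ha j (by omega) he
      · exact hAA j k hj hkm a he ha
    have hfp : f (k + 1) ∉ p.support := by
      intro hmem
      rcases hp3 _ hmem with ⟨j, hj, he⟩ | ⟨j, hj, he⟩
      · exact hf j (k + 1) (by omega) hk he.symm
      · exact hAf j (by omega) _ he (k + 1) hk rfl
    have inner : ∀ B : Finset V, B ⊆ A k → ∃ (x : V) (q : G.Walk x (f 0)), q.IsPath ∧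
        q.length = k + t' + B.card ∧ (∀ v ∈ q.support, v ∈ p.support ∨ v ∈ B) ∧
        (x = f k ∨ x ∈ B) := by
      intro B
      induction B using Finset.induction_on with
      | empty =>
        intro _
        exact ⟨f k, p, hp1, by rw [hp2, Finset.card_empty, add_zero], fun v hv => Or.inl hv,
          Or.inl rfl⟩
      | insert a B haB ihB =>
        intro hB
        obtain ⟨x, q, hq1, hq2, hq3, hq4⟩ := ihB ((Finset.subset_insert a B).trans hB)
        have haA : a ∈ A k := hB (Finset.mem_insert_self a B)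
        have hax : G.Adj a x := by
          rcases hq4 with rfl | hx
          · exact (hA1 k hkm a haA).1
          · exact hA2 k hkm a haA x (hB (Finset.mem_insert_of_mem hx))
              (fun h => haB (h ▸ hx))
        refine ⟨a, SimpleGraph.Walk.cons hax q, ?_, ?_, ?_, Or.inr (Finset.mem_insert_self a B)⟩
        · rw [SimpleGraph.Walk.cons_isPath_iff]
          refine ⟨hq1, fun hmem => ?_⟩
          rcases hq3 a hmem with h | h
          · exact hAp a haA h
          · exact haB h
        · rw [SimpleGraph.Walk.length_cons, hq2, Finset.card_insert_of_notMem haB]; omega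
        · intro v hv
          rw [SimpleGraph.Walk.support_cons, List.mem_cons] at hv
          rcases hv with rfl | hv
          · exact Or.inr (Finset.mem_insert_self _ B)
          · rcases hq3 v hv with h | h
            · exact Or.inl h
            · exact Or.inr (Finset.mem_insert_of_mem h)
    obtain ⟨B, hB1, hB2⟩ := Finset.exists_subset_card_eq hs
    obtain ⟨x, q, hq1, hq2, hq3, hq4⟩ := inner B hB1
    have hfx : G.Adj (f (k + 1)) x := by
      rcases hq4 with rfl | hx
      · exact (hadj k hkm).symm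
      · exact (hA1 k hkm x (hB1 hx)).2.symm
    refine ⟨SimpleGraph.Walk.cons hfx q, ?_, ?_, ?_⟩
    · rw [SimpleGraph.Walk.cons_isPath_iff]
      refine ⟨hq1, fun hmem => ?_⟩
      rcases hq3 _ hmem with h | h
      · exact hfp h
      · exact hAf k hkm _ (hB1 h) (k + 1) hk rfl
    · rw [SimpleGraph.Walk.length_cons, hq2, hB2]; omega
    · intro v hv
      rw [SimpleGraph.Walk.support_cons, List.mem_cons] at hv
      rcases hv with rfl | hv
      · exact Or.inl ⟨k + 1, le_refl _, rfl⟩
      · rcases hq3 v hv with h | h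
        · rcases hp3 _ h with ⟨j, hj, he⟩ | ⟨j, hj, he⟩
          · exact Or.inl ⟨j, by omega, he⟩
          · exact Or.inr ⟨j, by omega, he⟩
        · exact Or.inr ⟨k, by omega, hB1 h⟩

/-- Cycles from sequences. -/
theorem cyc_of_seq (g : ℕ → V) (n : ℕ) (hn : 3 ≤ n) (hinj : ∀ a b, a < b → b < n → g a ≠ g b)
    (hadj : ∀ a, a + 1 < n → G.Adj (g a) (g (a + 1))) (hcl : G.Adj (g (n - 1)) (g 0)) :
    ∃ (v : V) (p : G.Walk v v), p.IsCycle ∧ p.length = n := by
  obtain ⟨p, hp1, hp2, -⟩ := inflate2 (G := G) g (fun _ => ∅) (n - 1)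
    (fun i hi => hadj i (by omega)) (fun i j hij hj => hinj i j hij (by omega))
    (by simp) (by simp) (by simp) (by simp) (n - 1) (le_refl _) 0 (Nat.zero_le _)
  refine ⟨_, SimpleGraph.Walk.cons hcl.symm p, close_cycle p hp1 (by rw [hp2]; omega) hcl.symm, ?_⟩
  rw [SimpleGraph.Walk.length_cons, hp2]; omega

/-- Paths in the neighbourhood of `v`. -/
structure NP (G : SimpleGraph V) (v : V) (j : ℕ) (p : ℕ → V) : Prop where
  inj : ∀ a b, a < b → b < j → p a ≠ p b
  adj : ∀ a, a + 1 < j → G.Adj (p a) (p (a + 1))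
  nb : ∀ a, a < j → G.Adj v (p a)

/-- A path in the neighbourhood gives a cycle. -/
theorem NP.cycle {v : V} {j : ℕ} {p : ℕ → V} (h : NP G v j p) (hj : 2 ≤ j) :
    ∃ (v : V) (p : G.Walk v v), p.IsCycle ∧ p.length = j + 1 := by
  apply cyc_of_seq (cons v p) (j + 1) (by omega)
  · intro a b hab hb
    obtain ⟨b, rfl⟩ : ∃ b', b = b' + 1 := ⟨b - 1, by omega⟩
    rw [cons_succ]
    rcases a with _ | a
    · rw [cons_zero]; exact (h.nb b (by omega)).ne
    · rw [cons_succ]; exact h.inj a b (by omega) (by omega)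
  · intro a ha
    rcases a with _ | a
    · rw [cons_zero, cons_succ]; exact h.nb 0 (by omega)
    · rw [cons_succ, cons_succ]; exact h.adj a (by omega)
  · rw [Nat.add_sub_cancel]
    obtain ⟨i, rfl⟩ : ∃ i, j = i + 1 := ⟨j - 1, by omega⟩
    rw [cons_succ, cons_zero]
    exact (h.nb i (by omega)).symm

/-- A clique in the neighbourhood gives a path. -/
theorem np_of_clique {v : V} (S : Finset V) (hS : ∀ a ∈ S, G.Adj v a)
    (hcl : ∀ a ∈ S, ∀ b ∈ S, a ≠ b → G.Adj a b) (j : ℕ) (hj : j ≤ S.card) :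
    ∃ p, NP G v j p := by
  refine ⟨fun i => if h : i < S.card then (S.equivFin.symm ⟨i, h⟩ : V) else v, ?_, ?_, ?_⟩
  · intro a b hab hb heq
    have ha' : a < S.card := by omega
    have hb' : b < S.card := by omega
    simp only [ha', hb', dif_pos] at heq
    have h1 := S.equivFin.symm.injective (Subtype.ext heq)
    rw [Fin.mk.injEq] at h1
    omega
  · intro a ha
    have ha' : a < S.card := by omega
    have hb' : a + 1 < S.card := by omega
    simp only [ha', hb', dif_pos]
    apply hcl _ (S.equivFin.symm _).2 _ (S.equivFin.symm _).2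
    intro heq
    have h1 := S.equivFin.symm.injective (Subtype.ext heq)
    rw [Fin.mk.injEq] at h1
    omega
  · intro a ha
    have ha' : a < S.card := by omega
    simp only [ha', dif_pos]
    exact hS _ (S.equivFin.symm _).2

theorem sum_pairs (a : ℕ → ℕ) (c : ℕ) (h : ∀ i, c ≤ a i + a (i + 1)) :
    ∀ m, m / 2 * c ≤ ∑ i ∈ range m, a i := by
  intro m
  induction m using Nat.strong_induction_on with
  | _ m ih =>
    by_cases hm : m < 2
    · have : m / 2 = 0 := by omega
      rw [this]; simp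
    · obtain ⟨r, rfl⟩ : ∃ r, m = r + 2 := ⟨m - 2, by omega⟩
      rw [Finset.sum_range_succ, Finset.sum_range_succ]
      have h1 := ih r (by omega)
      have h2 := h r
      have h3 : (r + 2) / 2 = r / 2 + 1 := by omega
      rw [h3]
      have h4 : (r / 2 + 1) * c = r / 2 * c + c := by ring
      rw [h4]
      omega

end Pool.Agent.H52.DE
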