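import Pool.Agent.H52.DEB

set_option autoImplicit false

/-! # Dean's question for claw-free graphs -/

namespace Pool.Agent.H52.DE

open Finset Classical Pool.Agent.H52.PQ

variable {V : Type} {G : SimpleGraph V}

/-- No vertex has three pairwise non-adjacent neighbours. -/
def Claw (G : SimpleGraph V) : Prop :=
  ∀ v a b c : V, G.Adj v a → G.Adj v b → G.Adj v c → a ≠ b → a ≠ c → b ≠ c →
    G.Adj a b ∨ G.Adj a c ∨ G.Adj b c

theorem NP.cons {v : V} {j : ℕ} {p : ℕ → V} (h : NP G v j p) (hj : 0 < j) {x : V}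
    (hx : ∀ i < j, x ≠ p i) (hv : G.Adj v x) (hadj : G.Adj x (p 0)) :
    NP G v (j + 1) (cons x p) := by
  refine ⟨?_, ?_, ?_⟩
  · intro a b hab hb
    obtain ⟨b, rfl⟩ : ∃ b', b = b' + 1 := ⟨b - 1, by omega⟩
    rw [cons_succ]
    rcases a with _ | a
    · rw [cons_zero]; exact hx b (by omega)
    · rw [cons_succ]; exact h.inj a b (by omega) (by omega)
  · intro a ha
    rcases a with _ | a
    · rw [cons_zero, cons_succ]; exact hadj
    · rw [cons_succ, cons_succ]; exact h.adj a (by omega)
  · intro a ha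
    rcases a with _ | a
    · rw [cons_zero]; exact hv
    · rw [cons_succ]; exact h.nb a (by omega)

theorem NP.rev {v : V} {j : ℕ} {p : ℕ → V} (h : NP G v j p) :
    NP G v j (fun i => p (j - 1 - i)) := by
  refine ⟨?_, ?_, ?_⟩
  · intro a b hab hb
    exact (h.inj (j - 1 - b) (j - 1 - a) (by omega) (by omega)).symm
  · intro a ha
    have := h.adj (j - 1 - (a + 1)) (by omega)
    have e : j - 1 - (a + 1) + 1 = j - 1 - a := by omega
    rw [e] at this
    exact this.symm
  · intro a ha
    exact h.nb _ (by omega)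

theorem NP.rot {v : V} {j : ℕ} {p : ℕ → V} (h : NP G v j p) (hcl : G.Adj (p (j - 1)) (p 0))
    (i : ℕ) (hi : i < j) :
    NP G v j (fun t => if i + t < j then p (i + t) else p (i + t - j)) := by
  refine ⟨?_, ?_, ?_⟩
  · intro a b hab hb
    by_cases h1 : i + b < j
    · have h2 : i + a < j := by omega
      simp only [h1, h2, if_true]
      exact h.inj _ _ (by omega) (by omega)
    · by_cases h2 : i + a < j
      · simp only [h1, h2, if_true, if_false]
        exact (h.inj _ _ (by omega) (by omega)).symm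
      · simp only [h1, h2, if_false]
        exact h.inj _ _ (by omega) (by omega)
  · intro a ha
    by_cases h1 : i + (a + 1) < j
    · have h2 : i + a < j := by omega
      simp only [h1, h2, if_true]
      exact h.adj (i + a) (by omega)
    · by_cases h2 : i + a < j
      · simp only [h1, h2, if_true, if_false]
        have e1 : i + a = j - 1 := by omega
        have e2 : i + (a + 1) - j = 0 := by omega
        rw [e1, e2]; exact hcl
      · simp only [h1, h2, if_false]
        have e2 : i + (a + 1) - j = i + a - j + 1 := by omega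
        rw [e2]; exact h.adj (i + a - j) (by omega)
  · intro a ha
    by_cases h1 : i + a < j
    · simp only [h1, if_true]; exact h.nb _ h1
    · simp only [h1, if_false]; exact h.nb _ (by omega)

/-- Without long paths, adjacency in the neighbourhoods is transitive. -/
theorem tr_of (hc : Claw G) {k : ℕ} (hk : 4 ≤ k) (v : V) (S : Finset V)
    (hS : ∀ a, a ∈ S ↔ G.Adj v a) (hcard : k - 1 ≤ S.card) (hno : ∀ p, ¬ NP G v (k - 1) p)
    (a b c : V) (ha : G.Adj v a) (hb : G.Adj v b) (hc' : G.Adj v c) (hac : a ≠ c)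
    (hab : G.Adj a b) (hbc : G.Adj b c) : G.Adj a c := by
  obtain ⟨j, p, hj3, hp, hmax⟩ : ∃ (j : ℕ) (p : ℕ → V), 3 ≤ j ∧ NP G v j p ∧
      ∀ p', ¬ NP G v (j + 1) p' := by
    by_contra hcon
    push Not at hcon
    have hall : ∀ r, ∃ p, NP G v (3 + r) p := by
      intro r
      induction r with
      | zero =>
        refine ⟨fun i => if i = 0 then a else if i = 1 then b else c, ?_, ?_, ?_⟩
        · intro x y hxy hy
          have hcases : (x = 0 ∧ y = 1) ∨ (x = 0 ∧ y = 2) ∨ (x = 1 ∧ y = 2) := by omega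
          rcases hcases with ⟨rfl, rfl⟩ | ⟨rfl, rfl⟩ | ⟨rfl, rfl⟩
          · simpa using hab.ne
          · simpa using hac
          · simpa using hbc.ne
        · intro x hx
          have hcases : x = 0 ∨ x = 1 := by omega
          rcases hcases with rfl | rfl
          · simpa using hab
          · simpa using hbc
        · intro x hx
          have hcases : x = 0 ∨ x = 1 ∨ x = 2 := by omega
          rcases hcases with rfl | rfl | rfl
          · simpa using ha
          · simpa using hb
          · simpa using hc'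
      | succ r ih =>
        obtain ⟨p, hp⟩ := ih
        obtain ⟨p', hp'⟩ := hcon (3 + r) p (by omega) hp
        exact ⟨p', hp'⟩
    obtain ⟨p, hp⟩ := hall (k - 1 - 3)
    have e : 3 + (k - 1 - 3) = k - 1 := by omega
    rw [e] at hp
    exact hno p hp
  have hjk : j < k - 1 := by
    by_contra hge
    apply hno p
    exact ⟨fun a b hab hb => hp.inj a b hab (by omega), fun a ha => hp.adj a (by omega),
      fun a ha => hp.nb a (by omega)⟩
  set P : Finset V := (range j).image p with hP
  have memP : ∀ i, i < j → p i ∈ P := fun i hi =>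
    Finset.mem_image.2 ⟨i, Finset.mem_range.2 hi, rfl⟩
  have neP : ∀ x, x ∉ P → ∀ i < j, x ≠ p i := by
    intro x hx i hi heq
    exact hx (heq ▸ memP i hi)
  have h0 : ∀ x ∈ S, x ∉ P → ¬ G.Adj x (p 0) := by
    intro x hx hxP hadj
    exact hmax _ (hp.cons (by omega) (neP x hxP) ((hS x).1 hx) hadj)
  have hlast : ∀ x ∈ S, x ∉ P → ¬ G.Adj x (p (j - 1)) := by
    intro x hx hxP hadj
    exact hmax _ (hp.rev.cons (by omega) (fun i hi => neP x hxP _ (by omega)) ((hS x).1 hx)
      (by simpa using hadj))
  have hPc : P.card ≤ j := by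
    have := Finset.card_image_le (s := range j) (f := p)
    rwa [Finset.card_range] at this
  obtain ⟨x, hxS, hxP⟩ := Finset.exists_mem_notMem_of_card_lt_card
    (show P.card < S.card by omega)
  have hcyc : G.Adj (p (j - 1)) (p 0) := by
    rcases hc v x (p 0) (p (j - 1)) ((hS x).1 hxS) (hp.nb 0 (by omega)) (hp.nb (j - 1) (by omega))
      (neP x hxP 0 (by omega)) (neP x hxP (j - 1) (by omega))
      (hp.inj 0 (j - 1) (by omega) (by omega)) with h | h | h
    · exact absurd h (h0 x hxS hxP)
    · exact absurd h (hlast x hxS hxP)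
    · exact h.symm
  have hrot : ∀ x ∈ S, x ∉ P → ∀ i < j, ¬ G.Adj x (p i) := by
    intro x hx hxP i hi hadj
    refine hmax _ ((hp.rot hcyc i hi).cons (x := x) (by omega) ?_ ((hS x).1 hx) ?_)
    · intro t ht
      by_cases h1 : i + t < j
      · simp only [h1, if_true]; exact neP x hxP _ h1
      · simp only [h1, if_false]; exact neP x hxP _ (by omega)
    · have h1 : i + 0 < j := by omega
      simp only [h1, if_true]
      rw [add_zero]; exact hadj
  have hrot' : ∀ x ∈ S, x ∉ P → ∀ y ∈ P, ¬ G.Adj x y := by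
    intro x hx hxP y hy
    rw [hP, Finset.mem_image] at hy
    obtain ⟨i, hi, rfl⟩ := hy
    exact hrot x hx hxP i (Finset.mem_range.1 hi)
  have nbP : ∀ y ∈ P, G.Adj v y := by
    intro y hy
    rw [hP, Finset.mem_image] at hy
    obtain ⟨i, hi, rfl⟩ := hy
    exact hp.nb i (Finset.mem_range.1 hi)
  by_cases hbP : b ∈ P
  · have haP : a ∈ P := by
      by_contra haP
      exact hrot' a ((hS a).2 ha) haP b hbP hab
    have hcP : c ∈ P := by
      by_contra hcP
      exact hrot' c ((hS c).2 hc') hcP b hbP hbc.symm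
    rcases hc v x a c ((hS x).1 hxS) ha hc' (fun h => hxP (h ▸ haP)) (fun h => hxP (h ▸ hcP)) hac
      with h | h | h
    · exact absurd h (hrot' x hxS hxP a haP)
    · exact absurd h (hrot' x hxS hxP c hcP)
    · exact h
  · have haP : a ∉ P := fun haP => hrot' b ((hS b).2 hb) hbP a haP hab.symm
    have hcP : c ∉ P := fun hcP => hrot' b ((hS b).2 hb) hbP c hcP hbc
    have hp0 : p 0 ∈ P := memP 0 (by omega)
    rcases hc v a c (p 0) ha hc' (nbP _ hp0) hac (fun h => haP (h ▸ hp0)) (fun h => hcP (h ▸ hp0))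
      with h | h | h
    · exact h
    · exact absurd h (hrot' a ((hS a).2 ha) haP _ hp0)
    · exact absurd h (hrot' c ((hS c).2 hc') hcP _ hp0)

/-- Claw-free graphs of minimum degree at least `k - 1`, `k ≥ 5`, contain a cycle of length `k` or
cycles of `k` consecutive lengths. -/
theorem main_dean [Fintype V] [Nonempty V] (hc : Claw G) (k : ℕ) (hk : 5 ≤ k)
    (hd : ∀ v, ∃ S : Finset V, (∀ a, a ∈ S ↔ G.Adj v a) ∧ k - 1 ≤ S.card) :
    (∃ (v : V) (p : G.Walk v v), p.IsCycle ∧ p.length = k) ∨
      ∃ n, k < n ∧ ∀ t < k, ∃ (v : V) (p : G.Walk v v), p.IsCycle ∧ p.length = n + t := by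
  by_cases hcon : ∃ (v : V) (p : G.Walk v v), p.IsCycle ∧ p.length = k
  · exact Or.inl hcon
  right
  have hno : ∀ v p, ¬ NP G v (k - 1) p := by
    intro v p hp
    obtain ⟨w, q, hq1, hq2⟩ := hp.cycle (by omega)
    apply hcon
    refine ⟨w, q, hq1, ?_⟩
    rw [hq2]
    omega
  have htr : ∀ v a b c, G.Adj v a → G.Adj v b → G.Adj v c → a ≠ c → G.Adj a b → G.Adj b c →
      G.Adj a c := by
    intro v a b c h1 h2 h3 h4 h5 h6
    obtain ⟨S, hS, hcard⟩ := hd v
    exact tr_of hc (by omega) v S hS hcard (hno v) a b c h1 h2 h3 h4 h5 h6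
  have hl : LD G := by
    refine ⟨?_, ?_, htr⟩
    · intro v
      obtain ⟨S, hS, hcard⟩ := hd v
      obtain ⟨x, hx⟩ := Finset.card_pos.1 (show 0 < S.card by omega)
      exact ⟨x, (hS x).1 hx⟩
    · intro v a hva
      by_contra hall
      push Not at hall
      obtain ⟨S, hS, hcard⟩ := hd v
      obtain ⟨p, hp⟩ := np_of_clique (G := G) (v := v) S (fun a ha => (hS a).1 ha) (by
        intro b hb c hc' hbc
        by_cases h1 : b = a
        · subst h1
          exact (hall c ((hS c).1 hc') hbc.symm).symm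
        · by_cases h2 : c = a
          · subst h2
            exact hall b ((hS b).1 hb) h1
          · exact htr v b a c ((hS b).1 hb) hva ((hS c).1 hc') hbc (hall b ((hS b).1 hb) h1)
              (hall c ((hS c).1 hc') h2).symm) (k - 1) hcard
      exact hno v p hp
  obtain ⟨n, f, hf, hmin⟩ := shortest hl
  have hn4 := four hf
  set A : ℕ → Finset V := fun i => univ.filter
    (fun z => G.Adj z (f i) ∧ G.Adj z (f ((i : ℤ) + 1))) with hA
  have memA : ∀ i z, z ∈ A i ↔ G.Adj z (f i) ∧ G.Adj z (f ((i : ℤ) + 1)) := by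
    intro i z
    simp only [hA, Finset.mem_filter, Finset.mem_univ, true_and]
  have hpair : ∀ i, k - 3 ≤ (A i).card + (A (i + 1)).card := by
    intro i
    obtain ⟨S, hS, hcard⟩ := hd (f ((i : ℤ) + 1))
    have e2 : (i : ℤ) + 1 + 1 = i + 2 := by ring
    have hsub : S ⊆ {f i, f ((i : ℤ) + 2)} ∪ (A i ∪ A (i + 1)) := by
      intro x hx
      have hx' := (hS x).1 hx
      rw [Finset.mem_union, Finset.mem_union]
      by_cases h1 : x = f i
      · left; rw [h1]; simp
      · by_cases h2 : x = f ((i : ℤ) + 2)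
        · left; rw [h2]; simp
        · right
          have a1 : G.Adj (f ((i : ℤ) + 1)) (f i) := (hf.adj i).symm
          have a2 : G.Adj (f ((i : ℤ) + 1)) (f ((i : ℤ) + 2)) := hf.adj' (by ring)
          rcases hc _ x (f i) (f ((i : ℤ) + 2)) hx' a1 a2 h1 h2
            (hf.inj _ _ (by omega) (by omega)) with h | h | h
          · left
            rw [memA]
            exact ⟨h, hx'.symm⟩
          · right
            rw [memA]
            push_cast
            rw [e2]
            exact ⟨hx'.symm, h⟩
          · exact absurd h (hf.thin i)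
    have h1 := Finset.card_le_card hsub
    have h2 := Finset.card_union_le {f (i : ℤ), f ((i : ℤ) + 2)} (A i ∪ A (i + 1))
    have h3 := Finset.card_union_le (A i) (A (i + 1))
    have h4 : ({f (i : ℤ), f ((i : ℤ) + 2)} : Finset V).card ≤ 2 := Finset.card_le_two
    omega
  have hsum := sum_pairs (fun i => (A i).card) (k - 3) hpair (n - 1)
  have hcyc : ∀ t ≤ ∑ i ∈ range (n - 1), (A i).card,
      ∃ (v : V) (p : G.Walk v v), p.IsCycle ∧ p.length = n + t := by
    intro t ht
    obtain ⟨p, hp1, hp2, -⟩ := inflate2 (G := G) (fun i : ℕ => f i) A (n - 1)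
      (by
        intro i hi
        have := hf.adj i
        push_cast
        exact this)
      (by
        intro i j hij hj
        exact hf.inj _ _ (by omega) (by omega))
      (by
        intro i hi a ha
        rw [memA] at ha
        push_cast
        exact ha)
      (by
        intro i hi a ha b hb hab
        rw [memA] at ha hb
        exact htr (f i) a (f ((i : ℤ) + 1)) b ha.1.symm (hf.adj i) hb.1.symm hab ha.2 hb.2.symm)
      (by
        intro i hi a ha j hj
        rw [memA] at ha
        exact out hf hmin a i ha.1 ha.2 j)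
      (by
        intro i j hij hj a ha hb
        rw [memA] at ha hb
        exact nd hl hf hmin a i j ha.1 ha.2 hb.1 hb.2 (by omega) (by omega))
      (n - 1) (le_refl _) t ht
    have hcl : G.Adj (f ((0 : ℕ) : ℤ)) (f ((n - 1 : ℕ) : ℤ)) := by
      have h1 := hf.adj ((n - 1 : ℕ) : ℤ)
      have h2 := hf.per 0
      have h3 : ((n - 1 : ℕ) : ℤ) + 1 = 0 + n := by omega
      rw [h3, h2] at h1
      exact h1.symm
    refine ⟨_, SimpleGraph.Walk.cons hcl p, close_cycle p hp1 (by rw [hp2]; omega) hcl, ?_⟩
    rw [SimpleGraph.Walk.length_cons, hp2]; omega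
  have hnk : k < n := by
    by_contra hle
    push Not at hle
    obtain ⟨v, p, hp1, hp2⟩ := hcyc (k - n) (by
      refine le_trans ?_ hsum
      have h1 : 1 ≤ (n - 1) / 2 := by omega
      have h2 : 1 * (k - 3) ≤ (n - 1) / 2 * (k - 3) := Nat.mul_le_mul_right _ h1
      omega)
    exact hcon ⟨v, p, hp1, by omega⟩
  refine ⟨n, hnk, fun t ht => hcyc t ?_⟩
  refine le_trans ?_ hsum
  have h1 : 2 ≤ (n - 1) / 2 := by omega
  have h2 : 2 * (k - 3) ≤ (n - 1) / 2 * (k - 3) := Nat.mul_le_mul_right _ h1
  omega

end Pool.Agent.H52.DE
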