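import Mathlib

set_option autoImplicit false

/-! # Cycles in claw-free graphs: thin cycles -/

namespace Pool.Agent.H52.PP

open Finset Classical

variable {V : Type} {G : SimpleGraph V}

/-- Claw-free, without 4-cycles, minimum degree at least 3. -/
structure Loc (G : SimpleGraph V) : Prop where
  claw : ∀ v a b c, G.Adj v a → G.Adj v b → G.Adj v c → a ≠ b → a ≠ c → b ≠ c →
    G.Adj a b ∨ G.Adj a c ∨ G.Adj b c
  c4 : ∀ a b c d, G.Adj a b → G.Adj b c → G.Adj c d → G.Adj d a → a ≠ c → b ≠ d → False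
  deg : ∀ v a b, ∃ c, G.Adj v c ∧ c ≠ a ∧ c ≠ b

theorem Loc.L1 (hl : Loc G) {v a b c : V} (hva : G.Adj v a) (hvb : G.Adj v b) (hvc : G.Adj v c)
    (hac : a ≠ c) (hab : G.Adj a b) (hbc : G.Adj b c) : False :=
  hl.c4 v a b c hva hab hbc hvc.symm hvb.ne hac

theorem Loc.L2 (hl : Loc G) {v x y z : V} (hx : G.Adj v x) (hy : G.Adj v y) (hz : G.Adj v z)
    (hxy : x ≠ y) (hzx : z ≠ x) (hzy : z ≠ y) (hn : ¬ G.Adj x y) : G.Adj z x ∨ G.Adj z y := by
  rcases hl.claw v x y z hx hy hz hxy hzx.symm hzy.symm with h | h | h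
  · exact absurd h hn
  · exact Or.inl h.symm
  · exact Or.inr h.symm

/-- Thin cycles: no two consecutive edges lie in a triangle. -/
structure TC (G : SimpleGraph V) (n : ℕ) (f : ℤ → V) : Prop where
  three : 3 ≤ n
  per : ∀ i, f (i + n) = f i
  inj : ∀ i j : ℤ, i < j → j < i + n → f i ≠ f j
  adj : ∀ i, G.Adj (f i) (f (i + 1))
  thin : ∀ i, ¬ G.Adj (f i) (f (i + 2))

theorem TC.adj' {n : ℕ} {f : ℤ → V} (h : TC G n f) {i j : ℤ} (hij : j = i + 1) :
    G.Adj (f i) (f j) := by
  subst hij; exact h.adj i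

theorem TC.thin' {n : ℕ} {f : ℤ → V} (h : TC G n f) {i j : ℤ} (hij : j = i + 2) :
    ¬ G.Adj (f i) (f j) := by
  subst hij; exact h.thin i

theorem TC.perk {n : ℕ} {f : ℤ → V} (h : TC G n f) (k i : ℤ) : f (i + k * n) = f i := by
  have hp : Function.Periodic f (n : ℤ) := h.per
  exact (hp.int_mul k) i

theorem TC.rep {n : ℕ} {f : ℤ → V} (h : TC G n f) (i j : ℤ) :
    ∃ j', i ≤ j' ∧ j' < i + n ∧ f j' = f j := by
  have hn : (0 : ℤ) < n := by have := h.three; omega
  refine ⟨i + (j - i) % n, ?_, ?_, ?_⟩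
  · have := Int.emod_nonneg (j - i) hn.ne'; omega
  · have := Int.emod_lt_of_pos (j - i) hn; omega
  · have h1 := h.perk ((j - i) / n) (i + (j - i) % n)
    rw [← h1]
    congr 1
    have := Int.emod_add_mul_ediv (j - i) n
    have h2 : (j - i) / n * n = n * ((j - i) / n) := mul_comm _ _
    rw [h2]
    linarith

theorem TC.five (hl : Loc G) {n : ℕ} {f : ℤ → V} (h : TC G n f) : 5 ≤ n := by
  have h3 := h.three
  by_contra hcon
  have h34 : n = 3 ∨ n = 4 := by omega
  rcases h34 with rfl | rfl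
  · have h1 := h.adj 2
    have h2 := h.per 0
    norm_num at h1 h2
    rw [h2] at h1
    exact h.thin 0 (by simpa using h1.symm)
  · have h1 := h.adj 0
    have h2 := h.adj 1
    have h3 := h.adj 2
    have h4 := h.adj 3
    have h5 := h.per 0
    norm_num at h1 h2 h3 h4 h5
    rw [h5] at h4
    exact hl.c4 (f 0) (f 1) (f 2) (f 3) h1 h2 h3 h4 (h.inj 0 2 (by norm_num) (by norm_num))
      (h.inj 1 3 (by norm_num) (by norm_num))

/-- Thin cycles are induced. -/
theorem TC.chord (hl : Loc G) {n : ℕ} {f : ℤ → V} (h : TC G n f) {i j : ℤ} (hij : i + 2 ≤ j)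
    (hji : j ≤ i + n - 2) : ¬ G.Adj (f i) (f j) := by
  intro hadj
  have hA : G.Adj (f i) (f (j - 1)) ∨ G.Adj (f i) (f (j + 1)) := by
    apply hl.L2 (v := f j) (h.adj' (by ring)).symm (h.adj' rfl) hadj.symm
    · exact h.inj _ _ (by omega) (by have := h.three; omega)
    · exact h.inj _ _ (by omega) (by omega)
    · exact h.inj _ _ (by omega) (by omega)
    · exact h.thin' (by ring)
  have hB : G.Adj (f j) (f (i - 1)) ∨ G.Adj (f j) (f (i + 1)) := by
    apply hl.L2 (v := f i) (h.adj' (by ring)).symm (h.adj' rfl) hadj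
    · exact h.inj _ _ (by omega) (by have := h.three; omega)
    · exact (h.inj _ _ (by omega) (by omega)).symm
    · exact (h.inj _ _ (by omega) (by omega)).symm
    · exact h.thin' (by ring)
  have him : G.Adj (f i) (f (i - 1)) := (h.adj' (by ring)).symm
  have hip : G.Adj (f i) (f (i + 1)) := h.adj' rfl
  rcases hA with hA | hA
  · rcases hB with hB | hB
    · exact hl.L1 hA hadj him (h.inj (i - 1) (j - 1) (by omega) (by omega)).symm
        (h.adj' (by ring)) hB
    · by_cases h2 : j = i + 2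
      · exact h.thin' h2 hadj
      · exact hl.L1 hA hadj hip (h.inj (i + 1) (j - 1) (by omega) (by omega)).symm
          (h.adj' (by ring)) hB
  · rcases hB with hB | hB
    · by_cases h2 : j = i + n - 2
      · have h3 := h.per (i - 2)
        have h4 : f j = f (i - 2) := by rw [← h3]; congr 1; omega
        rw [h4] at hadj
        exact h.thin' (by ring) hadj.symm
      · exact hl.L1 hA hadj him (h.inj (i - 1) (j + 1) (by omega) (by omega)).symm
          (h.adj' rfl).symm hB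
    · exact hl.L1 hA hadj hip (h.inj (i + 1) (j + 1) (by omega) (by omega)).symm
        (h.adj' rfl).symm hB

/-- Further neighbours of a vertex of a thin cycle are outside the cycle. -/
theorem TC.outside (hl : Loc G) {n : ℕ} {f : ℤ → V} (h : TC G n f) {i : ℤ} {z : V}
    (hz : G.Adj (f i) z) (h1 : z ≠ f (i - 1)) (h2 : z ≠ f (i + 1)) : ∀ j, z ≠ f j := by
  intro j hj
  obtain ⟨j', hj1, hj2, hj3⟩ := h.rep i j
  rw [hj, ← hj3] at hz h1 h2
  by_cases e1 : j' = i
  · subst e1; exact hz.ne rfl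
  by_cases e2 : j' = i + 1
  · subst e2; exact h2 rfl
  by_cases e3 : j' = i + n - 1
  · apply h1
    rw [← h.per (i - 1)]; congr 1; omega
  · exact h.chord hl (by omega) (by omega) hz

/-- The edge `f i, f (i+1)` lies in a triangle. -/
def Fat (G : SimpleGraph V) (f : ℤ → V) (i : ℤ) : Prop :=
  ∃ z, (∀ j, z ≠ f j) ∧ G.Adj z (f i) ∧ G.Adj z (f (i + 1))

theorem TC.side (hl : Loc G) {n : ℕ} {f : ℤ → V} (h : TC G n f) {i : ℤ} {z : V}
    (hz : G.Adj (f i) z) (h1 : z ≠ f (i - 1)) (h2 : z ≠ f (i + 1)) :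
    G.Adj z (f (i - 1)) ∨ G.Adj z (f (i + 1)) := by
  have h5 := h.three
  apply hl.L2 (v := f i) (h.adj' (by ring)).symm (h.adj' rfl) hz _ h1 h2 (h.thin' (by ring))
  exact h.inj _ _ (by omega) (by omega)

theorem TC.cover (hl : Loc G) {n : ℕ} {f : ℤ → V} (h : TC G n f) (i : ℤ) :
    Fat G f (i - 1) ∨ Fat G f i := by
  obtain ⟨z, hz, h1, h2⟩ := hl.deg (f i) (f (i - 1)) (f (i + 1))
  rcases h.side hl hz h1 h2 with h3 | h3
  · left
    refine ⟨z, h.outside hl hz h1 h2, h3, ?_⟩
    rw [sub_add_cancel]; exact hz.symm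
  · right; exact ⟨z, h.outside hl hz h1 h2, hz.symm, h3⟩

theorem TC.uniq (hl : Loc G) {n : ℕ} {f : ℤ → V} (h : TC G n f) {i : ℤ} {z z' : V}
    (h1 : G.Adj z (f i)) (h2 : G.Adj z (f (i + 1))) (h3 : G.Adj z' (f i))
    (h4 : G.Adj z' (f (i + 1))) : z = z' := by
  by_contra hne
  exact hl.L1 h1.symm (h.adj i) h3.symm hne h2 h4.symm

/-- No vertex outside is adjacent to both ends of two edges of the cycle. -/
def ND (G : SimpleGraph V) (n : ℕ) (f : ℤ → V) : Prop :=
  ∀ (z : V) (i j : ℤ), (∀ k, z ≠ f k) → G.Adj z (f i) → G.Adj z (f (i + 1)) →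
    G.Adj z (f j) → G.Adj z (f (j + 1)) → i < j → j < i + n → False

/-- Thin cycles from sequences. -/
theorem mkTC (g : ℕ → V) (n : ℕ) (hn : 3 ≤ n) (hinj : ∀ a b, a < b → b < n → g a ≠ g b)
    (hadj : ∀ a, a + 1 < n → G.Adj (g a) (g (a + 1))) (hclose : G.Adj (g (n - 1)) (g 0))
    (hthin : ∀ a, a + 2 < n → ¬ G.Adj (g a) (g (a + 2)))
    (ht1 : ¬ G.Adj (g (n - 2)) (g 0)) (ht2 : ¬ G.Adj (g (n - 1)) (g 1)) :
    ∃ f : ℤ → V, TC G n f ∧ (∀ a : ℕ, a < n → f a = g a) ∧ f (-1) = g (n - 1) ∧ f n = g 0 := by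
  have hn0 : (0 : ℤ) < n := by omega
  set f : ℤ → V := fun i => g ((i % n).toNat) with hf
  have key : ∀ (q : ℤ) (r : ℕ), r < n → f (q * n + r) = g r := by
    intro q r hr
    have h1 : (q * n + r) % (n : ℤ) = r := by
      rw [add_comm, Int.add_mul_emod_self_right]
      exact Int.emod_eq_of_lt (by omega) (by omega)
    simp only [hf, h1, Int.toNat_natCast]
  have key' : ∀ (x q : ℤ) (r : ℕ), r < n → x = q * n + r → f x = g r := by
    intro x q r hr hx; rw [hx]; exact key q r hr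
  have dec : ∀ i : ℤ, ∃ (q : ℤ) (r : ℕ), r < n ∧ i = q * n + r := by
    intro i
    refine ⟨i / n, (i % n).toNat, ?_, ?_⟩
    · have := Int.emod_lt_of_pos i hn0
      have h2 := Int.emod_nonneg i hn0.ne'
      omega
    · have h2 := Int.emod_nonneg i hn0.ne'
      rw [Int.toNat_of_nonneg h2]
      have := Int.emod_add_mul_ediv i n
      linarith [mul_comm (i / n) (n : ℤ)]
  refine ⟨f, ⟨hn, ?_, ?_, ?_, ?_⟩, ?_, ?_, ?_⟩
  · intro i
    obtain ⟨q, r, hr, rfl⟩ := dec i
    rw [key q r hr]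
    exact key' _ (q + 1) r hr (by ring)
  · intro i j hij hji heq
    obtain ⟨q, r, hr, rfl⟩ := dec i
    obtain ⟨q', r', hr', rfl⟩ := dec j
    rw [key q r hr, key q' r' hr'] at heq
    have hrr : r = r' := by
      rcases lt_trichotomy r r' with h1 | h1 | h1
      · exact absurd heq (hinj r r' h1 hr')
      · exact h1
      · exact absurd heq.symm (hinj r' r h1 hr)
    subst hrr
    have h1 : q * n < q' * n := by linarith
    have h2 : q' * n < (q + 1) * n := by linarith
    have h3 : q < q' := lt_of_mul_lt_mul_right h1 hn0.le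
    have h4 : q' < q + 1 := lt_of_mul_lt_mul_right h2 hn0.le
    omega
  · intro i
    obtain ⟨q, r, hr, rfl⟩ := dec i
    rw [key q r hr]
    by_cases h1 : r + 1 < n
    · rw [key' _ q (r + 1) h1 (by push_cast; ring)]
      exact hadj r h1
    · have h2 : r = n - 1 := by omega
      rw [key' _ (q + 1) 0 (by omega) (by rw [h2]; push_cast [Nat.cast_sub (show 1 ≤ n by omega)]; ring)]
      rw [h2]; exact hclose
  · intro i
    obtain ⟨q, r, hr, rfl⟩ := dec i
    rw [key q r hr]
    by_cases h1 : r + 2 < n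
    · rw [key' _ q (r + 2) h1 (by push_cast; ring)]
      exact hthin r h1
    · by_cases h2 : r = n - 1
      · rw [key' _ (q + 1) 1 (by omega) (by rw [h2]; push_cast [Nat.cast_sub (show 1 ≤ n by omega)]; ring)]
        rw [h2]; exact ht2
      · have h3 : r = n - 2 := by omega
        rw [key' _ (q + 1) 0 (by omega) (by rw [h3]; push_cast [Nat.cast_sub (show 2 ≤ n by omega)]; ring)]
        rw [h3]; exact ht1
  · intro a ha
    exact key' _ 0 a ha (by ring)
  · exact key' _ (-1) (n - 1) (by omega) (by push_cast [Nat.cast_sub (show 1 ≤ n by omega)]; ring)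
  · exact key' _ 1 0 (by omega) (by push_cast; ring)

end Pool.Agent.H52.PP
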