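import Pool.Agent.H52.PPB

set_option autoImplicit false

/-! # Cycles in claw-free graphs: structure of the thin cycles -/

namespace Pool.Agent.H52.PP

open Finset Classical

variable {V : Type} {G : SimpleGraph V}

theorem Fat.congr {f : ℤ → V} {i j : ℤ} (h1 : f i = f j) (h2 : f (i + 1) = f (j + 1))
    (h : Fat G f i) : Fat G f j := by
  obtain ⟨z, hz, h3, h4⟩ := h
  exact ⟨z, hz, h1 ▸ h3, h2 ▸ h4⟩

theorem TC.fat_per {n : ℕ} {f : ℤ → V} (h : TC G n f) (k i : ℤ) (hf : Fat G f (i + k * n)) :
    Fat G f i := by
  refine hf.congr (h.perk k i) ?_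
  have := h.perk k (i + 1)
  rw [← this]; congr 1; ring

theorem TC.shift {n : ℕ} {f : ℤ → V} (h : TC G n f) (a : ℤ) : TC G n (fun k => f (k + a)) := by
  refine ⟨h.three, ?_, ?_, ?_, ?_⟩
  · intro i
    have := h.per (i + a)
    show f (i + n + a) = f (i + a)
    rw [← this]; congr 1; ring
  · intro i j h1 h2
    exact h.inj _ _ (by omega) (by omega)
  · intro i
    exact h.adj' (by ring)
  · intro i
    exact h.thin' (by ring)

theorem fat_shift {f : ℤ → V} (a i : ℤ) :
    Fat G (fun k => f (k + a)) i ↔ Fat G f (i + a) := by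
  have e : i + 1 + a = i + a + 1 := by ring
  constructor
  · rintro ⟨z, h1, h2, h3⟩
    refine ⟨z, fun j => ?_, h2, ?_⟩
    · have := h1 (j - a)
      simpa using this
    · rw [← e]; exact h3
  · rintro ⟨z, h1, h2, h3⟩
    refine ⟨z, fun j => h1 _, h2, ?_⟩
    show G.Adj z (f (i + 1 + a))
    rw [e]; exact h3

theorem ND.shift {n : ℕ} {f : ℤ → V} (h : ND G n f) (a : ℤ) : ND G n (fun k => f (k + a)) := by
  intro z i j hz h1 h2 h3 h4 hij hji
  have e : ∀ i : ℤ, i + 1 + a = i + a + 1 := fun i => by ring
  refine h z (i + a) (j + a) (fun k => ?_) h1 ?_ h3 ?_ (by omega) (by omega)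
  · have := hz (k - a)
    simpa using this
  · rw [← e]; exact h2
  · rw [← e]; exact h4

/-- If no two consecutive edges are fat, then outside neighbours are unique. -/
theorem TC.un (hl : Loc G) {n : ℕ} {f : ℤ → V} (h : TC G n f)
    (halt : ∀ i, ¬ (Fat G f (i - 1) ∧ Fat G f i)) {i : ℤ} {a b : V}
    (ha : G.Adj (f i) a) (ha1 : a ≠ f (i - 1)) (ha2 : a ≠ f (i + 1))
    (hb : G.Adj (f i) b) (hb1 : b ≠ f (i - 1)) (hb2 : b ≠ f (i + 1)) : a = b := by
  have oa := h.outside hl ha ha1 ha2
  have ob := h.outside hl hb hb1 hb2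
  have e : i - 1 + 1 = i := by ring
  rcases h.side hl ha ha1 ha2 with h1 | h1
  · rcases h.side hl hb hb1 hb2 with h2 | h2
    · refine h.uniq hl (i := i - 1) h1 ?_ h2 ?_
      · rw [e]; exact ha.symm
      · rw [e]; exact hb.symm
    · exact absurd ⟨⟨a, oa, h1, by rw [e]; exact ha.symm⟩, ⟨b, ob, hb.symm, h2⟩⟩ (halt i)
  · rcases h.side hl hb hb1 hb2 with h2 | h2
    · exact absurd ⟨⟨b, ob, h2, by rw [e]; exact hb.symm⟩, ⟨a, oa, ha.symm, h1⟩⟩ (halt i)
    · exact h.uniq hl (i := i) ha.symm h1 hb.symm h2

/-- A double apex gives a shorter thin cycle through it. -/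
theorem TC.double (hl : Loc G) {n : ℕ} {f : ℤ → V} (h : TC G n f) {z : V} {i j : ℤ}
    (hz : ∀ k, z ≠ f k) (h1 : G.Adj z (f i)) (h2 : G.Adj z (f (i + 1))) (h3 : G.Adj z (f j))
    (h4 : G.Adj z (f (j + 1))) (hij : i < j) (hji : j < i + n) :
    i + 3 ≤ j ∧ j + 3 ≤ i + n ∧ ∃ (m : ℕ) (g : ℤ → V), TC G m g ∧ m < n ∧ g (-1) = z ∧
      g (-2) = f j ∧ g 0 = f (i + 1) := by
  have hn5 := h.five hl
  have c1 : j ≠ i + 1 := by
    rintro rfl
    refine hl.L1 (v := f (i + 1)) (a := f i) (b := z) (c := f (i + 1 + 1)) (h.adj i).symm h2.symm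
      (h.adj _) (h.inj _ _ (by omega) (by omega)) h1.symm h4
  have c2 : j ≠ i + 2 := by
    rintro rfl
    refine hl.L1 (v := z) (a := f i) (b := f (i + 1)) (c := f (i + 2)) h1 h2 h3
      (h.inj _ _ (by omega) (by omega)) (h.adj i) (h.adj' (by ring))
  have c3 : j ≠ i + n - 1 := by
    rintro rfl
    have e1 : f (i + n - 1) = f (i - 1) := by rw [← h.per (i - 1)]; congr 1; ring
    rw [e1] at h3
    refine hl.L1 (v := f i) (a := f (i - 1)) (b := z) (c := f (i + 1)) (h.adj' (by ring)).symm
      h1.symm (h.adj i) (h.inj _ _ (by omega) (by omega)) h3.symm h2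
  have c4 : j ≠ i + n - 2 := by
    rintro rfl
    have e1 : f (i + n - 2 + 1) = f (i - 1) := by rw [← h.per (i - 1)]; congr 1; ring
    rw [e1] at h4
    refine hl.L1 (v := z) (a := f (i - 1)) (b := f i) (c := f (i + 1)) h4 h1 h2
      (h.inj _ _ (by omega) (by omega)) (h.adj' (by ring)) (h.adj i)
  refine ⟨by omega, by omega, ?_⟩
  obtain ⟨d, hd⟩ : ∃ d : ℕ, j = i + d := ⟨(j - i).toNat, by omega⟩
  subst hd
  have hd3 : 3 ≤ d := by omega
  set s : ℕ → V := fun k => if k < d then f (i + 1 + k) else z with hs
  have s1 : ∀ k, k < d → s k = f (i + 1 + k) := fun k hk => by simp only [hs, hk, if_true]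
  have s2 : s d = z := by simp only [hs, lt_irrefl, if_false]
  obtain ⟨g, hg, hg1, hg2, hg3⟩ := mkTC (G := G) s (d + 1) (by omega)
    (by
      intro a b hab hb
      by_cases hbd : b < d
      · rw [s1 a (by omega), s1 b hbd]
        exact h.inj _ _ (by omega) (by omega)
      · have : b = d := by omega
        subst this
        rw [s1 a (by omega), s2]
        exact (hz _).symm)
    (by
      intro a ha
      by_cases had : a + 1 < d
      · rw [s1 a (by omega), s1 (a + 1) had]
        exact h.adj' (by push_cast; ring)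
      · have : a + 1 = d := by omega
        rw [s1 a (by omega), this, s2]
        have e : i + 1 + (a : ℤ) = i + d := by omega
        rw [e]; exact h3.symm)
    (by
      rw [Nat.add_sub_cancel, s2, s1 0 (by omega)]
      simpa using h2)
    (by
      intro a ha
      by_cases had : a + 2 < d
      · rw [s1 a (by omega), s1 (a + 2) had]
        exact h.thin' (by push_cast; ring)
      · have : a + 2 = d := by omega
        rw [s1 a (by omega), this, s2]
        intro hadj
        have e : i + 1 + (a : ℤ) = i + d - 1 := by omega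
        rw [e] at hadj
        exact hl.L1 (v := f (i + d)) (a := f (i + d + 1)) (b := z) (c := f (i + d - 1))
          (h.adj _) h3.symm (h.adj' (by ring)).symm
          (h.inj (i + d - 1) (i + d + 1) (by omega) (by omega)).symm h4.symm hadj.symm)
    (by
      have : d + 1 - 2 = d - 1 := by omega
      rw [this, s1 (d - 1) (by omega), s1 0 (by omega)]
      have e : i + 1 + ((d - 1 : ℕ) : ℤ) = i + d := by omega
      rw [e]
      intro hadj
      exact h.chord hl (i := i + 1) (j := i + d) (by omega) (by omega) (by simpa using hadj.symm))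
    (by
      rw [Nat.add_sub_cancel, s2, s1 1 (by omega)]
      intro hadj
      have e : i + 1 + ((1 : ℕ) : ℤ) = i + 2 := by push_cast; ring
      rw [e] at hadj
      exact hl.L1 (v := f (i + 1)) (a := f i) (b := z) (c := f (i + 2)) (h.adj i).symm h2.symm
        (h.adj' (by ring)) (h.inj _ _ (by omega) (by omega)) h1.symm hadj)
  refine ⟨d + 1, g, hg, by omega, ?_, ?_, ?_⟩
  · rw [hg2, Nat.add_sub_cancel, s2]
  · have h5 := hg.per (-2)
    rw [← h5]
    have h6 := hg1 (d - 1) (by omega)
    have e : (-2 : ℤ) + ((d + 1 : ℕ) : ℤ) = ((d - 1 : ℕ) : ℤ) := by omega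
    rw [e, h6, s1 (d - 1) (by omega)]
    congr 1; omega
  · have h6 := hg1 0 (by omega)
    rw [s1 0 (by omega)] at h6
    simpa using h6

/-- A thin cycle without double apices gives cycles of many consecutive lengths. -/
theorem TC.many (hl : Loc G) {n : ℕ} {f : ℤ → V} (h : TC G n f) (hnd : ND G n f) :
    ∃ T, n ≤ 2 * T ∧ ∀ t ≤ T, ∃ (v : V) (p : G.Walk v v), p.IsCycle ∧ p.length = n + t := by
  have hn5 := h.five hl
  by_cases hall : ∀ i, Fat G f i
  · have hcard : ((range (n - 1)).filter (fun i : ℕ => Fat G f i)).card = n - 1 := by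
      have h0 : (range (n - 1)).filter (fun i : ℕ => Fat G f i) = range (n - 1) :=
        Finset.filter_true_of_mem (fun i _ => hall i)
      rw [h0, Finset.card_range]
    exact ⟨n - 1, by omega, fun t ht => h.cycles hl hnd t (by rw [hcard]; exact ht)⟩
  · push Not at hall
    obtain ⟨i0, hi0⟩ := hall
    set f' : ℤ → V := fun k => f (k + (i0 + 1)) with hf'
    have h' : TC G n f' := h.shift (i0 + 1)
    have hnd' : ND G n f' := hnd.shift (i0 + 1)
    have hm1 : ¬ Fat G f' (-1) := by
      rw [hf', fat_shift]
      have : (-1 : ℤ) + (i0 + 1) = i0 := by ring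
      rw [this]; exact hi0
    have hn1 : ¬ Fat G f' ((n : ℤ) - 1) := by
      intro hF
      apply hm1
      apply h'.fat_per 1 (-1)
      have : (-1 : ℤ) + 1 * n = n - 1 := by ring
      rw [this]; exact hF
    set K := (range (n - 1)).filter (fun i : ℕ => Fat G f' i) with hK
    refine ⟨K.card, ?_, fun t ht => h'.cycles hl hnd' t ht⟩
    have hsub : range n ⊆ K ∪ K.image (fun x => x + 1) := by
      intro i hi
      rw [Finset.mem_range] at hi
      rw [Finset.mem_union, Finset.mem_image]
      rcases h'.cover hl i with h1 | h1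
      · right
        have hi0 : i ≠ 0 := by
          rintro rfl
          apply hm1
          simpa using h1
        refine ⟨i - 1, ?_, by omega⟩
        rw [hK, Finset.mem_filter, Finset.mem_range]
        refine ⟨by omega, ?_⟩
        have : (((i - 1 : ℕ)) : ℤ) = (i : ℤ) - 1 := by omega
        rw [this]; exact h1
      · left
        rw [hK, Finset.mem_filter, Finset.mem_range]
        refine ⟨?_, h1⟩
        by_contra hcon
        have : (i : ℤ) = n - 1 := by omega
        rw [this] at h1
        exact hn1 h1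
    have h1 := Finset.card_le_card hsub
    have h2 := Finset.card_union_le K (K.image (fun x => x + 1))
    have h3 := Finset.card_image_le (s := K) (f := fun x => x + 1)
    rw [Finset.card_range] at h1
    omega

/-- **Structure of the thin cycles** in a graph without cycles of perfect power length. -/
theorem thin_structure (hl : Loc G) (hP : ∀ (v : V) (p : G.Walk v v), p.IsCycle → ¬ Pow p.length) :
    ∀ (n : ℕ) (f : ℤ → V), TC G n f → n = 10 ∧ ND G n f ∧
      ∀ i, ¬ (Fat G f (i - 1) ∧ Fat G f i) := by
  intro n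
  induction n using Nat.strong_induction_on with
  | _ n ih =>
    intro f h
    have hn5 := h.five hl
    have hnd : ND G n f := by
      intro z i j hz h1 h2 h3 h4 hij hji
      obtain ⟨d1, d2, m, g, hg, hmn, g1, g2, g3⟩ := h.double hl hz h1 h2 h3 h4 hij hji
      obtain ⟨-, -, halt⟩ := ih m hmn g hg
      have e1 : g (-1 - 1) = f j := by rw [← g2]; norm_num
      have e2 : g (-1 + 1) = f (i + 1) := by rw [← g3]; norm_num
      have := hg.un hl halt (i := -1) (a := f i) (b := f (j + 1)) (by rw [g1]; exact h1)
        (by rw [e1]; exact h.inj _ _ hij hji) (by rw [e2]; exact h.inj _ _ (by omega) (by omega))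
        (by rw [g1]; exact h4)
        (by rw [e1]; exact (h.inj _ _ (by omega) (by omega)).symm)
        (by rw [e2]; exact (h.inj _ _ (by omega) (by omega)).symm)
      exact h.inj i (j + 1) (by omega) (by omega) this
    by_cases hall : ∀ i, Fat G f i
    · exfalso
      have hcard : ((range (n - 1)).filter (fun i : ℕ => Fat G f i)).card = n - 1 := by
        have h0 : (range (n - 1)).filter (fun i : ℕ => Fat G f i) = range (n - 1) :=
          Finset.filter_true_of_mem (fun i _ => hall i)
        rw [h0, Finset.card_range]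
      obtain ⟨t, ht1, ht2⟩ := exists_pow n (n - 1) hn5 (by omega) (by omega)
      obtain ⟨v, p, hp1, hp2⟩ := h.cycles hl hnd t (by rw [hcard]; exact ht1)
      exact hP v p hp1 (by rw [hp2]; exact ht2)
    · push Not at hall
      obtain ⟨i0, hi0⟩ := hall
      set f' : ℤ → V := fun k => f (k + (i0 + 1)) with hf'
      have h' : TC G n f' := h.shift (i0 + 1)
      have hnd' : ND G n f' := hnd.shift (i0 + 1)
      have hm1 : ¬ Fat G f' (-1) := by
        rw [hf', fat_shift]
        have : (-1 : ℤ) + (i0 + 1) = i0 := by ring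
        rw [this]; exact hi0
      have hn1 : ¬ Fat G f' ((n : ℤ) - 1) := by
        intro hF
        apply hm1
        apply h'.fat_per 1 (-1)
        have : (-1 : ℤ) + 1 * n = n - 1 := by ring
        rw [this]; exact hF
      set K := (range (n - 1)).filter (fun i : ℕ => Fat G f' i) with hK
      have hcov : n ≤ 2 * K.card := by
        have hsub : range n ⊆ K ∪ K.image (fun x => x + 1) := by
          intro i hi
          rw [Finset.mem_range] at hi
          rw [Finset.mem_union, Finset.mem_image]
          rcases h'.cover hl i with h1 | h1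
          · right
            have hi0 : i ≠ 0 := by
              rintro rfl
              apply hm1
              simpa using h1
            refine ⟨i - 1, ?_, by omega⟩
            rw [hK, Finset.mem_filter, Finset.mem_range]
            refine ⟨by omega, ?_⟩
            have : (((i - 1 : ℕ)) : ℤ) = (i : ℤ) - 1 := by omega
            rw [this]; exact h1
          · left
            rw [hK, Finset.mem_filter, Finset.mem_range]
            refine ⟨?_, h1⟩
            by_contra hcon
            have : (i : ℤ) = n - 1 := by omega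
            rw [this] at h1
            exact hn1 h1
        have h1 := Finset.card_le_card hsub
        have h2 := Finset.card_union_le K (K.image (fun x => x + 1))
        have h3 := Finset.card_image_le (s := K) (f := fun x => x + 1)
        rw [Finset.card_range] at h1
        omega
      have hno : ¬ (n = 10 → 6 ≤ K.card) := by
        intro h10
        obtain ⟨t, ht1, ht2⟩ := exists_pow n K.card hn5 hcov h10
        obtain ⟨v, p, hp1, hp2⟩ := h'.cycles hl hnd' t ht1
        exact hP v p hp1 (by rw [hp2]; exact ht2)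
      push Not at hno
      obtain ⟨h10, hK5⟩ := hno
      refine ⟨h10, hnd, ?_⟩
      rintro i ⟨hF1, hF2⟩
      subst h10
      obtain ⟨a, ha1, ha2, ha3⟩ : ∃ a : ℤ, 0 ≤ a ∧ a < 10 ∧ ∃ k : ℤ, i = (a + (i0 + 1)) + k * 10 := by
        refine ⟨(i - (i0 + 1)) % 10, by omega, by omega, (i - (i0 + 1)) / 10, by omega⟩
      obtain ⟨k, hk⟩ := ha3
      have hFa : Fat G f' a := by
        rw [hf', fat_shift]
        apply h.fat_per k
        rw [hk] at hF2
        exact_mod_cast hF2
      have hFb : Fat G f' (a - 1) := by
        rw [hf', fat_shift]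
        apply h.fat_per k
        rw [hk] at hF1
        have : a - 1 + (i0 + 1) + k * ((10 : ℕ) : ℤ) = a + (i0 + 1) + k * 10 - 1 := by
          push_cast; ring
        rw [this]; exact hF1
      have ha0 : a ≠ 0 := by
        rintro rfl
        apply hm1; simpa using hFb
      have ha9 : a ≠ 9 := by
        rintro rfl
        apply hn1; norm_num; exact hFa
      have hsum : K.card = ∑ i ∈ range 9, (if Fat G f' (i : ℤ) then 1 else 0) := by
        rw [hK, Finset.card_filter]
      have c0 := h'.cover hl 0
      have c1 := h'.cover hl 1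
      have c2 := h'.cover hl 2
      have c3 := h'.cover hl 3
      have c4 := h'.cover hl 4
      have c5 := h'.cover hl 5
      have c6 := h'.cover hl 6
      have c7 := h'.cover hl 7
      have c8 := h'.cover hl 8
      have c9 := h'.cover hl 9
      norm_num at c0 c1 c2 c3 c4 c5 c6 c7 c8 c9 hn1
      simp only [Finset.sum_range_succ, Finset.sum_range_zero] at hsum
      norm_num at hsum
      have c0' : Fat G f' 0 := by
        rcases c0 with c | c
        · exact absurd c hm1
        · exact c
      have c8' : Fat G f' 8 := by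
        rcases c9 with c | c
        · exact c
        · exact absurd c hn1
      have key : ∀ x : ℤ, ∃ b : ℕ, b ≤ 1 ∧ (Fat G f' x ↔ b = 1) ∧
          (if Fat G f' x then 1 else 0) = b := by
        intro x
        by_cases hx : Fat G f' x
        · exact ⟨1, le_refl _, by simp [hx], by simp [hx]⟩
        · exact ⟨0, by omega, by simp [hx], by simp [hx]⟩
      obtain ⟨b0, l0, i0', j0⟩ := key 0
      obtain ⟨b1, l1, i1, j1⟩ := key 1
      obtain ⟨b2, l2, i2, j2⟩ := key 2
      obtain ⟨b3, l3, i3, j3⟩ := key 3
      obtain ⟨b4, l4, i4, j4⟩ := key 4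
      obtain ⟨b5, l5, i5, j5⟩ := key 5
      obtain ⟨b6, l6, i6, j6⟩ := key 6
      obtain ⟨b7, l7, i7, j7⟩ := key 7
      obtain ⟨b8, l8, i8, j8⟩ := key 8
      rw [j0, j1, j2, j3, j4, j5, j6, j7, j8] at hsum
      rw [i0'] at c0'
      rw [i8] at c8'
      rw [i0', i1] at c1
      rw [i1, i2] at c2
      rw [i2, i3] at c3
      rw [i3, i4] at c4
      rw [i4, i5] at c5
      rw [i5, i6] at c6
      rw [i6, i7] at c7
      rw [i7, i8] at c8
      have ha : a = 1 ∨ a = 2 ∨ a = 3 ∨ a = 4 ∨ a = 5 ∨ a = 6 ∨ a = 7 ∨ a = 8 := by omega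
      rcases ha with rfl | rfl | rfl | rfl | rfl | rfl | rfl | rfl <;> norm_num at hFa hFb
      · rw [i1] at hFa; rw [i0'] at hFb; omega
      · rw [i2] at hFa; rw [i1] at hFb; omega
      · rw [i3] at hFa; rw [i2] at hFb; omega
      · rw [i4] at hFa; rw [i3] at hFb; omega
      · rw [i5] at hFa; rw [i4] at hFb; omega
      · rw [i6] at hFa; rw [i5] at hFb; omega
      · rw [i7] at hFa; rw [i6] at hFb; omega
      · rw [i8] at hFa; rw [i7] at hFb; omega

end Pool.Agent.H52.PP
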