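import Pool.Agent.H52.PPC

set_option autoImplicit false

/-! # Cycles in claw-free graphs: the longest thin path -/

namespace Pool.Agent.H52.PP

open Finset Classical

variable {V : Type} {G : SimpleGraph V}

/-- Thin paths on `N` vertices. -/
structure TP (G : SimpleGraph V) (N : ℕ) (P : ℕ → V) : Prop where
  inj : ∀ i j, i < j → j < N → P i ≠ P j
  adj : ∀ i, i + 1 < N → G.Adj (P i) (P (i + 1))
  thin : ∀ i, i + 2 < N → ¬ G.Adj (P i) (P (i + 2))

/-- Put a vertex in front of a sequence. -/
def cons (w : V) (P : ℕ → V) : ℕ → V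
  | 0 => w
  | (i + 1) => P i

theorem cons_zero (w : V) (P : ℕ → V) : cons w P 0 = w := rfl
theorem cons_succ (w : V) (P : ℕ → V) (i : ℕ) : cons w P (i + 1) = P i := rfl

theorem TP.cons {N : ℕ} {P : ℕ → V} (h : TP G N P) (hN : 0 < N) {w : V} (hw : ∀ i < N, w ≠ P i)
    (hadj : G.Adj w (P 0)) (hthin : 1 < N → ¬ G.Adj w (P 1)) : TP G (N + 1) (cons w P) := by
  refine ⟨?_, ?_, ?_⟩
  · intro i j hij hj
    obtain ⟨j, rfl⟩ : ∃ j', j = j' + 1 := ⟨j - 1, by omega⟩
    rw [cons_succ]
    rcases i with _ | i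
    · rw [cons_zero]; exact hw j (by omega)
    · rw [cons_succ]; exact h.inj i j (by omega) (by omega)
  · intro i hi
    rcases i with _ | i
    · rw [cons_zero, cons_succ]; exact hadj
    · rw [cons_succ, cons_succ]; exact h.adj i (by omega)
  · intro i hi
    rcases i with _ | i
    · rw [cons_zero, show 0 + 2 = 1 + 1 from rfl, cons_succ]; exact hthin (by omega)
    · rw [cons_succ, show i + 1 + 2 = (i + 2) + 1 from rfl, cons_succ]; exact h.thin i (by omega)

theorem TP.shift {N : ℕ} {P : ℕ → V} (h : TP G N P) (k : ℕ) :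
    TP G (N - k) (fun i => P (i + k)) := by
  refine ⟨?_, ?_, ?_⟩
  · intro i j hij hj
    exact h.inj _ _ (by omega) (by omega)
  · intro i hi
    have := h.adj (i + k) (by omega)
    have e : i + 1 + k = i + k + 1 := by ring
    show G.Adj (P (i + k)) (P (i + 1 + k))
    rw [e]; exact this
  · intro i hi
    have := h.thin (i + k) (by omega)
    have e : i + 2 + k = i + k + 2 := by ring
    show ¬ G.Adj (P (i + k)) (P (i + 2 + k))
    rw [e]; exact this

/-- There is a maximal thin path. -/
theorem exists_max [Fintype V] [Nonempty V] (hl : Loc G) :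
    ∃ (N : ℕ) (P : ℕ → V), TP G N P ∧ 2 ≤ N ∧ ∀ P', ¬ TP G (N + 1) P' := by
  by_contra hcon
  push Not at hcon
  have hall : ∀ k, ∃ P, TP G (2 + k) P := by
    intro k
    induction k with
    | zero =>
      obtain ⟨v⟩ := ‹Nonempty V›
      obtain ⟨c, hc, -, -⟩ := hl.deg v v v
      refine ⟨fun i => if i = 0 then v else c, ?_, ?_, ?_⟩
      · intro i j hij hj
        have hi : i = 0 := by omega
        have hj' : j = 1 := by omega
        subst hi; subst hj'
        simpa using hc.ne
      · intro i hi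
        have hi : i = 0 := by omega
        subst hi
        simpa using hc
      · intro i hi; omega
    | succ k ih =>
      obtain ⟨P, hP⟩ := ih
      obtain ⟨P', hP'⟩ := hcon (2 + k) P hP (by omega)
      exact ⟨P', hP'⟩
  obtain ⟨P, hP⟩ := hall (Fintype.card V)
  have hinj : Function.Injective (fun i : Fin (2 + Fintype.card V) => P i) := by
    intro i j hij
    by_contra hne
    have hne' : (i : ℕ) ≠ j := fun h => hne (Fin.ext h)
    rcases lt_or_gt_of_ne hne' with h1 | h1
    · exact hP.inj i j h1 j.2 hij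
    · exact hP.inj j i h1 i.2 hij.symm
  have := Fintype.card_le_of_injective _ hinj
  rw [Fintype.card_fin] at this
  omega

/-- The beginning of a maximal thin path is a thin cycle. -/
theorem first_tc (hl : Loc G) {N : ℕ} {P : ℕ → V} (h : TP G N P) (hN : 2 ≤ N)
    (hmax : ∀ P', ¬ TP G (N + 1) P') :
    ∃ r, r < N ∧ ∃ f : ℤ → V, TC G (r + 1) f ∧ (∀ a : ℕ, a < r + 1 → f a = P a) ∧ f (-1) = P r ∧
      f ((r + 1 : ℕ) : ℤ) = P 0 := by
  have h01 : G.Adj (P 0) (P 1) := h.adj 0 (by omega)
  obtain ⟨w, hw, hw1, hw2⟩ : ∃ w, G.Adj (P 0) w ∧ w ≠ P 1 ∧ ¬ G.Adj w (P 1) := by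
    obtain ⟨a, ha, ha1, -⟩ := hl.deg (P 0) (P 1) (P 1)
    by_cases ha2 : G.Adj a (P 1)
    · obtain ⟨b, hb, hb1, hb2⟩ := hl.deg (P 0) (P 1) a
      refine ⟨b, hb, hb1, fun hb3 => ?_⟩
      exact hl.L1 ha h01 hb hb2.symm ha2 hb3.symm
    · exact ⟨a, ha, ha1, ha2⟩
  have hwP : ∃ i < N, w = P i := by
    by_contra hcon
    push Not at hcon
    exact hmax _ (h.cons (by omega) hcon hw.symm (fun _ => hw2))
  obtain ⟨i, hi, rfl⟩ := hwP
  have hi0 : i ≠ 0 := by rintro rfl; exact hw.ne rfl
  have hi1 : i ≠ 1 := by rintro rfl; exact hw1 rfl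
  have hi2 : i ≠ 2 := by rintro rfl; exact h.thin 0 (by omega) hw
  obtain ⟨r, hr3, hrN, hr0, hr1, hr2⟩ : ∃ r, 3 ≤ r ∧ r < N ∧ G.Adj (P r) (P 0) ∧
      ¬ G.Adj (P (r - 1)) (P 0) ∧ ¬ G.Adj (P r) (P 1) := by
    by_cases hc : G.Adj (P (i - 1)) (P 0)
    · have hi3 : i ≠ 3 := by
        rintro rfl
        exact h.thin 0 (by omega) hc.symm
      have hii : G.Adj (P (i - 1)) (P i) := by
        have := h.adj (i - 1) (by omega)
        have e : i - 1 + 1 = i := by omega
        rwa [e] at this
      have hii2 : G.Adj (P (i - 1)) (P (i - 1 - 1)) := by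
        have := h.adj (i - 1 - 1) (by omega)
        have e : i - 1 - 1 + 1 = i - 1 := by omega
        rw [e] at this
        exact this.symm
      refine ⟨i - 1, by omega, by omega, hc, ?_, ?_⟩
      · intro hc2
        exact hl.L1 hii hc hii2 (h.inj (i - 1 - 1) i (by omega) hi).symm hw.symm hc2.symm
      · intro hc2
        exact hl.L1 hw hc.symm h01 (h.inj 1 i (by omega) hi).symm hii.symm hc2
    · exact ⟨i, by omega, hi, hw.symm, hc, hw2⟩
  obtain ⟨f, hf, hf1, hf2, hf3⟩ := mkTC (G := G) P (r + 1) (by omega)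
    (fun a b hab hb => h.inj a b hab (by omega)) (fun a ha => h.adj a (by omega))
    (by rw [Nat.add_sub_cancel]; exact hr0) (fun a ha => h.thin a (by omega))
    (by
      have : r + 1 - 2 = r - 1 := by omega
      rw [this]; exact hr1)
    (by rw [Nat.add_sub_cancel]; exact hr2)
  refine ⟨r, hrN, f, hf, hf1, ?_, hf3⟩
  rw [hf2, Nat.add_sub_cancel]

/-- Claw-free graphs without 4-cycles of minimum degree at least 3 have cycles of all lengths in
some interval `[c, 3c/2]`. -/
theorem interval [Fintype V] [Nonempty V] (hl : Loc G) :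
    ∃ c, 5 ≤ c ∧ ∀ m, c ≤ m → m ≤ c + (c + 1) / 2 →
      ∃ (v : V) (p : G.Walk v v), p.IsCycle ∧ p.length = m := by
  obtain ⟨N, P, h, hN2, hmax⟩ := exists_max hl
  obtain ⟨r, -, f, hf, -⟩ := first_tc hl h hN2 hmax
  have hex : ∃ n, ∃ f : ℤ → V, TC G n f := ⟨_, f, hf⟩
  obtain ⟨g, hg⟩ := Nat.find_spec hex
  set c := Nat.find hex with hc
  have hnd : ND G c g := by
    intro z i j hz h1 h2 h3 h4 hij hji
    obtain ⟨-, -, m, g', hg', hmn, -⟩ := hg.double hl hz h1 h2 h3 h4 hij hji
    have := Nat.find_min' hex ⟨g', hg'⟩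
    omega
  obtain ⟨T, hT1, hT2⟩ := hg.many hl hnd
  refine ⟨c, hg.five hl, fun m hm1 hm2 => ?_⟩
  obtain ⟨v, p, hp1, hp2⟩ := hT2 (m - c) (by omega)
  exact ⟨v, p, hp1, by omega⟩

/-- The beginning of a maximal thin path is a thin cycle of length 10. -/
theorem first_cycle (hl : Loc G) (hP : ∀ (v : V) (p : G.Walk v v), p.IsCycle → ¬ Pow p.length)
    {N : ℕ} {P : ℕ → V} (h : TP G N P) (hN : 2 ≤ N) (hmax : ∀ P', ¬ TP G (N + 1) P') :
    10 ≤ N ∧ ∃ f : ℤ → V, TC G 10 f ∧ (∀ a : ℕ, a < 10 → f a = P a) ∧ f (-1) = P 9 ∧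
      f 10 = P 0 := by
  obtain ⟨r, hrN, f, hf, hf1, hf2, hf3⟩ := first_tc hl h hN hmax
  have h10 := (thin_structure hl hP (r + 1) f hf).1
  have hr9 : r = 9 := by omega
  subst hr9
  refine ⟨by omega, f, hf, hf1, hf2, ?_⟩
  simpa using hf3

/-- **Main theorem.** -/
theorem main [Fintype V] [Nonempty V] (hl : Loc G) :
    ∃ (v : V) (p : G.Walk v v), p.IsCycle ∧ Pow p.length := by
  by_contra hcon
  push Not at hcon
  have hP : ∀ (v : V) (p : G.Walk v v), p.IsCycle → ¬ Pow p.length := hcon
  obtain ⟨N, P, h, hN2, hmax⟩ := exists_max hl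
  obtain ⟨hN, f, hf, hfP, hfm, hf10⟩ := first_cycle hl hP h hN2 hmax
  obtain ⟨-, hnd, halt⟩ := thin_structure hl hP 10 f hf
  -- translation between `P` and `f`
  have f0 : f 0 = P 0 := by simpa using hfP 0 (by norm_num)
  have f1 : f 1 = P 1 := by simpa using hfP 1 (by norm_num)
  have f2 : f 2 = P 2 := by simpa using hfP 2 (by norm_num)
  have f8 : f 8 = P 8 := by simpa using hfP 8 (by norm_num)
  have f9 : f 9 = P 9 := by simpa using hfP 9 (by norm_num)
  have out : ∀ z : V, (∀ a : ℕ, a < 10 → z ≠ P a) → ∀ k, z ≠ f k := by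
    intro z hz k hk
    obtain ⟨j', hj1, hj2, hj3⟩ := hf.rep 0 k
    obtain ⟨a, rfl⟩ : ∃ a : ℕ, j' = a := ⟨j'.toNat, by omega⟩
    rw [← hj3, hfP a (by omega)] at hk
    exact hz a (by omega) hk
  have outP : ∀ q, 10 ≤ q → q < N → ∀ k, P q ≠ f k := by
    intro q hq hqN
    apply out
    intro a ha heq
    exact h.inj a q (by omega) hqN heq.symm
  have inP : ∀ z : V, (∀ k, z ≠ f k) → ∀ q, z = P q → 10 ≤ q := by
    intro z hz q hq
    by_contra hlt
    exact hz q (by rw [hfP q (by omega)]; exact hq)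
  have a01 : G.Adj (P 0) (P 1) := h.adj 0 (by omega)
  have a12 : G.Adj (P 1) (P 2) := h.adj 1 (by omega)
  have a23 : G.Adj (P 2) (P 3) := h.adj 2 (by omega)
  have a90 : G.Adj (P 9) (P 0) := by
    have := hf.adj 9
    norm_num at this
    rwa [f9, hf10] at this
  have n13 : P 1 ≠ P 3 := h.inj 1 3 (by omega) (by omega)
  have n02 : P 0 ≠ P 2 := h.inj 0 2 (by omega) (by omega)
  have n19 : P 1 ≠ P 9 := h.inj 1 9 (by omega) (by omega)
  -- Step 1
  have step1 : ∀ z, (∀ k, z ≠ f k) → G.Adj z (P 0) → G.Adj z (P 1) → False := by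
    intro z hz hz0 hz1
    by_cases hzP : ∀ i < N, z ≠ P i
    · have hQ : TP G (N - 1 + 1) (cons z (fun i => P (i + 1))) := by
        refine (h.shift 1).cons (by omega) (fun i hi => hzP _ (by omega)) ?_ ?_
        · simpa using hz1
        · intro _ hadj
          exact hl.L1 (v := P 1) (a := P 0) (b := z) (c := P 2) a01.symm hz1.symm a12 n02
            hz0.symm (by simpa using hadj)
      have eN : N - 1 + 1 = N := by omega
      rw [eN] at hQ
      obtain ⟨-, g, hg, hgP, hgm, hg10⟩ := first_cycle hl hP hQ hN2 hmax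
      have hc : G.Adj (P 9) z := by
        have h1 := hg.adj 9
        have h2 := hgP 9 (by norm_num)
        norm_num at h1 h2
        rw [h2, hg10] at h1
        exact h1
      exact hl.L1 (v := z) (a := P 9) (b := P 0) (c := P 1) hc.symm hz0 hz1 n19.symm a90 a01
    · push Not at hzP
      obtain ⟨q, hq, rfl⟩ := hzP
      have hq10 := inP _ hz q rfl
      have h910 : G.Adj (P 9) (P 10) := h.adj 9 (by omega)
      have o10 := outP 10 (le_refl _) (by omega)
      have hs := hf.side hl (i := 9) (z := P 10) (by rw [f9]; exact h910) (o10 _) (o10 _)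
      have h100 : G.Adj (P 10) (P 0) := by
        rcases hs with hs | hs
        · exfalso
          norm_num at hs
          rw [f8] at hs
          exact h.thin 8 (by omega) hs.symm
        · norm_num at hs
          rwa [hf10] at hs
      have heq := hf.un hl halt (i := 0) (a := P q) (b := P 10) (by rw [f0]; exact hz0.symm)
        (hz _) (hz _) (by rw [f0]; exact h100.symm) (o10 _) (o10 _)
      rw [heq] at hz1
      exact hl.L1 (v := P 10) (a := P 9) (b := P 0) (c := P 1) h910.symm h100 hz1 n19.symm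
        a90 a01
  -- the outside neighbours of `P 1` and `P 0`
  obtain ⟨z, hz1, hz0, hz2⟩ := hl.deg (f 1) (f 0) (f 2)
  have oz : ∀ k, z ≠ f k := hf.outside hl (i := 1) hz1 (by norm_num; exact hz0)
    (by norm_num; exact hz2)
  have zP2 : G.Adj z (P 2) := by
    rcases hf.side hl (i := 1) hz1 (oz _) (oz _) with hs | hs
    · norm_num at hs
      rw [f0] at hs
      rw [f1] at hz1
      exact (step1 z oz hs hz1.symm).elim
    · norm_num at hs
      rwa [f2] at hs
  rw [f1] at hz1
  obtain ⟨y, hy0, hym, hy1⟩ := hl.deg (f 0) (f (-1)) (f 1)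
  have oy : ∀ k, y ≠ f k := hf.outside hl (i := 0) hy0 (by norm_num; exact hym)
    (by norm_num; exact hy1)
  have yP9 : G.Adj y (P 9) := by
    rcases hf.side hl (i := 0) hy0 (oy _) (oy _) with hs | hs
    · norm_num at hs
      rwa [hfm] at hs
    · norm_num at hs
      rw [f1] at hs
      rw [f0] at hy0
      exact (step1 y oy hy0.symm hs).elim
  rw [f0] at hy0
  have zneP : ∀ a : ℕ, a < 10 → z ≠ P a := fun a ha => by rw [← hfP a ha]; exact oz a
  have yneP : ∀ a : ℕ, a < 10 → y ≠ P a := fun a ha => by rw [← hfP a ha]; exact oy a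
  have hzy : z ≠ y := by
    intro heq
    rw [heq] at hz1
    exact step1 y oy hy0.symm hz1.symm
  have step3 : ¬ G.Adj z y := by
    intro hadj
    exact hl.c4 z y (P 0) (P 1) hadj hy0.symm a01 hz1 (zneP 0 (by norm_num)) (yneP 1 (by norm_num))
  have U9 : ∀ x, (∀ k, x ≠ f k) → G.Adj (P 9) x → x = y := by
    intro x ox hx
    exact hf.un hl halt (i := 9) (by rw [f9]; exact hx) (ox _) (ox _)
      (by rw [f9]; exact yP9.symm) (oy _) (oy _)
  have U2 : ∀ x, (∀ k, x ≠ f k) → G.Adj (P 2) x → x = z := by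
    intro x ox hx
    exact hf.un hl halt (i := 2) (by rw [f2]; exact hx) (ox _) (ox _)
      (by rw [f2]; exact zP2.symm) (oz _) (oz _)
  have z3 : ¬ G.Adj z (P 3) := by
    intro hadj
    exact hl.L1 (v := P 2) (a := P 1) (b := z) (c := P 3) a12.symm zP2.symm a23 n13 hz1 hadj
  by_cases hzP : ∀ i < N, z ≠ P i
  · -- Step 4
    obtain ⟨w, hw, hw1, hw2⟩ := hl.deg z (P 1) (P 2)
    have hw2' : ¬ G.Adj w (P 2) := by
      intro hadj
      exact hl.L1 (v := z) (a := P 1) (b := P 2) (c := w) hz1.symm zP2 hw hw1.symm a12 hadj.symm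
    have hR : TP G (N - 2 + 1) (cons z (fun i => P (i + 2))) := by
      refine (h.shift 2).cons (by omega) (fun i hi => hzP _ (by omega)) ?_ ?_
      · simpa using zP2
      · intro _ hadj
        exact z3 (by simpa using hadj)
    by_cases hwP : ∀ i < N, w ≠ P i
    · -- 4a
      have hQ : TP G (N - 2 + 1 + 1) (cons w (cons z (fun i => P (i + 2)))) := by
        refine hR.cons (by omega) ?_ ?_ ?_
        · intro i hi
          rcases i with _ | i
          · rw [cons_zero]; exact hw.ne'
          · rw [cons_succ]; exact hwP _ (by omega)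
        · rw [cons_zero]; exact hw.symm
        · intro _
          rw [show (1 : ℕ) = 0 + 1 from rfl, cons_succ]
          simpa using hw2'
      have eN : N - 2 + 1 + 1 = N := by omega
      rw [eN] at hQ
      obtain ⟨-, g, hg, hgP, hgm, hg10⟩ := first_cycle hl hP hQ hN2 hmax
      have hc : G.Adj (P 9) w := by
        have h1 := hg.adj 9
        have h2 := hgP 9 (by norm_num)
        norm_num at h1 h2
        rw [h2, hg10] at h1
        exact h1
      have hwy := U9 w (out w (fun a ha => hwP a (by omega))) hc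
      rw [hwy] at hw
      exact step3 hw
    · -- 4b
      push Not at hwP
      obtain ⟨q, hqN, rfl⟩ := hwP
      by_cases hq10 : q < 10
      · have hzq : G.Adj (f q) z := by rw [hfP q hq10]; exact hw.symm
        have hq1 : q ≠ 1 := by rintro rfl; exact hw1 rfl
        have hq2 : q ≠ 2 := by rintro rfl; exact hw2 rfl
        have zf1 : G.Adj z (f 1) := by rw [f1]; exact hz1.symm
        have zf2 : G.Adj z (f 2) := by rw [f2]; exact zP2
        have hND : ∀ e : ℤ, -1 ≤ e → e < 10 → e ≠ 1 → G.Adj z (f e) → G.Adj z (f (e + 1)) →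
            False := by
          intro e he1 he2 he3 hze hze1
          rcases lt_or_gt_of_ne he3 with h1 | h1
          · exact hnd z e 1 oz hze hze1 zf1 (by norm_num; exact zf2) h1 (by push_cast; omega)
          · exact hnd z 1 e oz zf1 (by norm_num; exact zf2) hze hze1 h1 (by push_cast; omega)
        rcases hf.side hl (i := q) hzq (oz _) (oz _) with hs | hs
        · refine hND (q - 1) (by omega) (by omega) (by omega) hs ?_
          rw [sub_add_cancel]; exact hzq.symm
        · exact hND q (by omega) (by omega) (by omega) hzq.symm hs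
      · have hex : ∃ q', 10 ≤ q' ∧ q' < N ∧ G.Adj z (P q') := ⟨q, by omega, hqN, hw⟩
        set q' := Nat.find hex with hq'
        obtain ⟨g1, g2, g3⟩ := Nat.find_spec hex
        rw [← hq'] at g1 g2 g3
        have hprev : ¬ G.Adj z (P (q' - 1)) := by
          intro hadj
          by_cases hq : q' = 10
          · rw [hq] at hadj
            exact hzy (U9 z oz (by simpa using hadj.symm))
          · have := Nat.find_min' hex ⟨show 10 ≤ q' - 1 by omega, by omega, hadj⟩
            omega
        obtain ⟨g, hg, -, -, -⟩ := mkTC (G := G) (cons z (fun i => P (i + 2))) q' (by omega)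
          (fun a b hab hb => hR.inj a b hab (by omega)) (fun a ha => hR.adj a (by omega))
          (by
            obtain ⟨s, hs⟩ : ∃ s, q' = s + 2 := ⟨q' - 2, by omega⟩
            rw [hs, show s + 2 - 1 = s + 1 from rfl, cons_succ, cons_zero, ← hs]
            exact g3.symm)
          (fun a ha => hR.thin a (by omega))
          (by
            obtain ⟨s, hs⟩ : ∃ s, q' = s + 3 := ⟨q' - 3, by omega⟩
            rw [hs, show s + 3 - 2 = s + 1 from rfl, cons_succ, cons_zero]
            have e : s + 2 = q' - 1 := by omega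
            rw [e]
            exact fun hadj => hprev hadj.symm)
          (by
            obtain ⟨s, hs⟩ : ∃ s, q' = s + 2 := ⟨q' - 2, by omega⟩
            rw [hs, show s + 2 - 1 = s + 1 from rfl, cons_succ, show (1 : ℕ) = 0 + 1 from rfl,
              cons_succ, ← hs]
            intro hadj
            have := U2 (P q') (outP q' g1 g2) (by simpa using hadj.symm)
            exact hzP q' g2 this.symm)
        have h10 := (thin_structure hl hP q' g hg).1
        rw [h10] at g3
        have h910 : G.Adj (P 9) (P 10) := h.adj 9 (by omega)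
        have := U9 (P 10) (outP 10 (le_refl _) (by omega)) h910
        rw [this] at g3
        exact step3 g3
  · -- Step 5
    push Not at hzP
    obtain ⟨q, hqN, hzq⟩ := hzP
    have hq10 := inP z oz q hzq
    have h910 : G.Adj (P 9) (P 10) := h.adj 9 (by omega)
    have h10y := U9 (P 10) (outP 10 (le_refl _) (by omega)) h910
    have hqne : q ≠ 10 := by
      rintro rfl
      exact hzy (hzq.trans h10y)
    have hR := h.shift 2
    obtain ⟨g, hg, -, -, -⟩ := mkTC (G := G) (fun i => P (i + 2)) (q - 1) (by omega)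
      (fun a b hab hb => hR.inj a b hab (by omega)) (fun a ha => hR.adj a (by omega))
      (by
        have e : q - 1 - 1 + 2 = q := by omega
        show G.Adj (P (q - 1 - 1 + 2)) (P (0 + 2))
        rw [e, ← hzq]
        exact zP2)
      (fun a ha => hR.thin a (by omega))
      (by
        have e : q - 1 - 2 + 2 = q - 1 := by omega
        show ¬ G.Adj (P (q - 1 - 2 + 2)) (P (0 + 2))
        rw [e]
        intro hadj
        have := U2 (P (q - 1)) (outP (q - 1) (by omega) (by omega)) hadj.symm
        rw [hzq] at this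
        exact h.inj (q - 1) q (by omega) hqN this)
      (by
        have e : q - 1 - 1 + 2 = q := by omega
        show ¬ G.Adj (P (q - 1 - 1 + 2)) (P (1 + 2))
        rw [e, ← hzq]
        exact z3)
    have h10 := (thin_structure hl hP (q - 1) g hg).1
    have hq11 : q = 11 := by omega
    subst hq11
    have h1011 : G.Adj (P 10) (P 11) := h.adj 10 (by omega)
    rw [h10y, ← hzq] at h1011
    exact step3 h1011.symm

end Pool.Agent.H52.PP
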