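import Pool.Agent.H52.PPD

set_option autoImplicit false

/-!
# Caro's question on cycles of perfect power length: claw-free graphs

`ClawFree G`: no vertex of `G` has three pairwise non-adjacent neighbours.
-/

namespace Pool.Agent.Results.MP_bb4f54_co.ClawFree

/-- No vertex has three pairwise non-adjacent neighbours. -/
def ClawFree {V : Type} (G : SimpleGraph V) : Prop :=
  ∀ v a b c : V, G.Adj v a → G.Adj v b → G.Adj v c → a ≠ b → a ≠ c → b ≠ c →
    G.Adj a b ∨ G.Adj a c ∨ G.Adj b c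

theorem loc_of {V : Type} [Fintype V] [DecidableEq V] (G : SimpleGraph V) [DecidableRel G.Adj]
    (h3 : 3 ≤ G.minDegree) (hc : ClawFree G)
    (h4 : ¬ ∃ (v : V) (p : G.Walk v v), p.IsCycle ∧ p.length = 4) :
    Pool.Agent.H52.PP.Loc G := by
  refine ⟨hc, ?_, ?_⟩
  · intro a b c d hab hbc hcd hda hac hbd
    apply h4
    refine ⟨a, SimpleGraph.Walk.cons hab (SimpleGraph.Walk.cons hbc (SimpleGraph.Walk.cons hcd
      (SimpleGraph.Walk.cons hda SimpleGraph.Walk.nil))), ?_, rfl⟩
    have h1 := Pool.Agent.H52.PP.close_cycle (SimpleGraph.Walk.cons hbc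
      (SimpleGraph.Walk.cons hcd (SimpleGraph.Walk.cons hda SimpleGraph.Walk.nil))) ?_ (by simp) hab
    · exact h1
    · simp only [SimpleGraph.Walk.cons_isPath_iff, SimpleGraph.Walk.support_cons,
        SimpleGraph.Walk.support_nil, List.mem_cons, List.not_mem_nil, or_false]
      refine ⟨⟨⟨SimpleGraph.Walk.IsPath.nil, hda.ne⟩, ?_⟩, ?_⟩
      · push Not; exact ⟨hcd.ne, hac.symm⟩
      · push Not; exact ⟨hbc.ne, hbd, hab.ne'⟩
  · intro v a b
    have h1 : 3 ≤ (G.neighborFinset v).card := by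
      rw [G.card_neighborFinset_eq_degree]
      exact h3.trans (G.minDegree_le_degree v)
    have h2 : ({a, b} : Finset V).card ≤ 2 := Finset.card_le_two
    obtain ⟨c, hc1, hc2⟩ := Finset.exists_mem_notMem_of_card_lt_card
      (show ({a, b} : Finset V).card < (G.neighborFinset v).card by omega)
    rw [SimpleGraph.mem_neighborFinset] at hc1
    simp only [Finset.mem_insert, Finset.mem_singleton, not_or] at hc2
    exact ⟨c, hc1, hc2.1, hc2.2⟩

/-- **Claw-free graphs.** Let `G` be a finite claw-free graph of minimum degree at least `3`.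
(1) `G` contains a cycle whose length is a non-trivial power; more precisely, a cycle whose length
is `8` or a square `a²`, `a ≥ 2`.
(2) `G` contains a cycle of length `4`, or there is `c ≥ 5` such that `G` has cycles of all the
lengths `c, c + 1, …, c + ⌈c/2⌉`. -/
theorem result (V : Type) [Fintype V] [DecidableEq V] (G : SimpleGraph V) [DecidableRel G.Adj]
    (h3 : 3 ≤ G.minDegree) (hc : ClawFree G) :
    (∃ (v : V) (p : G.Walk v v), p.IsCycle ∧
      ∃ a k : ℕ, 2 ≤ a ∧ 2 ≤ k ∧ p.length = a ^ k ∧ (k = 2 ∨ a ^ k = 8)) ∧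
    ((∃ (v : V) (p : G.Walk v v), p.IsCycle ∧ p.length = 4) ∨
      ∃ c, 5 ≤ c ∧ ∀ m, c ≤ m → m ≤ c + (c + 1) / 2 →
        ∃ (v : V) (p : G.Walk v v), p.IsCycle ∧ p.length = m) := by
  have hne : Nonempty V := by
    by_contra hcon
    rw [not_nonempty_iff] at hcon
    have : G.minDegree = 0 := by
      simp [SimpleGraph.minDegree]
    omega
  by_cases h4 : ∃ (v : V) (p : G.Walk v v), p.IsCycle ∧ p.length = 4
  · refine ⟨?_, Or.inl h4⟩
    obtain ⟨v, p, hp1, hp2⟩ := h4
    exact ⟨v, p, hp1, 2, 2, le_refl _, le_refl _, by rw [hp2]; norm_num, Or.inl rfl⟩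
  · have hl := loc_of G h3 hc h4
    refine ⟨?_, Or.inr (Pool.Agent.H52.PP.interval hl)⟩
    obtain ⟨v, p, hp1, hp2⟩ := Pool.Agent.H52.PP.main hl
    rcases hp2 with hp2 | ⟨a, ha, hp2⟩
    · exact ⟨v, p, hp1, 2, 3, le_refl _, by norm_num, by rw [hp2]; norm_num, Or.inr (by norm_num)⟩
    · exact ⟨v, p, hp1, a, 2, ha, le_refl _, hp2, Or.inl rfl⟩

end Pool.Agent.Results.MP_bb4f54_co.ClawFree
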