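import Mathlib

set_option autoImplicit false

/-! # Thin cycles in graphs whose edges in no triangle form a matching -/

namespace Pool.Agent.H52.PQ

open Finset Classical

variable {V : Type} {G : SimpleGraph V}

/-- Without 4-cycles, minimum degree at least 3, and at most one edge at each vertex is in no
triangle. -/
structure Loc (G : SimpleGraph V) : Prop where
  c4 : ∀ a b c d, G.Adj a b → G.Adj b c → G.Adj c d → G.Adj d a → a ≠ c → b ≠ d → False
  deg : ∀ v a b, ∃ c, G.Adj v c ∧ c ≠ a ∧ c ≠ b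
  one : ∀ v a b, G.Adj v a → G.Adj v b → a ≠ b →
    (∃ x, G.Adj x v ∧ G.Adj x a) ∨ (∃ x, G.Adj x v ∧ G.Adj x b)

theorem Loc.L1 (hl : Loc G) {v a b c : V} (hva : G.Adj v a) (hvb : G.Adj v b) (hvc : G.Adj v c)
    (hac : a ≠ c) (hab : G.Adj a b) (hbc : G.Adj b c) : False :=
  hl.c4 v a b c hva hab hbc hvc.symm hvb.ne hac

/-- Thin cycles: no two consecutive edges lie in a triangle. -/
structure TC (G : SimpleGraph V) (n : ℕ) (f : ℤ → V) : Prop where
  three : 3 ≤ n
  per : ∀ i, f (i + n) = f i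
  inj : ∀ i j : ℤ, i < j → j < i + n → f i ≠ f j
  adj : ∀ i, G.Adj (f i) (f (i + 1))
  thin : ∀ i, ¬ G.Adj (f i) (f (i + 2))

theorem TC.adj' {n : ℕ} {f : ℤ → V} (h : TC G n f) {i j : ℤ} (hij : j = i + 1) :
    G.Adj (f i) (f j) := by
  subst hij; exact h.adj i

theorem TC.thin' {n : ℕ} {f : ℤ → V} (h : TC G n f) {i j : ℤ} (hij : j = i + 2) :
    ¬ G.Adj (f i) (f j) := by
  subst hij; exact h.thin i

theorem TC.perk {n : ℕ} {f : ℤ → V} (h : TC G n f) (k i : ℤ) : f (i + k * n) = f i := by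
  have hp : Function.Periodic f (n : ℤ) := h.per
  exact (hp.int_mul k) i

theorem TC.rep {n : ℕ} {f : ℤ → V} (h : TC G n f) (i j : ℤ) :
    ∃ j', i ≤ j' ∧ j' < i + n ∧ f j' = f j := by
  have hn : (0 : ℤ) < n := by have := h.three; omega
  refine ⟨i + (j - i) % n, ?_, ?_, ?_⟩
  · have := Int.emod_nonneg (j - i) hn.ne'; omega
  · have := Int.emod_lt_of_pos (j - i) hn; omega
  · have h1 := h.perk ((j - i) / n) (i + (j - i) % n)
    rw [← h1]
    congr 1
    have := Int.emod_add_mul_ediv (j - i) n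
    have h2 : (j - i) / n * n = n * ((j - i) / n) := mul_comm _ _
    rw [h2]
    linarith

theorem TC.five (hl : Loc G) {n : ℕ} {f : ℤ → V} (h : TC G n f) : 5 ≤ n := by
  have h3 := h.three
  by_contra hcon
  have h34 : n = 3 ∨ n = 4 := by omega
  rcases h34 with rfl | rfl
  · have h1 := h.adj 2
    have h2 := h.per 0
    norm_num at h1 h2
    rw [h2] at h1
    exact h.thin 0 (by simpa using h1.symm)
  · have h1 := h.adj 0
    have h2 := h.adj 1
    have h3 := h.adj 2
    have h4 := h.adj 3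
    have h5 := h.per 0
    norm_num at h1 h2 h3 h4 h5
    rw [h5] at h4
    exact hl.c4 (f 0) (f 1) (f 2) (f 3) h1 h2 h3 h4 (h.inj 0 2 (by norm_num) (by norm_num))
      (h.inj 1 3 (by norm_num) (by norm_num))

/-- The edge `f i, f (i+1)` lies in a triangle. -/
def Tri (G : SimpleGraph V) (f : ℤ → V) (i : ℤ) : Prop :=
  ∃ z, G.Adj z (f i) ∧ G.Adj z (f (i + 1))

theorem TC.cover (hl : Loc G) {n : ℕ} {f : ℤ → V} (h : TC G n f) (i : ℤ) :
    Tri G f (i - 1) ∨ Tri G f i := by
  have h3 := h.three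
  rcases hl.one (f i) (f (i - 1)) (f (i + 1)) (h.adj' (by ring)).symm (h.adj i)
    (h.inj _ _ (by omega) (by omega)) with ⟨x, h1, h2⟩ | ⟨x, h1, h2⟩
  · left
    refine ⟨x, h2, ?_⟩
    rw [sub_add_cancel]; exact h1
  · right; exact ⟨x, h1, h2⟩

/-- Apices are outside the cycle, and no vertex is an apex of two edges. -/
structure Good (G : SimpleGraph V) (n : ℕ) (f : ℤ → V) : Prop where
  out : ∀ (z : V) (i : ℤ), G.Adj z (f i) → G.Adj z (f (i + 1)) → ∀ k, z ≠ f k
  nd : ∀ (z : V) (i j : ℤ), G.Adj z (f i) → G.Adj z (f (i + 1)) →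
    G.Adj z (f j) → G.Adj z (f (j + 1)) → i < j → j < i + n → False

/-- No two consecutive edges lie in triangles. -/
def Alt (G : SimpleGraph V) (f : ℤ → V) : Prop := ∀ i, ¬ (Tri G f (i - 1) ∧ Tri G f i)

/-- Thin cycles from sequences. -/
theorem mkTC (g : ℕ → V) (n : ℕ) (hn : 3 ≤ n) (hinj : ∀ a b, a < b → b < n → g a ≠ g b)
    (hadj : ∀ a, a + 1 < n → G.Adj (g a) (g (a + 1))) (hclose : G.Adj (g (n - 1)) (g 0))
    (hthin : ∀ a, a + 2 < n → ¬ G.Adj (g a) (g (a + 2)))
    (ht1 : ¬ G.Adj (g (n - 2)) (g 0)) (ht2 : ¬ G.Adj (g (n - 1)) (g 1)) :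
    ∃ f : ℤ → V, TC G n f ∧ (∀ a : ℕ, a < n → f a = g a) ∧ f (-1) = g (n - 1) ∧ f n = g 0 := by
  have hn0 : (0 : ℤ) < n := by omega
  set f : ℤ → V := fun i => g ((i % n).toNat) with hf
  have key : ∀ (q : ℤ) (r : ℕ), r < n → f (q * n + r) = g r := by
    intro q r hr
    have h1 : (q * n + r) % (n : ℤ) = r := by
      rw [add_comm, Int.add_mul_emod_self_right]
      exact Int.emod_eq_of_lt (by omega) (by omega)
    simp only [hf, h1, Int.toNat_natCast]
  have key' : ∀ (x q : ℤ) (r : ℕ), r < n → x = q * n + r → f x = g r := by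
    intro x q r hr hx; rw [hx]; exact key q r hr
  have dec : ∀ i : ℤ, ∃ (q : ℤ) (r : ℕ), r < n ∧ i = q * n + r := by
    intro i
    refine ⟨i / n, (i % n).toNat, ?_, ?_⟩
    · have := Int.emod_lt_of_pos i hn0
      have h2 := Int.emod_nonneg i hn0.ne'
      omega
    · have h2 := Int.emod_nonneg i hn0.ne'
      rw [Int.toNat_of_nonneg h2]
      have := Int.emod_add_mul_ediv i n
      linarith [mul_comm (i / n) (n : ℤ)]
  refine ⟨f, ⟨hn, ?_, ?_, ?_, ?_⟩, ?_, ?_, ?_⟩
  · intro i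
    obtain ⟨q, r, hr, rfl⟩ := dec i
    rw [key q r hr]
    exact key' _ (q + 1) r hr (by ring)
  · intro i j hij hji heq
    obtain ⟨q, r, hr, rfl⟩ := dec i
    obtain ⟨q', r', hr', rfl⟩ := dec j
    rw [key q r hr, key q' r' hr'] at heq
    have hrr : r = r' := by
      rcases lt_trichotomy r r' with h1 | h1 | h1
      · exact absurd heq (hinj r r' h1 hr')
      · exact h1
      · exact absurd heq.symm (hinj r' r h1 hr)
    subst hrr
    have h1 : q * n < q' * n := by linarith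
    have h2 : q' * n < (q + 1) * n := by linarith
    have h3 : q < q' := lt_of_mul_lt_mul_right h1 hn0.le
    have h4 : q' < q + 1 := lt_of_mul_lt_mul_right h2 hn0.le
    omega
  · intro i
    obtain ⟨q, r, hr, rfl⟩ := dec i
    rw [key q r hr]
    by_cases h1 : r + 1 < n
    · rw [key' _ q (r + 1) h1 (by push_cast; ring)]
      exact hadj r h1
    · have h2 : r = n - 1 := by omega
      rw [key' _ (q + 1) 0 (by omega) (by rw [h2]; push_cast [Nat.cast_sub (show 1 ≤ n by omega)]; ring)]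
      rw [h2]; exact hclose
  · intro i
    obtain ⟨q, r, hr, rfl⟩ := dec i
    rw [key q r hr]
    by_cases h1 : r + 2 < n
    · rw [key' _ q (r + 2) h1 (by push_cast; ring)]
      exact hthin r h1
    · by_cases h2 : r = n - 1
      · rw [key' _ (q + 1) 1 (by omega) (by rw [h2]; push_cast [Nat.cast_sub (show 1 ≤ n by omega)]; ring)]
        rw [h2]; exact ht2
      · have h3 : r = n - 2 := by omega
        rw [key' _ (q + 1) 0 (by omega) (by rw [h3]; push_cast [Nat.cast_sub (show 2 ≤ n by omega)]; ring)]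
        rw [h3]; exact ht1
  · intro a ha
    exact key' _ 0 a ha (by ring)
  · exact key' _ (-1) (n - 1) (by omega) (by push_cast [Nat.cast_sub (show 1 ≤ n by omega)]; ring)
  · exact key' _ 1 0 (by omega) (by push_cast; ring)

end Pool.Agent.H52.PQ
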