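import Pool.Agent.H52.PQA

set_option autoImplicit false

/-! # Cycles in claw-free graphs: inflating thin cycles -/

namespace Pool.Agent.H52.PQ

open Finset Classical

variable {V : Type} {G : SimpleGraph V}

/-- Inflating a path by apices of triangles. -/
theorem inflate (f z : ℕ → V) (K : ℕ → Prop) (m : ℕ)
    (hadj : ∀ i < m, G.Adj (f i) (f (i + 1))) (hf : ∀ i j, i < j → j ≤ m → f i ≠ f j)
    (hz : ∀ i < m, K i → G.Adj (z i) (f i) ∧ G.Adj (z i) (f (i + 1)))
    (hzf : ∀ i < m, K i → ∀ j ≤ m, z i ≠ f j)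
    (hzz : ∀ i j, i < j → j < m → K i → K j → z i ≠ z j) :
    ∀ k ≤ m, ∀ t ≤ ((range k).filter K).card, ∃ p : G.Walk (f k) (f 0), p.IsPath ∧
      p.length = k + t ∧ ∀ v ∈ p.support, (∃ j ≤ k, v = f j) ∨ (∃ j < k, K j ∧ v = z j) := by
  intro k
  induction k with
  | zero =>
    intro _ t ht
    simp only [range_zero, filter_empty, card_empty, nonpos_iff_eq_zero] at ht
    subst ht
    refine ⟨SimpleGraph.Walk.nil, SimpleGraph.Walk.IsPath.nil, rfl, ?_⟩
    intro v hv
    simp only [SimpleGraph.Walk.support_nil, List.mem_singleton] at hv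
    exact Or.inl ⟨0, le_refl _, hv⟩
  | succ k ih =>
    intro hk t ht
    have hkm : k < m := by omega
    by_cases hKk : K k ∧ t ≠ 0
    · obtain ⟨hKk, ht0⟩ := hKk
      rw [Finset.range_add_one, Finset.filter_insert, if_pos hKk, Finset.card_insert_of_notMem
        (by simp)] at ht
      obtain ⟨p, hp1, hp2, hp3⟩ := ih (by omega) (t - 1) (by omega)
      have hzk := hz k hkm hKk
      have hznot : z k ∉ p.support := by
        intro hmem
        rcases hp3 _ hmem with ⟨j, hj, he⟩ | ⟨j, hj, hKj, he⟩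
        · exact hzf k hkm hKk j (by omega) he
        · exact hzz j k hj hkm hKj hKk he.symm
      have hfnot : f (k + 1) ∉ p.support := by
        intro hmem
        rcases hp3 _ hmem with ⟨j, hj, he⟩ | ⟨j, hj, hKj, he⟩
        · exact hf j (k + 1) (by omega) hk he.symm
        · exact hzf j (by omega) hKj (k + 1) hk he.symm
      refine ⟨SimpleGraph.Walk.cons hzk.2.symm (SimpleGraph.Walk.cons hzk.1 p), ?_, ?_, ?_⟩
      · rw [SimpleGraph.Walk.cons_isPath_iff, SimpleGraph.Walk.cons_isPath_iff]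
        refine ⟨⟨hp1, hznot⟩, ?_⟩
        rw [SimpleGraph.Walk.support_cons, List.mem_cons]
        push Not
        exact ⟨(hzf k hkm hKk (k + 1) hk).symm, hfnot⟩
      · rw [SimpleGraph.Walk.length_cons, SimpleGraph.Walk.length_cons, hp2]; omega
      · intro v hv
        rw [SimpleGraph.Walk.support_cons, SimpleGraph.Walk.support_cons, List.mem_cons,
          List.mem_cons] at hv
        rcases hv with rfl | rfl | hv
        · exact Or.inl ⟨k + 1, le_refl _, rfl⟩
        · exact Or.inr ⟨k, by omega, hKk, rfl⟩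
        · rcases hp3 _ hv with ⟨j, hj, he⟩ | ⟨j, hj, hKj, he⟩
          · exact Or.inl ⟨j, by omega, he⟩
          · exact Or.inr ⟨j, by omega, hKj, he⟩
    · have ht' : t ≤ ((range k).filter K).card := by
        rw [Finset.range_add_one, Finset.filter_insert] at ht
        by_cases h1 : K k
        · have : t = 0 := by
            by_contra h2; exact hKk ⟨h1, h2⟩
          omega
        · rwa [if_neg h1] at ht
      obtain ⟨p, hp1, hp2, hp3⟩ := ih (by omega) t ht'
      have hfnot : f (k + 1) ∉ p.support := by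
        intro hmem
        rcases hp3 _ hmem with ⟨j, hj, he⟩ | ⟨j, hj, hKj, he⟩
        · exact hf j (k + 1) (by omega) hk he.symm
        · exact hzf j (by omega) hKj (k + 1) hk he.symm
      refine ⟨SimpleGraph.Walk.cons (hadj k hkm).symm p, ?_, ?_, ?_⟩
      · rw [SimpleGraph.Walk.cons_isPath_iff]; exact ⟨hp1, hfnot⟩
      · rw [SimpleGraph.Walk.length_cons, hp2]; omega
      · intro v hv
        rw [SimpleGraph.Walk.support_cons, List.mem_cons] at hv
        rcases hv with rfl | hv
        · exact Or.inl ⟨k + 1, le_refl _, rfl⟩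
        · rcases hp3 _ hv with ⟨j, hj, he⟩ | ⟨j, hj, hKj, he⟩
          · exact Or.inl ⟨j, by omega, he⟩
          · exact Or.inr ⟨j, by omega, hKj, he⟩

/-- Closing a path to a cycle. -/
theorem close_cycle {u v : V} (p : G.Walk u v) (hp : p.IsPath) (h2 : 2 ≤ p.length)
    (h : G.Adj v u) : (SimpleGraph.Walk.cons h p).IsCycle := by
  rw [SimpleGraph.Walk.cons_isCycle_iff]
  refine ⟨hp, ?_⟩
  cases p with
  | nil => simp at h2
  | @cons _ x _ hux q =>
    rw [SimpleGraph.Walk.cons_isPath_iff] at hp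
    rw [SimpleGraph.Walk.edges_cons, List.mem_cons]
    push Not
    refine ⟨?_, ?_⟩
    · intro he
      have hxv : x = v := by
        rw [Sym2.eq_iff] at he
        rcases he with ⟨h3, h4⟩ | ⟨h3, h4⟩
        · exact absurd h3.symm h.ne'
        · exact h3.symm
      subst hxv
      have := hp.1
      have h3 : q.Nil := by
        rwa [SimpleGraph.Walk.isPath_iff_nil] at this
      have h4 := SimpleGraph.Walk.nil_iff_length_eq.1 h3
      rw [SimpleGraph.Walk.length_cons, h4] at h2
      omega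
    · intro he
      exact hp.2 (q.snd_mem_support_of_mem_edges he)

/-- A thin cycle without double apices whose closing edge is not used can be inflated. -/
theorem TC.cycles (hl : Loc G) {n : ℕ} {f : ℤ → V} (h : TC G n f) (hg : Good G n f) (t : ℕ)
    (ht : t ≤ ((range (n - 1)).filter (fun i : ℕ => Tri G f i)).card) :
    ∃ (v : V) (p : G.Walk v v), p.IsCycle ∧ p.length = n + t := by
  have h5 := h.five hl
  have hch : ∀ i : ℕ, ∃ z : V, Tri G f i → G.Adj z (f i) ∧ G.Adj z (f ((i : ℤ) + 1)) := by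
    intro i
    by_cases hi : Tri G f i
    · obtain ⟨z, hz⟩ := hi
      exact ⟨z, fun _ => hz⟩
    · exact ⟨f 0, fun h => absurd h hi⟩
  choose z hz using hch
  obtain ⟨p, hp1, hp2, -⟩ := inflate (G := G) (fun i : ℕ => f i) z (fun i : ℕ => Tri G f i) (n - 1)
    (by
      intro i hi
      have := h.adj i
      push_cast
      exact this)
    (by
      intro i j hij hj
      exact h.inj _ _ (by omega) (by omega))
    (by
      intro i hi hK
      have := hz i hK
      push_cast
      exact this)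
    (by
      intro i hi hK j hj
      exact hg.out (z i) i (hz i hK).1 (hz i hK).2 j)
    (by
      intro i j hij hj hKi hKj heq
      have h1 := hz i hKi
      have h2 := hz j hKj
      rw [← heq] at h2
      exact hg.nd (z i) i j h1.1 h1.2 h2.1 h2.2 (by omega) (by omega))
    (n - 1) (le_refl _) t ht
  have hcl : G.Adj (f ((0 : ℕ) : ℤ)) (f ((n - 1 : ℕ) : ℤ)) := by
    have h1 := h.adj ((n - 1 : ℕ) : ℤ)
    have h2 := h.per 0
    have h3 : ((n - 1 : ℕ) : ℤ) + 1 = 0 + n := by omega
    rw [h3, h2] at h1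
    exact h1.symm
  refine ⟨_, SimpleGraph.Walk.cons hcl p, close_cycle p hp1 (by rw [hp2]; omega) hcl, ?_⟩
  rw [SimpleGraph.Walk.length_cons, hp2]; omega

/-- The number `n` is `8` or a square `≥ 4`. -/
def Pow (n : ℕ) : Prop := n = 8 ∨ ∃ a : ℕ, 2 ≤ a ∧ n = a ^ 2

/-- Every interval `[n, 3n/2]` with `n ≥ 5`, `n ≠ 10`, contains 8 or a square. -/
theorem exists_pow (n T : ℕ) (hn : 5 ≤ n) (hT : n ≤ 2 * T) (h10 : n = 10 → 6 ≤ T) :
    ∃ t ≤ T, Pow (n + t) := by
  by_cases hn17 : n < 17
  · interval_cases n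
    · exact ⟨3, by omega, Or.inl rfl⟩
    · exact ⟨2, by omega, Or.inl rfl⟩
    · exact ⟨1, by omega, Or.inl rfl⟩
    · exact ⟨0, by omega, Or.inl rfl⟩
    · exact ⟨0, by omega, Or.inr ⟨3, by norm_num⟩⟩
    · exact ⟨6, h10 rfl, Or.inr ⟨4, by norm_num⟩⟩
    · exact ⟨5, by omega, Or.inr ⟨4, by norm_num⟩⟩
    · exact ⟨4, by omega, Or.inr ⟨4, by norm_num⟩⟩
    · exact ⟨3, by omega, Or.inr ⟨4, by norm_num⟩⟩
    · exact ⟨2, by omega, Or.inr ⟨4, by norm_num⟩⟩
    · exact ⟨1, by omega, Or.inr ⟨4, by norm_num⟩⟩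
    · exact ⟨0, by omega, Or.inr ⟨4, by norm_num⟩⟩
  · push Not at hn17
    have hex : ∃ m, n ≤ m ^ 2 := ⟨n, by nlinarith⟩
    set m := Nat.find hex with hm
    have hm1 : n ≤ m ^ 2 := Nat.find_spec hex
    have hm5 : 5 ≤ m := by
      by_contra hcon
      have : m ≤ 4 := by omega
      have : m ^ 2 ≤ 4 ^ 2 := Nat.pow_le_pow_left this 2
      omega
    have hm2 : (m - 1) ^ 2 < n := by
      by_contra hcon
      push Not at hcon
      have := Nat.find_min' hex hcon
      omega
    obtain ⟨m', hm'⟩ : ∃ m', m = m' + 1 := ⟨m - 1, by omega⟩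
    rw [hm'] at hm1 hm2 hm5
    rw [Nat.add_sub_cancel] at hm2
    refine ⟨m ^ 2 - n, ?_, Or.inr ⟨m, by omega, ?_⟩⟩
    · rw [hm']
      have h1 : (m' + 1) ^ 2 = m' ^ 2 + 2 * m' + 1 := by ring
      have h2 : 4 * m' ≤ m' ^ 2 := by nlinarith
      omega
    · rw [hm']; omega

end Pool.Agent.H52.PQ
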