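import Pool.Agent.H52.PQB

set_option autoImplicit false

/-! # Thin cycles in graphs whose edges in no triangle form a matching: structure -/

namespace Pool.Agent.H52.PQ

open Finset Classical

variable {V : Type} {G : SimpleGraph V}

theorem Tri.congr {f g : ℤ → V} {i j : ℤ} (h1 : f i = g j) (h2 : f (i + 1) = g (j + 1))
    (h : Tri G f i) : Tri G g j := by
  obtain ⟨z, h3, h4⟩ := h
  exact ⟨z, h1 ▸ h3, h2 ▸ h4⟩

theorem TC.tri_per {n : ℕ} {f : ℤ → V} (h : TC G n f) (k i : ℤ) (hf : Tri G f (i + k * n)) :
    Tri G f i := by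
  refine hf.congr (h.perk k i) ?_
  have := h.perk k (i + 1)
  rw [← this]; congr 1; ring

theorem TC.shift {n : ℕ} {f : ℤ → V} (h : TC G n f) (a : ℤ) : TC G n (fun k => f (k + a)) := by
  refine ⟨h.three, ?_, ?_, ?_, ?_⟩
  · intro i
    have := h.per (i + a)
    show f (i + n + a) = f (i + a)
    rw [← this]; congr 1; ring
  · intro i j h1 h2
    exact h.inj _ _ (by omega) (by omega)
  · intro i
    exact h.adj' (by ring)
  · intro i
    exact h.thin' (by ring)

theorem tri_shift {f : ℤ → V} (a i : ℤ) :
    Tri G (fun k => f (k + a)) i ↔ Tri G f (i + a) := by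
  have e : i + 1 + a = i + a + 1 := by ring
  constructor
  · rintro ⟨z, h2, h3⟩
    refine ⟨z, h2, ?_⟩
    rw [← e]; exact h3
  · rintro ⟨z, h2, h3⟩
    refine ⟨z, h2, ?_⟩
    show G.Adj z (f (i + 1 + a))
    rw [e]; exact h3

theorem Good.shift {n : ℕ} {f : ℤ → V} (h : Good G n f) (a : ℤ) :
    Good G n (fun k => f (k + a)) := by
  have e : ∀ i : ℤ, i + 1 + a = i + a + 1 := fun i => by ring
  refine ⟨?_, ?_⟩
  · intro z i h1 h2 k
    refine h.out z (i + a) h1 ?_ (k + a)
    rw [← e]; exact h2
  · intro z i j h1 h2 h3 h4 hij hji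
    refine h.nd z (i + a) (j + a) h1 ?_ h3 ?_ (by omega) (by omega)
    · rw [← e]; exact h2
    · rw [← e]; exact h4

/-- A chord gives a shorter thin cycle. -/
theorem TC.sub {n : ℕ} {f : ℤ → V} (h : TC G n f) (i : ℤ) (d : ℕ) (hd : 3 ≤ d) (hdn : d < n)
    (hadj : G.Adj (f (i + d)) (f i)) (h1 : ¬ G.Adj (f (i + d - 1)) (f i))
    (h2 : ¬ G.Adj (f (i + d)) (f (i + 1))) :
    ∃ g : ℤ → V, TC G (d + 1) g ∧ (∀ a : ℕ, a ≤ d → g a = f (i + a)) ∧ g (-1) = f (i + d) ∧
      g (-2) = f (i + d - 1) := by
  obtain ⟨g, hg, hg1, hg2, hg3⟩ := mkTC (G := G) (fun k : ℕ => f (i + k)) (d + 1) (by omega)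
    (fun a b hab hb => h.inj _ _ (by omega) (by omega))
    (fun a ha => h.adj' (by push_cast; ring))
    (by
      show G.Adj (f (i + ((d + 1 - 1 : ℕ) : ℤ))) (f (i + ((0 : ℕ) : ℤ)))
      rw [Nat.add_sub_cancel, Nat.cast_zero, add_zero]; exact hadj)
    (fun a ha => h.thin' (by push_cast; ring))
    (by
      show ¬ G.Adj (f (i + ((d + 1 - 2 : ℕ) : ℤ))) (f (i + ((0 : ℕ) : ℤ)))
      have e : i + ((d + 1 - 2 : ℕ) : ℤ) = i + d - 1 := by omega
      rw [e, Nat.cast_zero, add_zero]; exact h1)
    (by
      show ¬ G.Adj (f (i + ((d + 1 - 1 : ℕ) : ℤ))) (f (i + ((1 : ℕ) : ℤ)))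
      rw [Nat.add_sub_cancel, Nat.cast_one]; exact h2)
  refine ⟨g, hg, fun a ha => hg1 a (by omega), ?_, ?_⟩
  · rw [hg2]
    show f (i + ((d + 1 - 1 : ℕ) : ℤ)) = _
    rw [Nat.add_sub_cancel]
  · have h5 := hg.per (-2)
    rw [← h5]
    have h6 := hg1 (d - 1) (by omega)
    have e : (-2 : ℤ) + ((d + 1 : ℕ) : ℤ) = ((d - 1 : ℕ) : ℤ) := by omega
    rw [e, h6]
    show f (i + ((d - 1 : ℕ) : ℤ)) = _
    congr 1; omega

/-- A double apex gives a shorter thin cycle through it. -/
theorem TC.double (hl : Loc G) {n : ℕ} {f : ℤ → V} (h : TC G n f) {z : V} {i j : ℤ}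
    (hz : ∀ k, z ≠ f k) (h1 : G.Adj z (f i)) (h2 : G.Adj z (f (i + 1))) (h3 : G.Adj z (f j))
    (h4 : G.Adj z (f (j + 1))) (hij : i < j) (hji : j < i + n) :
    ∃ (m : ℕ) (g : ℤ → V), TC G m g ∧ m < n ∧ g (-1) = z ∧
      g (-2) = f j ∧ g 0 = f (i + 1) := by
  have hn5 := h.five hl
  have c1 : j ≠ i + 1 := by
    rintro rfl
    refine hl.L1 (v := f (i + 1)) (a := f i) (b := z) (c := f (i + 1 + 1)) (h.adj i).symm h2.symm
      (h.adj _) (h.inj _ _ (by omega) (by omega)) h1.symm h4
  have c2 : j ≠ i + 2 := by
    rintro rfl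
    refine hl.L1 (v := z) (a := f i) (b := f (i + 1)) (c := f (i + 2)) h1 h2 h3
      (h.inj _ _ (by omega) (by omega)) (h.adj i) (h.adj' (by ring))
  have c3 : j ≠ i + n - 1 := by
    rintro rfl
    have e1 : f (i + n - 1) = f (i - 1) := by rw [← h.per (i - 1)]; congr 1; ring
    rw [e1] at h3
    refine hl.L1 (v := f i) (a := f (i - 1)) (b := z) (c := f (i + 1)) (h.adj' (by ring)).symm
      h1.symm (h.adj i) (h.inj _ _ (by omega) (by omega)) h3.symm h2
  obtain ⟨d, hd⟩ : ∃ d : ℕ, j = i + d := ⟨(j - i).toNat, by omega⟩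
  subst hd
  have hd3 : 3 ≤ d := by omega
  set s : ℕ → V := fun k => if k < d then f (i + 1 + k) else z with hs
  have s1 : ∀ k, k < d → s k = f (i + 1 + k) := fun k hk => by simp only [hs, hk, if_true]
  have s2 : s d = z := by simp only [hs, lt_irrefl, if_false]
  obtain ⟨g, hg, hg1, hg2, hg3⟩ := mkTC (G := G) s (d + 1) (by omega)
    (by
      intro a b hab hb
      by_cases hbd : b < d
      · rw [s1 a (by omega), s1 b hbd]
        exact h.inj _ _ (by omega) (by omega)
      · have : b = d := by omega
        subst this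
        rw [s1 a (by omega), s2]
        exact (hz _).symm)
    (by
      intro a ha
      by_cases had : a + 1 < d
      · rw [s1 a (by omega), s1 (a + 1) had]
        exact h.adj' (by push_cast; ring)
      · have : a + 1 = d := by omega
        rw [s1 a (by omega), this, s2]
        have e : i + 1 + (a : ℤ) = i + d := by omega
        rw [e]; exact h3.symm)
    (by
      rw [Nat.add_sub_cancel, s2, s1 0 (by omega)]
      simpa using h2)
    (by
      intro a ha
      by_cases had : a + 2 < d
      · rw [s1 a (by omega), s1 (a + 2) had]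
        exact h.thin' (by push_cast; ring)
      · have : a + 2 = d := by omega
        rw [s1 a (by omega), this, s2]
        intro hadj
        have e : i + 1 + (a : ℤ) = i + d - 1 := by omega
        rw [e] at hadj
        exact hl.L1 (v := f (i + d)) (a := f (i + d + 1)) (b := z) (c := f (i + d - 1))
          (h.adj _) h3.symm (h.adj' (by ring)).symm
          (h.inj (i + d - 1) (i + d + 1) (by omega) (by omega)).symm h4.symm hadj.symm)
    (by
      have : d + 1 - 2 = d - 1 := by omega
      rw [this, s1 (d - 1) (by omega), s1 0 (by omega)]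
      have e : i + 1 + ((d - 1 : ℕ) : ℤ) = i + d := by omega
      rw [e]
      intro hadj
      exact hl.L1 (v := f (i + 1)) (a := f i) (b := z) (c := f (i + d)) (h.adj i).symm h2.symm
        (by simpa using hadj.symm) (h.inj _ _ (by omega) (by omega)) h1.symm h3)
    (by
      rw [Nat.add_sub_cancel, s2, s1 1 (by omega)]
      intro hadj
      have e : i + 1 + ((1 : ℕ) : ℤ) = i + 2 := by push_cast; ring
      rw [e] at hadj
      exact hl.L1 (v := f (i + 1)) (a := f i) (b := z) (c := f (i + 2)) (h.adj i).symm h2.symm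
        (h.adj' (by ring)) (h.inj _ _ (by omega) (by omega)) h1.symm hadj)
  refine ⟨d + 1, g, hg, by omega, ?_, ?_, ?_⟩
  · rw [hg2, Nat.add_sub_cancel, s2]
  · have h5 := hg.per (-2)
    rw [← h5]
    have h6 := hg1 (d - 1) (by omega)
    have e : (-2 : ℤ) + ((d + 1 : ℕ) : ℤ) = ((d - 1 : ℕ) : ℤ) := by omega
    rw [e, h6, s1 (d - 1) (by omega)]
    congr 1; omega
  · have h6 := hg1 0 (by omega)
    rw [s1 0 (by omega)] at h6
    simpa using h6

/-- If all shorter thin cycles are alternating, then apices are outside and not double. -/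
theorem TC.goodOf (hl : Loc G) {n : ℕ} {f : ℤ → V} (h : TC G n f)
    (ih : ∀ m < n, ∀ g : ℤ → V, TC G m g → Alt G g) : Good G n f := by
  have hn5 := h.five hl
  have out : ∀ (z : V) (i : ℤ), G.Adj z (f i) → G.Adj z (f (i + 1)) → ∀ k, z ≠ f k := by
    intro z i h1 h2 k0 hk0
    obtain ⟨k, hk1, hk2, hk3⟩ := h.rep i k0
    rw [← hk3] at hk0
    subst hk0
    have e0 : k ≠ i := by rintro rfl; exact h1.ne rfl
    have e1 : k ≠ i + 1 := by rintro rfl; exact h2.ne rfl
    have e2 : k ≠ i + 2 := by rintro rfl; exact h.thin i h1.symm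
    have e3 : k ≠ i + 3 := by rintro rfl; exact h.thin' (i := i + 1) (j := i + 3) (by ring) h2.symm
    have e4 : k ≠ i + n - 1 := by
      rintro rfl
      have e : f (i + n - 1) = f (i - 1) := by rw [← h.per (i - 1)]; congr 1; ring
      rw [e] at h2
      exact h.thin' (i := i - 1) (j := i + 1) (by ring) h2
    have e5 : k ≠ i + n - 2 := by
      rintro rfl
      have e : f (i + n - 2) = f (i - 2) := by rw [← h.per (i - 2)]; congr 1; ring
      rw [e] at h1
      exact h.thin' (i := i - 2) (j := i) (by ring) h1
    have ni : f i ≠ f (k - 1) := h.inj _ _ (by omega) (by omega)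
    -- first cycle
    obtain ⟨d, hd⟩ : ∃ d : ℕ, k = i + 1 + d := ⟨(k - (i + 1)).toNat, by omega⟩
    obtain ⟨g, hg, hg1, hg2, hg3⟩ := h.sub (i + 1) d (by omega) (by omega)
      (by rw [← hd]; exact h2)
      (by
        rw [← hd]
        intro hadj
        exact hl.L1 (v := f k) (a := f i) (b := f (i + 1)) (c := f (k - 1)) h1 h2
          (h.adj' (by ring)).symm ni (h.adj i) hadj.symm)
      (by
        rw [← hd]
        intro hadj
        exact hl.L1 (v := f (i + 1)) (a := f i) (b := f k) (c := f (i + 1 + 1)) (h.adj i).symm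
          h2.symm (h.adj _) (h.inj _ _ (by omega) (by omega)) h1.symm hadj)
    have alt1 := ih (d + 1) (by omega) g hg (-1)
    rw [← hd] at hg2 hg3
    have g0 : g 0 = f (i + 1) := by
      have := hg1 0 (by omega)
      simpa using this
    have T1 : Tri G g (-1) := ⟨f i, by rw [hg2]; exact h1.symm, by
      have e : (-1 : ℤ) + 1 = 0 := by norm_num
      rw [e, g0]; exact h.adj i⟩
    have N1 : ¬ Tri G f (k - 1) := by
      intro hT
      apply alt1
      refine ⟨hT.congr ?_ ?_, T1⟩
      · have e : (-1 : ℤ) - 1 = -2 := by norm_num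
        rw [e, hg3]
      · have e : (-1 : ℤ) - 1 + 1 = -1 := by norm_num
        rw [e, hg2]; congr 1; ring
    -- second cycle
    obtain ⟨d', hd'⟩ : ∃ d' : ℕ, i + n = k + d' := ⟨(i + n - k).toNat, by omega⟩
    have ein : f (i + n) = f i := h.per i
    have ein1 : f (i + n - 1) = f (i - 1) := by rw [← h.per (i - 1)]; congr 1; ring
    obtain ⟨g', hg', hg1', hg2', hg3'⟩ := h.sub k d' (by omega) (by omega)
      (by rw [← hd', ein]; exact h1.symm)
      (by
        rw [← hd', ein1]
        intro hadj
        exact hl.L1 (v := f i) (a := f (i - 1)) (b := f k) (c := f (i + 1))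
          (h.adj' (by ring)).symm h1.symm (h.adj i) (h.inj _ _ (by omega) (by omega)) hadj h2)
      (by
        rw [← hd', ein]
        intro hadj
        exact hl.L1 (v := f k) (a := f (i + 1)) (b := f i) (c := f (k + 1)) h2 h1 (h.adj k)
          (h.inj _ _ (by omega) (by omega)) (h.adj i).symm hadj)
    have alt2 := ih (d' + 1) (by omega) g' hg' 0
    rw [← hd', ein] at hg2'
    have g0' : g' 0 = f k := by
      have := hg1' 0 (by omega)
      simpa using this
    have g1' : g' 1 = f (k + 1) := by
      have := hg1' 1 (by omega)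
      simpa using this
    have T2 : Tri G g' (0 - 1) := ⟨f (i + 1), by
      have e : (0 : ℤ) - 1 = -1 := by norm_num
      rw [e, hg2']; exact (h.adj i).symm, by
      have e : (0 : ℤ) - 1 + 1 = 0 := by norm_num
      rw [e, g0']; exact h2.symm⟩
    have N2 : ¬ Tri G f k := by
      intro hT
      apply alt2
      refine ⟨T2, hT.congr g0'.symm ?_⟩
      have e : (0 : ℤ) + 1 = 1 := by norm_num
      rw [e, g1']
    rcases h.cover hl k with hc | hc
    · exact N1 hc
    · exact N2 hc
  refine ⟨out, ?_⟩
  intro z i j h1 h2 h3 h4 hij hji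
  obtain ⟨m, g, hg, hmn, g1, g2, g3⟩ := h.double hl (out z i h1 h2) h1 h2 h3 h4 hij hji
  apply ih m hmn g hg (-1)
  refine ⟨⟨f (j + 1), ?_, ?_⟩, ⟨f i, ?_, ?_⟩⟩
  · have e : (-1 : ℤ) - 1 = -2 := by norm_num
    rw [e, g2]; exact (h.adj j).symm
  · have e : (-1 : ℤ) - 1 + 1 = -1 := by norm_num
    rw [e, g1]; exact h4.symm
  · rw [g1]; exact h1.symm
  · have e : (-1 : ℤ) + 1 = 0 := by norm_num
    rw [e, g3]; exact h.adj i

/-- A good thin cycle gives cycles of many consecutive lengths. -/
theorem TC.many (hl : Loc G) {n : ℕ} {f : ℤ → V} (h : TC G n f) (hg : Good G n f) :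
    ∃ T, n ≤ 2 * T ∧ ∀ t ≤ T, ∃ (v : V) (p : G.Walk v v), p.IsCycle ∧ p.length = n + t := by
  have hn5 := h.five hl
  by_cases hall : ∀ i, Tri G f i
  · have hcard : ((range (n - 1)).filter (fun i : ℕ => Tri G f i)).card = n - 1 := by
      have h0 : (range (n - 1)).filter (fun i : ℕ => Tri G f i) = range (n - 1) :=
        Finset.filter_true_of_mem (fun i _ => hall i)
      rw [h0, Finset.card_range]
    exact ⟨n - 1, by omega, fun t ht => h.cycles hl hg t (by rw [hcard]; exact ht)⟩
  · push Not at hall
    obtain ⟨i0, hi0⟩ := hall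
    set f' : ℤ → V := fun k => f (k + (i0 + 1)) with hf'
    have h' : TC G n f' := h.shift (i0 + 1)
    have hg' : Good G n f' := hg.shift (i0 + 1)
    have hm1 : ¬ Tri G f' (-1) := by
      rw [hf', tri_shift]
      have : (-1 : ℤ) + (i0 + 1) = i0 := by ring
      rw [this]; exact hi0
    have hn1 : ¬ Tri G f' ((n : ℤ) - 1) := by
      intro hF
      apply hm1
      apply h'.tri_per 1 (-1)
      have : (-1 : ℤ) + 1 * n = n - 1 := by ring
      rw [this]; exact hF
    set K := (range (n - 1)).filter (fun i : ℕ => Tri G f' i) with hK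
    refine ⟨K.card, ?_, fun t ht => h'.cycles hl hg' t ht⟩
    have hsub : range n ⊆ K ∪ K.image (fun x => x + 1) := by
      intro i hi
      rw [Finset.mem_range] at hi
      rw [Finset.mem_union, Finset.mem_image]
      rcases h'.cover hl i with h1 | h1
      · right
        have hi0 : i ≠ 0 := by
          rintro rfl
          apply hm1
          simpa using h1
        refine ⟨i - 1, ?_, by omega⟩
        rw [hK, Finset.mem_filter, Finset.mem_range]
        refine ⟨by omega, ?_⟩
        have : (((i - 1 : ℕ)) : ℤ) = (i : ℤ) - 1 := by omega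
        rw [this]; exact h1
      · left
        rw [hK, Finset.mem_filter, Finset.mem_range]
        refine ⟨?_, h1⟩
        by_contra hcon
        have : (i : ℤ) = n - 1 := by omega
        rw [this] at h1
        exact hn1 h1
    have h1 := Finset.card_le_card hsub
    have h2 := Finset.card_union_le K (K.image (fun x => x + 1))
    have h3 := Finset.card_image_le (s := K) (f := fun x => x + 1)
    rw [Finset.card_range] at h1
    omega

/-- An alternating thin cycle with a non-triangle edge. -/
theorem TC.alternate (hl : Loc G) {n : ℕ} {f : ℤ → V} (h : TC G n f) (ha : Alt G f)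
    (h0 : ¬ Tri G f (-1)) : ∀ k : ℕ, Tri G f (2 * k) ∧ ¬ Tri G f (2 * k + 1) := by
  intro k
  induction k with
  | zero =>
    have c0 : Tri G f 0 := by
      rcases h.cover hl 0 with h1 | h1
      · exact absurd (by simpa using h1) h0
      · exact h1
    refine ⟨by simpa using c0, ?_⟩
    intro h1
    apply ha 1
    norm_num at h1 ⊢
    exact ⟨c0, h1⟩
  | succ k ih =>
    obtain ⟨i1, i2⟩ := ih
    have e1 : (2 : ℤ) * ((k + 1 : ℕ) : ℤ) = 2 * k + 2 := by push_cast; ring
    rw [e1]
    have c0 : Tri G f (2 * k + 2) := by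
      rcases h.cover hl (2 * k + 2) with h1 | h1
      · have e : (2 * (k : ℤ) + 2 - 1) = 2 * k + 1 := by ring
        rw [e] at h1
        exact absurd h1 i2
      · exact h1
    refine ⟨c0, ?_⟩
    intro h1
    apply ha (2 * k + 2 + 1)
    have e : (2 * (k : ℤ) + 2 + 1 - 1) = 2 * k + 2 := by ring
    rw [e]
    exact ⟨c0, h1⟩

/-- **Structure of the thin cycles** in a graph without cycles of length 8 or square length. -/
theorem thin_structure (hl : Loc G) (hP : ∀ (v : V) (p : G.Walk v v), p.IsCycle → ¬ Pow p.length) :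
    ∀ (n : ℕ) (f : ℤ → V), TC G n f → n = 10 ∧ Good G n f ∧ Alt G f ∧
      ∀ i j : ℤ, i + 2 ≤ j → j + 2 ≤ i + n → ¬ G.Adj (f i) (f j) := by
  intro n
  induction n using Nat.strong_induction_on with
  | _ n ih =>
    intro f h
    have hn5 := h.five hl
    have hgood : Good G n f := h.goodOf hl (fun m hm g hg => (ih m hm g hg).2.2.1)
    -- no chords
    have hch : ∀ i j : ℤ, i + 2 ≤ j → j + 2 ≤ i + n → ¬ G.Adj (f i) (f j) := by
      intro i j hij hji hadj
      have e1 : j ≠ i + 2 := by rintro rfl; exact h.thin i hadj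
      have e2 : j ≠ i + n - 2 := by
        rintro rfl
        have e : f (i + n - 2) = f (i - 2) := by rw [← h.per (i - 2)]; congr 1; ring
        rw [e] at hadj
        exact h.thin' (i := i - 2) (j := i) (by ring) hadj.symm
      have ein : f (i + n) = f i := h.per i
      have ein1 : f (i + n - 1) = f (i - 1) := by rw [← h.per (i - 1)]; congr 1; ring
      obtain ⟨d, hd⟩ : ∃ d : ℕ, j = i + d := ⟨(j - i).toNat, by omega⟩
      obtain ⟨g, hg, hg1, hg2, hg3⟩ := h.sub i d (by omega) (by omega)
        (by rw [← hd]; exact hadj.symm)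
        (by
          rw [← hd]
          intro h5
          exact hgood.out (f i) (j - 1) h5.symm (by rw [sub_add_cancel]; exact hadj) i rfl)
        (by
          rw [← hd]
          intro h5
          exact hgood.out (f j) i hadj.symm h5 j rfl)
      obtain ⟨d', hd'⟩ : ∃ d' : ℕ, i + n = j + d' := ⟨(i + n - j).toNat, by omega⟩
      obtain ⟨g', hg', hg1', hg2', hg3'⟩ := h.sub j d' (by omega) (by omega)
        (by rw [← hd', ein]; exact hadj)
        (by
          rw [← hd', ein1]
          intro h5
          exact hgood.out (f j) (i - 1) h5.symm (by rw [sub_add_cancel]; exact hadj.symm) j rfl)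
        (by
          rw [← hd', ein]
          intro h5
          exact hgood.out (f i) j hadj h5 i rfl)
      obtain ⟨l1, -, alt1, -⟩ := ih (d + 1) (by omega) g hg
      obtain ⟨l2, -, alt2, -⟩ := ih (d' + 1) (by omega) g' hg'
      have hd9 : d = 9 := by omega
      have hd9' : d' = 9 := by omega
      subst hd9; subst hd9'
      have hn18 : n = 18 := by omega
      subst hn18
      rw [← hd] at hg2 hg3
      rw [← hd', ein] at hg2'
      rw [← hd', ein1] at hg3'
      have g0 : g 0 = f i := by
        have := hg1 0 (by omega)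
        simpa using this
      have g1 : g 1 = f (i + 1) := by
        have := hg1 1 (by omega)
        simpa using this
      have g0' : g' 0 = f j := by
        have := hg1' 0 (by omega)
        simpa using this
      -- the chord is in no triangle
      have hno : ∀ x, G.Adj x (f i) → G.Adj x (f j) → False := by
        intro x hx1 hx2
        have N1 : ¬ Tri G f i := by
          intro hT
          apply alt1 0
          refine ⟨⟨x, ?_, ?_⟩, hT.congr g0.symm ?_⟩
          · have e : (0 : ℤ) - 1 = -1 := by norm_num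
            rw [e, hg2]; exact hx2
          · have e : (0 : ℤ) - 1 + 1 = 0 := by norm_num
            rw [e, g0]; exact hx1
          · have e : (0 : ℤ) + 1 = 1 := by norm_num
            rw [e, g1]
        have N2 : ¬ Tri G f (i - 1) := by
          intro hT
          apply alt2 (-1)
          refine ⟨hT.congr ?_ ?_, ⟨x, ?_, ?_⟩⟩
          · have e : (-1 : ℤ) - 1 = -2 := by norm_num
            rw [e, hg3']
          · have e : (-1 : ℤ) - 1 + 1 = -1 := by norm_num
            rw [e, hg2', sub_add_cancel]
          · rw [hg2']; exact hx1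
          · have e : (-1 : ℤ) + 1 = 0 := by norm_num
            rw [e, g0']; exact hx2
        rcases h.cover hl i with hc | hc
        · exact N2 hc
        · exact N1 hc
      have t1 : ¬ Tri G g (-1) := by
        rintro ⟨x, hx1, hx2⟩
        rw [hg2] at hx1
        have e : (-1 : ℤ) + 1 = 0 := by norm_num
        rw [e, g0] at hx2
        exact hno x hx2 hx1
      have t2 : ¬ Tri G g' (-1) := by
        rintro ⟨x, hx1, hx2⟩
        rw [hg2'] at hx1
        have e : (-1 : ℤ) + 1 = 0 := by norm_num
        rw [e, g0'] at hx2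
        exact hno x hx1 hx2
      have A1 := hg.alternate hl alt1 t1
      have A2 := hg'.alternate hl alt2 t2
      have B1 : ∀ k : ℕ, k ≤ 4 → Tri G f (2 * k + i) := by
        intro k hk
        refine (A1 k).1.congr ?_ ?_
        · have := hg1 (2 * k) (by omega)
          push_cast at this
          rw [this]; congr 1; ring
        · have := hg1 (2 * k + 1) (by omega)
          push_cast at this
          rw [this]; congr 1; ring
      have B2 : ∀ k : ℕ, k ≤ 4 → Tri G f (2 * k + 9 + i) := by
        intro k hk
        refine (A2 k).1.congr ?_ ?_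
        · have := hg1' (2 * k) (by omega)
          push_cast at this
          rw [this]; congr 1; rw [hd]; push_cast; ring
        · have := hg1' (2 * k + 1) (by omega)
          push_cast at this
          rw [this]; congr 1; rw [hd]; push_cast; ring
      have hsub : ({0, 2, 4, 6, 8, 9, 11} : Finset ℕ) ⊆
          (range (18 - 1)).filter (fun x : ℕ => Tri G (fun k => f (k + i)) x) := by
        intro x hx
        rw [Finset.mem_filter, Finset.mem_range, tri_shift]
        simp only [Finset.mem_insert, Finset.mem_singleton] at hx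
        rcases hx with rfl | rfl | rfl | rfl | rfl | rfl | rfl
        · exact ⟨by norm_num, by simpa using B1 0 (by norm_num)⟩
        · exact ⟨by norm_num, by simpa using B1 1 (by norm_num)⟩
        · refine ⟨by norm_num, ?_⟩
          have := B1 2 (by norm_num)
          norm_num at this ⊢
          exact this
        · refine ⟨by norm_num, ?_⟩
          have := B1 3 (by norm_num)
          norm_num at this ⊢
          exact this
        · refine ⟨by norm_num, ?_⟩
          have := B1 4 (by norm_num)
          norm_num at this ⊢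
          exact this
        · refine ⟨by norm_num, ?_⟩
          have := B2 0 (by norm_num)
          norm_num at this ⊢
          exact this
        · refine ⟨by norm_num, ?_⟩
          have := B2 1 (by norm_num)
          norm_num at this ⊢
          exact this
      have hcard := Finset.card_le_card hsub
      have h7 : ({0, 2, 4, 6, 8, 9, 11} : Finset ℕ).card = 7 := by decide
      rw [h7] at hcard
      obtain ⟨v, p, hp1, hp2⟩ := (h.shift i).cycles hl (hgood.shift i) 7 hcard
      exact hP v p hp1 (by rw [hp2]; exact Or.inr ⟨5, by norm_num, by norm_num⟩)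
    by_cases hall : ∀ i, Tri G f i
    · exfalso
      have hcard : ((range (n - 1)).filter (fun i : ℕ => Tri G f i)).card = n - 1 := by
        have h0 : (range (n - 1)).filter (fun i : ℕ => Tri G f i) = range (n - 1) :=
          Finset.filter_true_of_mem (fun i _ => hall i)
        rw [h0, Finset.card_range]
      obtain ⟨t, ht1, ht2⟩ := exists_pow n (n - 1) hn5 (by omega) (by omega)
      obtain ⟨v, p, hp1, hp2⟩ := h.cycles hl hgood t (by rw [hcard]; exact ht1)
      exact hP v p hp1 (by rw [hp2]; exact ht2)
    · push Not at hall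
      obtain ⟨i0, hi0⟩ := hall
      set f' : ℤ → V := fun k => f (k + (i0 + 1)) with hf'
      have h' : TC G n f' := h.shift (i0 + 1)
      have hgood' : Good G n f' := hgood.shift (i0 + 1)
      have hm1 : ¬ Tri G f' (-1) := by
        rw [hf', tri_shift]
        have : (-1 : ℤ) + (i0 + 1) = i0 := by ring
        rw [this]; exact hi0
      have hn1 : ¬ Tri G f' ((n : ℤ) - 1) := by
        intro hF
        apply hm1
        apply h'.tri_per 1 (-1)
        have : (-1 : ℤ) + 1 * n = n - 1 := by ring
        rw [this]; exact hF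
      set K := (range (n - 1)).filter (fun i : ℕ => Tri G f' i) with hK
      have hcov : n ≤ 2 * K.card := by
        have hsub : range n ⊆ K ∪ K.image (fun x => x + 1) := by
          intro i hi
          rw [Finset.mem_range] at hi
          rw [Finset.mem_union, Finset.mem_image]
          rcases h'.cover hl i with h1 | h1
          · right
            have hi0 : i ≠ 0 := by
              rintro rfl
              apply hm1
              simpa using h1
            refine ⟨i - 1, ?_, by omega⟩
            rw [hK, Finset.mem_filter, Finset.mem_range]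
            refine ⟨by omega, ?_⟩
            have : (((i - 1 : ℕ)) : ℤ) = (i : ℤ) - 1 := by omega
            rw [this]; exact h1
          · left
            rw [hK, Finset.mem_filter, Finset.mem_range]
            refine ⟨?_, h1⟩
            by_contra hcon
            have : (i : ℤ) = n - 1 := by omega
            rw [this] at h1
            exact hn1 h1
        have h1 := Finset.card_le_card hsub
        have h2 := Finset.card_union_le K (K.image (fun x => x + 1))
        have h3 := Finset.card_image_le (s := K) (f := fun x => x + 1)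
        rw [Finset.card_range] at h1
        omega
      have hno : ¬ (n = 10 → 6 ≤ K.card) := by
        intro h10
        obtain ⟨t, ht1, ht2⟩ := exists_pow n K.card hn5 hcov h10
        obtain ⟨v, p, hp1, hp2⟩ := h'.cycles hl hgood' t ht1
        exact hP v p hp1 (by rw [hp2]; exact ht2)
      push Not at hno
      obtain ⟨h10, hK5⟩ := hno
      refine ⟨h10, hgood, ?_, hch⟩
      rintro i ⟨hF1, hF2⟩
      subst h10
      obtain ⟨a, ha1, ha2, ha3⟩ : ∃ a : ℤ, 0 ≤ a ∧ a < 10 ∧ ∃ k : ℤ, i = (a + (i0 + 1)) + k * 10 := by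
        refine ⟨(i - (i0 + 1)) % 10, by omega, by omega, (i - (i0 + 1)) / 10, by omega⟩
      obtain ⟨k, hk⟩ := ha3
      have hFa : Tri G f' a := by
        rw [hf', tri_shift]
        apply h.tri_per k
        rw [hk] at hF2
        exact_mod_cast hF2
      have hFb : Tri G f' (a - 1) := by
        rw [hf', tri_shift]
        apply h.tri_per k
        rw [hk] at hF1
        have : a - 1 + (i0 + 1) + k * ((10 : ℕ) : ℤ) = a + (i0 + 1) + k * 10 - 1 := by
          push_cast; ring
        rw [this]; exact hF1
      have ha0 : a ≠ 0 := by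
        rintro rfl
        apply hm1; simpa using hFb
      have ha9 : a ≠ 9 := by
        rintro rfl
        apply hn1; norm_num; exact hFa
      have hsum : K.card = ∑ i ∈ range 9, (if Tri G f' (i : ℤ) then 1 else 0) := by
        rw [hK, Finset.card_filter]
      have c0 := h'.cover hl 0
      have c1 := h'.cover hl 1
      have c2 := h'.cover hl 2
      have c3 := h'.cover hl 3
      have c4 := h'.cover hl 4
      have c5 := h'.cover hl 5
      have c6 := h'.cover hl 6
      have c7 := h'.cover hl 7
      have c8 := h'.cover hl 8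
      have c9 := h'.cover hl 9
      norm_num at c0 c1 c2 c3 c4 c5 c6 c7 c8 c9 hn1
      simp only [Finset.sum_range_succ, Finset.sum_range_zero] at hsum
      norm_num at hsum
      have c0' : Tri G f' 0 := by
        rcases c0 with c | c
        · exact absurd c hm1
        · exact c
      have c8' : Tri G f' 8 := by
        rcases c9 with c | c
        · exact c
        · exact absurd c hn1
      have key : ∀ x : ℤ, ∃ b : ℕ, b ≤ 1 ∧ (Tri G f' x ↔ b = 1) ∧
          (if Tri G f' x then 1 else 0) = b := by
        intro x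
        by_cases hx : Tri G f' x
        · exact ⟨1, le_refl _, by simp [hx], by simp [hx]⟩
        · exact ⟨0, by omega, by simp [hx], by simp [hx]⟩
      obtain ⟨b0, l0, i0', j0⟩ := key 0
      obtain ⟨b1, l1, i1, j1⟩ := key 1
      obtain ⟨b2, l2, i2, j2⟩ := key 2
      obtain ⟨b3, l3, i3, j3⟩ := key 3
      obtain ⟨b4, l4, i4, j4⟩ := key 4
      obtain ⟨b5, l5, i5, j5⟩ := key 5
      obtain ⟨b6, l6, i6, j6⟩ := key 6
      obtain ⟨b7, l7, i7, j7⟩ := key 7
      obtain ⟨b8, l8, i8, j8⟩ := key 8
      rw [j0, j1, j2, j3, j4, j5, j6, j7, j8] at hsum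
      rw [i0'] at c0'
      rw [i8] at c8'
      rw [i0', i1] at c1
      rw [i1, i2] at c2
      rw [i2, i3] at c3
      rw [i3, i4] at c4
      rw [i4, i5] at c5
      rw [i5, i6] at c6
      rw [i6, i7] at c7
      rw [i7, i8] at c8
      have ha : a = 1 ∨ a = 2 ∨ a = 3 ∨ a = 4 ∨ a = 5 ∨ a = 6 ∨ a = 7 ∨ a = 8 := by omega
      rcases ha with rfl | rfl | rfl | rfl | rfl | rfl | rfl | rfl <;> norm_num at hFa hFb
      · rw [i1] at hFa; rw [i0'] at hFb; omega
      · rw [i2] at hFa; rw [i1] at hFb; omega
      · rw [i3] at hFa; rw [i2] at hFb; omega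
      · rw [i4] at hFa; rw [i3] at hFb; omega
      · rw [i5] at hFa; rw [i4] at hFb; omega
      · rw [i6] at hFa; rw [i5] at hFb; omega
      · rw [i7] at hFa; rw [i6] at hFb; omega
      · rw [i8] at hFa; rw [i7] at hFb; omega

end Pool.Agent.H52.PQ
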