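import Pool.Agent.H52.PQC

set_option autoImplicit false

/-! # Graphs whose edges in no triangle form a matching: the longest thin path -/

namespace Pool.Agent.H52.PQ

open Finset Classical

variable {V : Type} {G : SimpleGraph V}

/-- Thin paths on `N` vertices. -/
structure TP (G : SimpleGraph V) (N : ℕ) (P : ℕ → V) : Prop where
  inj : ∀ i j, i < j → j < N → P i ≠ P j
  adj : ∀ i, i + 1 < N → G.Adj (P i) (P (i + 1))
  thin : ∀ i, i + 2 < N → ¬ G.Adj (P i) (P (i + 2))

/-- Put a vertex in front of a sequence. -/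
def cons (w : V) (P : ℕ → V) : ℕ → V
  | 0 => w
  | (i + 1) => P i

theorem cons_zero (w : V) (P : ℕ → V) : cons w P 0 = w := rfl
theorem cons_succ (w : V) (P : ℕ → V) (i : ℕ) : cons w P (i + 1) = P i := rfl

theorem TP.cons {N : ℕ} {P : ℕ → V} (h : TP G N P) (hN : 0 < N) {w : V} (hw : ∀ i < N, w ≠ P i)
    (hadj : G.Adj w (P 0)) (hthin : 1 < N → ¬ G.Adj w (P 1)) : TP G (N + 1) (cons w P) := by
  refine ⟨?_, ?_, ?_⟩
  · intro i j hij hj
    obtain ⟨j, rfl⟩ : ∃ j', j = j' + 1 := ⟨j - 1, by omega⟩
    rw [cons_succ]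
    rcases i with _ | i
    · rw [cons_zero]; exact hw j (by omega)
    · rw [cons_succ]; exact h.inj i j (by omega) (by omega)
  · intro i hi
    rcases i with _ | i
    · rw [cons_zero, cons_succ]; exact hadj
    · rw [cons_succ, cons_succ]; exact h.adj i (by omega)
  · intro i hi
    rcases i with _ | i
    · rw [cons_zero, show 0 + 2 = 1 + 1 from rfl, cons_succ]; exact hthin (by omega)
    · rw [cons_succ, show i + 1 + 2 = (i + 2) + 1 from rfl, cons_succ]; exact h.thin i (by omega)

theorem TP.shift {N : ℕ} {P : ℕ → V} (h : TP G N P) (k : ℕ) :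
    TP G (N - k) (fun i => P (i + k)) := by
  refine ⟨?_, ?_, ?_⟩
  · intro i j hij hj
    exact h.inj _ _ (by omega) (by omega)
  · intro i hi
    have := h.adj (i + k) (by omega)
    have e : i + 1 + k = i + k + 1 := by ring
    show G.Adj (P (i + k)) (P (i + 1 + k))
    rw [e]; exact this
  · intro i hi
    have := h.thin (i + k) (by omega)
    have e : i + 2 + k = i + k + 2 := by ring
    show ¬ G.Adj (P (i + k)) (P (i + 2 + k))
    rw [e]; exact this

/-- There is a maximal thin path. -/
theorem exists_max [Fintype V] [Nonempty V] (hl : Loc G) :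
    ∃ (N : ℕ) (P : ℕ → V), TP G N P ∧ 2 ≤ N ∧ ∀ P', ¬ TP G (N + 1) P' := by
  by_contra hcon
  push Not at hcon
  have hall : ∀ k, ∃ P, TP G (2 + k) P := by
    intro k
    induction k with
    | zero =>
      obtain ⟨v⟩ := ‹Nonempty V›
      obtain ⟨c, hc, -, -⟩ := hl.deg v v v
      refine ⟨fun i => if i = 0 then v else c, ?_, ?_, ?_⟩
      · intro i j hij hj
        have hi : i = 0 := by omega
        have hj' : j = 1 := by omega
        subst hi; subst hj'
        simpa using hc.ne
      · intro i hi
        have hi : i = 0 := by omega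
        subst hi
        simpa using hc
      · intro i hi; omega
    | succ k ih =>
      obtain ⟨P, hP⟩ := ih
      obtain ⟨P', hP'⟩ := hcon (2 + k) P hP (by omega)
      exact ⟨P', hP'⟩
  obtain ⟨P, hP⟩ := hall (Fintype.card V)
  have hinj : Function.Injective (fun i : Fin (2 + Fintype.card V) => P i) := by
    intro i j hij
    by_contra hne
    have hne' : (i : ℕ) ≠ j := fun h => hne (Fin.ext h)
    rcases lt_or_gt_of_ne hne' with h1 | h1
    · exact hP.inj i j h1 j.2 hij
    · exact hP.inj j i h1 i.2 hij.symm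
  have := Fintype.card_le_of_injective _ hinj
  rw [Fintype.card_fin] at this
  omega

/-- The beginning of a maximal thin path is a thin cycle. -/
theorem first_tc (hl : Loc G) {N : ℕ} {P : ℕ → V} (h : TP G N P) (hN : 2 ≤ N)
    (hmax : ∀ P', ¬ TP G (N + 1) P') :
    ∃ r, r < N ∧ ∃ f : ℤ → V, TC G (r + 1) f ∧ (∀ a : ℕ, a < r + 1 → f a = P a) ∧ f (-1) = P r ∧
      f ((r + 1 : ℕ) : ℤ) = P 0 := by
  have h01 : G.Adj (P 0) (P 1) := h.adj 0 (by omega)
  obtain ⟨w, hw, hw1, hw2⟩ : ∃ w, G.Adj (P 0) w ∧ w ≠ P 1 ∧ ¬ G.Adj w (P 1) := by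
    obtain ⟨a, ha, ha1, -⟩ := hl.deg (P 0) (P 1) (P 1)
    by_cases ha2 : G.Adj a (P 1)
    · obtain ⟨b, hb, hb1, hb2⟩ := hl.deg (P 0) (P 1) a
      refine ⟨b, hb, hb1, fun hb3 => ?_⟩
      exact hl.L1 ha h01 hb hb2.symm ha2 hb3.symm
    · exact ⟨a, ha, ha1, ha2⟩
  have hwP : ∃ i < N, w = P i := by
    by_contra hcon
    push Not at hcon
    exact hmax _ (h.cons (by omega) hcon hw.symm (fun _ => hw2))
  obtain ⟨i, hi, rfl⟩ := hwP
  have hi0 : i ≠ 0 := by rintro rfl; exact hw.ne rfl
  have hi1 : i ≠ 1 := by rintro rfl; exact hw1 rfl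
  have hi2 : i ≠ 2 := by rintro rfl; exact h.thin 0 (by omega) hw
  obtain ⟨r, hr3, hrN, hr0, hr1, hr2⟩ : ∃ r, 3 ≤ r ∧ r < N ∧ G.Adj (P r) (P 0) ∧
      ¬ G.Adj (P (r - 1)) (P 0) ∧ ¬ G.Adj (P r) (P 1) := by
    by_cases hc : G.Adj (P (i - 1)) (P 0)
    · have hi3 : i ≠ 3 := by
        rintro rfl
        exact h.thin 0 (by omega) hc.symm
      have hii : G.Adj (P (i - 1)) (P i) := by
        have := h.adj (i - 1) (by omega)
        have e : i - 1 + 1 = i := by omega
        rwa [e] at this
      have hii2 : G.Adj (P (i - 1)) (P (i - 1 - 1)) := by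
        have := h.adj (i - 1 - 1) (by omega)
        have e : i - 1 - 1 + 1 = i - 1 := by omega
        rw [e] at this
        exact this.symm
      refine ⟨i - 1, by omega, by omega, hc, ?_, ?_⟩
      · intro hc2
        exact hl.L1 hii hc hii2 (h.inj (i - 1 - 1) i (by omega) hi).symm hw.symm hc2.symm
      · intro hc2
        exact hl.L1 hw hc.symm h01 (h.inj 1 i (by omega) hi).symm hii.symm hc2
    · exact ⟨i, by omega, hi, hw.symm, hc, hw2⟩
  obtain ⟨f, hf, hf1, hf2, hf3⟩ := mkTC (G := G) P (r + 1) (by omega)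
    (fun a b hab hb => h.inj a b hab (by omega)) (fun a ha => h.adj a (by omega))
    (by rw [Nat.add_sub_cancel]; exact hr0) (fun a ha => h.thin a (by omega))
    (by
      have : r + 1 - 2 = r - 1 := by omega
      rw [this]; exact hr1)
    (by rw [Nat.add_sub_cancel]; exact hr2)
  refine ⟨r, hrN, f, hf, hf1, ?_, hf3⟩
  rw [hf2, Nat.add_sub_cancel]

/-- A shortest thin cycle is good. -/
theorem shortest [Fintype V] [Nonempty V] (hl : Loc G) :
    ∃ (c : ℕ) (g : ℤ → V), TC G c g ∧ Good G c g := by
  obtain ⟨N, P, h, hN2, hmax⟩ := exists_max hl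
  obtain ⟨r, -, f, hf, -⟩ := first_tc hl h hN2 hmax
  have hex : ∃ n, ∃ f : ℤ → V, TC G n f := ⟨_, f, hf⟩
  obtain ⟨g, hg⟩ := Nat.find_spec hex
  refine ⟨_, g, hg, hg.goodOf hl ?_⟩
  intro m hm g' hg'
  exact absurd (Nat.find_min' hex ⟨g', hg'⟩) (by omega)

/-- Cycles of all lengths in some interval `[c, 3c/2]`. -/
theorem interval [Fintype V] [Nonempty V] (hl : Loc G) :
    ∃ c, 5 ≤ c ∧ ∀ m, c ≤ m → m ≤ c + (c + 1) / 2 →
      ∃ (v : V) (p : G.Walk v v), p.IsCycle ∧ p.length = m := by
  obtain ⟨c, g, hg, hgood⟩ := shortest hl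
  obtain ⟨T, hT1, hT2⟩ := hg.many hl hgood
  refine ⟨c, hg.five hl, fun m hm1 hm2 => ?_⟩
  obtain ⟨v, p, hp1, hp2⟩ := hT2 (m - c) (by omega)
  exact ⟨v, p, hp1, by omega⟩

/-- If every edge lies in a triangle: cycles of all lengths in some interval `[c, 2c - 1]`. -/
theorem interval_all [Fintype V] [Nonempty V] (hl : Loc G)
    (hall : ∀ u v, G.Adj u v → ∃ x, G.Adj x u ∧ G.Adj x v) :
    ∃ c, 5 ≤ c ∧ ∀ m, c ≤ m → m ≤ 2 * c - 1 →
      ∃ (v : V) (p : G.Walk v v), p.IsCycle ∧ p.length = m := by
  obtain ⟨c, g, hg, hgood⟩ := shortest hl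
  have h5 := hg.five hl
  refine ⟨c, h5, fun m hm1 hm2 => ?_⟩
  have hcard : ((range (c - 1)).filter (fun i : ℕ => Tri G g i)).card = c - 1 := by
    have h0 : (range (c - 1)).filter (fun i : ℕ => Tri G g i) = range (c - 1) :=
      Finset.filter_true_of_mem (fun i _ => hall _ _ (hg.adj i))
    rw [h0, Finset.card_range]
  obtain ⟨v, p, hp1, hp2⟩ := hg.cycles hl hgood (m - c) (by rw [hcard]; omega)
  exact ⟨v, p, hp1, by omega⟩

/-- The beginning of a maximal thin path is a thin cycle of length 10. -/
theorem first_cycle (hl : Loc G) (hP : ∀ (v : V) (p : G.Walk v v), p.IsCycle → ¬ Pow p.length)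
    {N : ℕ} {P : ℕ → V} (h : TP G N P) (hN : 2 ≤ N) (hmax : ∀ P', ¬ TP G (N + 1) P') :
    10 ≤ N ∧ ∃ f : ℤ → V, TC G 10 f ∧ (∀ a : ℕ, a < 10 → f a = P a) ∧ f (-1) = P 9 ∧
      f 10 = P 0 := by
  obtain ⟨r, hrN, f, hf, hf1, hf2, hf3⟩ := first_tc hl h hN hmax
  have h10 := (thin_structure hl hP (r + 1) f hf).1
  have hr9 : r = 9 := by omega
  subst hr9
  refine ⟨by omega, f, hf, hf1, hf2, ?_⟩
  simpa using hf3

/-- **Main theorem.** -/
theorem main [Fintype V] [Nonempty V] (hl : Loc G) :
    ∃ (v : V) (p : G.Walk v v), p.IsCycle ∧ Pow p.length := by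
  by_contra hcon
  push Not at hcon
  have hP : ∀ (v : V) (p : G.Walk v v), p.IsCycle → ¬ Pow p.length := hcon
  obtain ⟨N, P, h, hN2, hmax⟩ := exists_max hl
  obtain ⟨hN, f, hf, hfP, hfm, hf10⟩ := first_cycle hl hP h hN2 hmax
  obtain ⟨-, hgood, halt, hch⟩ := thin_structure hl hP 10 f hf
  -- translation between `P` and `f`
  have f0 : f 0 = P 0 := by simpa using hfP 0 (by norm_num)
  have f1 : f 1 = P 1 := by simpa using hfP 1 (by norm_num)
  have f2 : f 2 = P 2 := by simpa using hfP 2 (by norm_num)
  have f9 : f 9 = P 9 := by simpa using hfP 9 (by norm_num)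
  have out : ∀ z : V, (∀ a : ℕ, a < 10 → z ≠ P a) → ∀ k, z ≠ f k := by
    intro z hz k hk
    obtain ⟨j', hj1, hj2, hj3⟩ := hf.rep 0 k
    obtain ⟨a, rfl⟩ : ∃ a : ℕ, j' = a := ⟨j'.toNat, by omega⟩
    rw [← hj3, hfP a (by omega)] at hk
    exact hz a (by omega) hk
  have outP : ∀ q, 10 ≤ q → q < N → ∀ k, P q ≠ f k := by
    intro q hq hqN
    apply out
    intro a ha heq
    exact h.inj a q (by omega) hqN heq.symm
  have inP : ∀ z : V, (∀ k, z ≠ f k) → ∀ q, z = P q → 10 ≤ q := by
    intro z hz q hq
    by_contra hlt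
    exact hz q (by rw [hfP q (by omega)]; exact hq)
  have a01 : G.Adj (P 0) (P 1) := h.adj 0 (by omega)
  have a12 : G.Adj (P 1) (P 2) := h.adj 1 (by omega)
  have a23 : G.Adj (P 2) (P 3) := h.adj 2 (by omega)
  have a90 : G.Adj (P 9) (P 0) := by
    have := hf.adj 9
    norm_num at this
    rwa [f9, hf10] at this
  have n13 : P 1 ≠ P 3 := h.inj 1 3 (by omega) (by omega)
  have n02 : P 0 ≠ P 2 := h.inj 0 2 (by omega) (by omega)
  have n19 : P 1 ≠ P 9 := h.inj 1 9 (by omega) (by omega)
  -- Step 1
  have step1 : ∀ z, (∀ k, z ≠ f k) → G.Adj z (P 0) → G.Adj z (P 1) → False := by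
    intro z hz hz0 hz1
    by_cases hzP : ∀ i < N, z ≠ P i
    · have hQ : TP G (N - 1 + 1) (cons z (fun i => P (i + 1))) := by
        refine (h.shift 1).cons (by omega) (fun i hi => hzP _ (by omega)) ?_ ?_
        · simpa using hz1
        · intro _ hadj
          exact hl.L1 (v := P 1) (a := P 0) (b := z) (c := P 2) a01.symm hz1.symm a12 n02
            hz0.symm (by simpa using hadj)
      have eN : N - 1 + 1 = N := by omega
      rw [eN] at hQ
      obtain ⟨-, g, hg, hgP, hgm, hg10⟩ := first_cycle hl hP hQ hN2 hmax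
      have hc : G.Adj (P 9) z := by
        have h1 := hg.adj 9
        have h2 := hgP 9 (by norm_num)
        norm_num at h1 h2
        rw [h2, hg10] at h1
        exact h1
      exact hl.L1 (v := z) (a := P 9) (b := P 0) (c := P 1) hc.symm hz0 hz1 n19.symm a90 a01
    · push Not at hzP
      obtain ⟨q, hq, rfl⟩ := hzP
      have hq10 := inP _ hz q rfl
      have hR := h.shift 1
      obtain ⟨g, hg, -, -, -⟩ := mkTC (G := G) (fun i => P (i + 1)) q (by omega)
        (fun a b hab hb => hR.inj a b hab (by omega)) (fun a ha => hR.adj a (by omega))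
        (by
          have e : q - 1 + 1 = q := by omega
          show G.Adj (P (q - 1 + 1)) (P (0 + 1))
          rw [e]
          exact hz1)
        (fun a ha => hR.thin a (by omega))
        (by
          have e : q - 2 + 1 = q - 1 := by omega
          show ¬ G.Adj (P (q - 2 + 1)) (P (0 + 1))
          rw [e]
          intro hadj
          have hqq : G.Adj (P (q - 1)) (P q) := by
            have := h.adj (q - 1) (by omega)
            have e : q - 1 + 1 = q := by omega
            rwa [e] at this
          exact hl.L1 (v := P 1) (a := P 0) (b := P q) (c := P (q - 1)) a01.symm hz1.symm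
            (by simpa using hadj.symm) (h.inj 0 (q - 1) (by omega) (by omega)) hz0.symm hqq.symm)
        (by
          have e : q - 1 + 1 = q := by omega
          show ¬ G.Adj (P (q - 1 + 1)) (P (1 + 1))
          rw [e]
          intro hadj
          exact hl.L1 (v := P 1) (a := P 0) (b := P q) (c := P 2) a01.symm hz1.symm a12 n02
            hz0.symm hadj)
      have h10 := (thin_structure hl hP q g hg).1
      subst h10
      have h910 : G.Adj (P 9) (P 10) := h.adj 9 (by omega)
      exact hl.L1 (v := P 10) (a := P 9) (b := P 0) (c := P 1) h910.symm hz0 hz1 n19.symm a90 a01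
  -- the edge `P 0 P 1` is in no triangle, hence `P 1 P 2` is in a triangle
  have T1 : Tri G f 1 := by
    rcases hf.cover hl 1 with hT | hT
    · exfalso
      have e : (1 : ℤ) - 1 = 0 := by norm_num
      rw [e] at hT
      obtain ⟨z, hz0, hz1⟩ := hT
      have oz := hgood.out z 0 hz0 hz1
      rw [f0] at hz0
      have e : (0 : ℤ) + 1 = 1 := by norm_num
      rw [e, f1] at hz1
      exact step1 z oz hz0 hz1
    · exact hT
  obtain ⟨z, zf1, zf2⟩ := T1
  have oz : ∀ k, z ≠ f k := hgood.out z 1 zf1 zf2
  have zP1 : G.Adj z (P 1) := by rw [← f1]; exact zf1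
  have zP2 : G.Adj z (P 2) := by
    have e : (1 : ℤ) + 1 = 2 := by norm_num
    rw [e, f2] at zf2
    exact zf2
  have zneP : ∀ a : ℕ, a < 10 → z ≠ P a := fun a ha => by rw [← hfP a ha]; exact oz a
  have z0 : ¬ G.Adj z (P 0) := fun hadj => step1 z oz hadj zP1
  have z3 : ¬ G.Adj z (P 3) := by
    intro hadj
    exact hl.L1 (v := P 2) (a := P 1) (b := z) (c := P 3) a12.symm zP2.symm a23 n13 zP1.symm hadj
  -- no two consecutive neighbours of `z` later on the cycle
  have zcons : ∀ q : ℕ, 2 ≤ q → q ≤ 8 → G.Adj z (P q) → G.Adj z (P (q + 1)) → False := by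
    intro q hq2 hq8 h1 h2
    refine hgood.nd z 1 q zf1 zf2 ?_ ?_ (by omega) (by push_cast; omega)
    · rw [hfP q (by omega)]; exact h1
    · have := hfP (q + 1) (by omega)
      push_cast at this
      rw [this]; exact h2
  have zP : ∀ q : ℕ, q ≤ 9 → q ≠ 1 → q ≠ 2 → ¬ G.Adj z (P q) := by
    intro q hq hq1 hq2 hadj
    have hq0 : q ≠ 0 := by rintro rfl; exact z0 hadj
    have hq3 : q ≠ 3 := by rintro rfl; exact z3 hadj
    have hR := h.shift 2
    set s : ℕ → V := fun k => if k < q - 1 then P (k + 2) else z with hs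
    have s1 : ∀ k, k < q - 1 → s k = P (k + 2) := fun k hk => by simp only [hs, hk, if_true]
    have s2 : s (q - 1) = z := by simp only [hs, lt_irrefl, if_false]
    obtain ⟨g, hg, -, -, -⟩ := mkTC (G := G) s q (by omega)
      (by
        intro a b hab hb
        by_cases hbd : b < q - 1
        · rw [s1 a (by omega), s1 b hbd]
          exact h.inj _ _ (by omega) (by omega)
        · have : b = q - 1 := by omega
          subst this
          rw [s1 a (by omega), s2]
          exact (zneP _ (by omega)).symm)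
      (by
        intro a ha
        by_cases had : a + 1 < q - 1
        · rw [s1 a (by omega), s1 (a + 1) had]
          exact hR.adj a (by omega)
        · have e1 : a + 1 = q - 1 := by omega
          rw [s1 a (by omega), e1, s2]
          have e : a + 2 = q := by omega
          rw [e]; exact hadj.symm)
      (by
        rw [s2, s1 0 (by omega)]
        exact zP2)
      (by
        intro a ha
        by_cases had : a + 2 < q - 1
        · rw [s1 a (by omega), s1 (a + 2) had]
          exact hR.thin a (by omega)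
        · have e1 : a + 2 = q - 1 := by omega
          rw [s1 a (by omega), e1, s2]
          intro h5
          refine zcons (q - 1) (by omega) (by omega) h5.symm ?_
          have e : q - 1 + 1 = q := by omega
          rw [e]; exact hadj)
      (by
        rw [s1 (q - 2) (by omega), s1 0 (by omega)]
        have e : q - 2 + 2 = q := by omega
        rw [e]
        intro h5
        exact hl.L1 (v := P 2) (a := P 1) (b := z) (c := P q) a12.symm zP2.symm
          (by simpa using h5.symm) (h.inj 1 q (by omega) (by omega)) zP1.symm hadj)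
      (by
        rw [s2, s1 1 (by omega)]
        exact z3)
    have h10 := (thin_structure hl hP q g hg).1
    omega
  have z9 : ¬ G.Adj z (P 9) := zP 9 (le_refl _) (by norm_num) (by norm_num)
  -- Key lemma: no neighbour of `z` outside the cycle is adjacent to `P 9`
  have five : ∀ w, (∀ k, w ≠ f k) → G.Adj w z → G.Adj w (P 9) → False := by
    intro w ow hwz hw9
    have wneP : ∀ a : ℕ, a < 10 → w ≠ P a := fun a ha => by rw [← hfP a ha]; exact ow a
    have hw1 : ¬ G.Adj w (P 1) := by
      intro hadj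
      exact hl.L1 (v := z) (a := w) (b := P 1) (c := P 2) hwz.symm zP1 zP2
        (wneP 2 (by norm_num)) hadj a12
    have h19 : ¬ G.Adj (P 1) (P 9) := by
      have := hch 1 9 (by norm_num) (by norm_num)
      rwa [f1, f9] at this
    by_cases hw0 : G.Adj w (P 0)
    · exact hl.c4 w z (P 1) (P 0) hwz zP1 a01.symm hw0.symm (wneP 1 (by norm_num))
        (zneP 0 (by norm_num))
    · set s : ℕ → V := fun k => if k = 0 then P 9 else if k = 1 then w else if k = 2 then z
        else if k = 3 then P 1 else P 0 with hs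
      have s0 : s 0 = P 9 := by simp [hs]
      have s1 : s 1 = w := by simp [hs]
      have s2 : s 2 = z := by simp [hs]
      have s3 : s 3 = P 1 := by simp [hs]
      have s4 : s 4 = P 0 := by simp [hs]
      obtain ⟨g, hg, -, -, -⟩ := mkTC (G := G) s 5 (by norm_num)
        (by
          intro a b hab hb
          have hcases : (a = 0 ∧ b = 1) ∨ (a = 0 ∧ b = 2) ∨ (a = 0 ∧ b = 3) ∨ (a = 0 ∧ b = 4) ∨
            (a = 1 ∧ b = 2) ∨ (a = 1 ∧ b = 3) ∨ (a = 1 ∧ b = 4) ∨ (a = 2 ∧ b = 3) ∨
            (a = 2 ∧ b = 4) ∨ (a = 3 ∧ b = 4) := by omega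
          rcases hcases with ⟨rfl, rfl⟩ | ⟨rfl, rfl⟩ | ⟨rfl, rfl⟩ | ⟨rfl, rfl⟩ | ⟨rfl, rfl⟩ |
            ⟨rfl, rfl⟩ | ⟨rfl, rfl⟩ | ⟨rfl, rfl⟩ | ⟨rfl, rfl⟩ | ⟨rfl, rfl⟩
          · rw [s0, s1]; exact hw9.ne'
          · rw [s0, s2]; exact (zneP 9 (by norm_num)).symm
          · rw [s0, s3]; exact n19.symm
          · rw [s0, s4]; exact a90.ne
          · rw [s1, s2]; exact hwz.ne
          · rw [s1, s3]; exact wneP 1 (by norm_num)
          · rw [s1, s4]; exact wneP 0 (by norm_num)
          · rw [s2, s3]; exact zP1.ne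
          · rw [s2, s4]; exact zneP 0 (by norm_num)
          · rw [s3, s4]; exact a01.ne')
        (by
          intro a ha
          have hcases : a = 0 ∨ a = 1 ∨ a = 2 ∨ a = 3 := by omega
          rcases hcases with rfl | rfl | rfl | rfl
          · show G.Adj (s 0) (s 1)
            rw [s0, s1]; exact hw9.symm
          · show G.Adj (s 1) (s 2)
            rw [s1, s2]; exact hwz
          · show G.Adj (s 2) (s 3)
            rw [s2, s3]; exact zP1
          · show G.Adj (s 3) (s 4)
            rw [s3, s4]; exact a01.symm)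
        (by
          show G.Adj (s 4) (s 0)
          rw [s4, s0]; exact a90.symm)
        (by
          intro a ha
          have hcases : a = 0 ∨ a = 1 ∨ a = 2 := by omega
          rcases hcases with rfl | rfl | rfl
          · show ¬ G.Adj (s 0) (s 2)
            rw [s0, s2]; exact fun hh => z9 hh.symm
          · show ¬ G.Adj (s 1) (s 3)
            rw [s1, s3]; exact hw1
          · show ¬ G.Adj (s 2) (s 4)
            rw [s2, s4]; exact z0)
        (by
          show ¬ G.Adj (s 3) (s 0)
          rw [s3, s0]; exact h19)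
        (by
          show ¬ G.Adj (s 4) (s 1)
          rw [s4, s1]; exact fun hh => hw0 hh.symm)
      have h10 := (thin_structure hl hP 5 g hg).1
      omega
  by_cases hzP : ∀ i < N, z ≠ P i
  · obtain ⟨w, hw, hw1, hw2⟩ := hl.deg z (P 1) (P 2)
    have hw2' : ¬ G.Adj w (P 2) := by
      intro hadj
      exact hl.L1 (v := z) (a := P 1) (b := P 2) (c := w) zP1 zP2 hw hw1.symm a12 hadj.symm
    have hR : TP G (N - 2 + 1) (cons z (fun i => P (i + 2))) := by
      refine (h.shift 2).cons (by omega) (fun i hi => hzP _ (by omega)) ?_ ?_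
      · simpa using zP2
      · intro _ hadj
        exact z3 (by simpa using hadj)
    by_cases hwP : ∀ i < N, w ≠ P i
    · have hQ : TP G (N - 2 + 1 + 1) (cons w (cons z (fun i => P (i + 2)))) := by
        refine hR.cons (by omega) ?_ ?_ ?_
        · intro i hi
          rcases i with _ | i
          · rw [cons_zero]; exact hw.ne'
          · rw [cons_succ]; exact hwP _ (by omega)
        · rw [cons_zero]; exact hw.symm
        · intro _
          rw [show (1 : ℕ) = 0 + 1 from rfl, cons_succ]
          simpa using hw2'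
      have eN : N - 2 + 1 + 1 = N := by omega
      rw [eN] at hQ
      obtain ⟨-, g, hg, hgP, hgm, hg10⟩ := first_cycle hl hP hQ hN2 hmax
      have hc : G.Adj (P 9) w := by
        have h1 := hg.adj 9
        have h2 := hgP 9 (by norm_num)
        norm_num at h1 h2
        rw [h2, hg10] at h1
        exact h1
      exact five w (out w (fun a ha => hwP a (by omega))) hw.symm hc.symm
    · push Not at hwP
      obtain ⟨q, hqN, rfl⟩ := hwP
      by_cases hq9 : q ≤ 9
      · exact zP q hq9 (by rintro rfl; exact hw1 rfl) (by rintro rfl; exact hw2 rfl) hw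
      · have hex : ∃ q', 10 ≤ q' ∧ q' < N ∧ G.Adj z (P q') := ⟨q, by omega, hqN, hw⟩
        set q' := Nat.find hex with hq'
        obtain ⟨g1, g2, g3⟩ := Nat.find_spec hex
        rw [← hq'] at g1 g2 g3
        have hprev : ¬ G.Adj z (P (q' - 1)) := by
          intro hadj
          by_cases hq : q' = 10
          · rw [hq] at hadj
            exact z9 (by simpa using hadj)
          · have := Nat.find_min' hex ⟨show 10 ≤ q' - 1 by omega, by omega, hadj⟩
            omega
        obtain ⟨g, hg, -, -, -⟩ := mkTC (G := G) (cons z (fun i => P (i + 2))) q' (by omega)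
          (fun a b hab hb => hR.inj a b hab (by omega)) (fun a ha => hR.adj a (by omega))
          (by
            obtain ⟨s, hs⟩ : ∃ s, q' = s + 2 := ⟨q' - 2, by omega⟩
            rw [hs, show s + 2 - 1 = s + 1 from rfl, cons_succ, cons_zero, ← hs]
            exact g3.symm)
          (fun a ha => hR.thin a (by omega))
          (by
            obtain ⟨s, hs⟩ : ∃ s, q' = s + 3 := ⟨q' - 3, by omega⟩
            rw [hs, show s + 3 - 2 = s + 1 from rfl, cons_succ, cons_zero]
            have e : s + 2 = q' - 1 := by omega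
            rw [e]
            exact fun hadj => hprev hadj.symm)
          (by
            obtain ⟨s, hs⟩ : ∃ s, q' = s + 2 := ⟨q' - 2, by omega⟩
            rw [hs, show s + 2 - 1 = s + 1 from rfl, cons_succ, show (1 : ℕ) = 0 + 1 from rfl,
              cons_succ, ← hs]
            intro hadj
            exact hl.L1 (v := P 2) (a := P 1) (b := z) (c := P q') a12.symm zP2.symm
              (by simpa using hadj.symm) (h.inj 1 q' (by omega) g2) zP1.symm g3)
        have h10 := (thin_structure hl hP q' g hg).1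
        rw [h10] at g3
        have h910 : G.Adj (P 9) (P 10) := h.adj 9 (by omega)
        exact five (P 10) (outP 10 (le_refl _) (by omega)) g3.symm h910.symm
  · push Not at hzP
    obtain ⟨q, hqN, hzq⟩ := hzP
    have hq10 := inP z oz q hzq
    have h910 : G.Adj (P 9) (P 10) := h.adj 9 (by omega)
    have hqne : q ≠ 10 := by
      rintro rfl
      rw [← hzq] at h910
      exact z9 h910.symm
    have hR := h.shift 2
    obtain ⟨g, hg, -, -, -⟩ := mkTC (G := G) (fun i => P (i + 2)) (q - 1) (by omega)
      (fun a b hab hb => hR.inj a b hab (by omega)) (fun a ha => hR.adj a (by omega))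
      (by
        have e : q - 1 - 1 + 2 = q := by omega
        show G.Adj (P (q - 1 - 1 + 2)) (P (0 + 2))
        rw [e, ← hzq]
        exact zP2)
      (fun a ha => hR.thin a (by omega))
      (by
        have e : q - 1 - 2 + 2 = q - 1 := by omega
        show ¬ G.Adj (P (q - 1 - 2 + 2)) (P (0 + 2))
        rw [e]
        intro hadj
        have hqq : G.Adj (P (q - 1)) z := by
          have := h.adj (q - 1) (by omega)
          have e : q - 1 + 1 = q := by omega
          rwa [e, ← hzq] at this
        exact hl.L1 (v := P 2) (a := P 1) (b := z) (c := P (q - 1)) a12.symm zP2.symm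
          (by simpa using hadj.symm) (h.inj 1 (q - 1) (by omega) (by omega)) zP1.symm hqq.symm)
      (by
        have e : q - 1 - 1 + 2 = q := by omega
        show ¬ G.Adj (P (q - 1 - 1 + 2)) (P (1 + 2))
        rw [e, ← hzq]
        exact z3)
    have h10 := (thin_structure hl hP (q - 1) g hg).1
    have hq11 : q = 11 := by omega
    subst hq11
    have h1011 : G.Adj (P 10) (P 11) := h.adj 10 (by omega)
    rw [← hzq] at h1011
    exact five (P 10) (outP 10 (le_refl _) (by omega)) h1011 h910.symm

end Pool.Agent.H52.PQ
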